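import Pool.Agent.H583R2.Cplx

/-!
Computations with exponential resources, codes of machines.
-/

namespace Pool.Agent.H583R2

open Computability Turing

section
variable {α β γ δ σ : Type} [TEnc α] [TEnc β] [TEnc γ] [TEnc δ] [TEnc σ]

theorem pf_powConst {n : α → ℕ} (hn : PF n) (k : ℕ) : PF (fun a => n a ^ k) := by
  induction k with
  | zero => exact (PF.const 1).congr (fun a => (pow_zero _).symm)
  | succ k ih => exact (PF.mul ih hn).congr (fun a => (pow_succ _ _).symm)

theorem pb_of_sz {n : α → ℕ} (h : PB (fun a => sz (n a))) : PB n :=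
  h.mono (fun a => by rw [sz_nat]; omega)

omit [TEnc α] in
theorem exp_fold (m : ℕ) (a : α) (v : ℕ) :
    (List.replicate m ()).foldl (fun (s : α × ℕ) (_ : Unit) => (s.1, s.2 + s.2)) (a, v) =
      (a, v * 2 ^ m) := by
  induction m generalizing v with
  | zero => simp
  | succ m ih =>
    rw [List.replicate_succ, List.foldl_cons, ih, pow_succ]
    congr 1
    ring

/-- a polynomial-time function of `a` and `2 ^ m a` -/
theorem has_exp {m : α → ℕ} (hm : PF m) {f : α × ℕ → β} (hf : PF f) :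
    ∃ C : α × ℕ → ℕ, PB C ∧ Has (fun a => f (a, 2 ^ m a)) (fun a => C (a, 2 ^ m a)) := by
  have hg : PF (fun a => (List.replicate (m a) (), (a, 1))) :=
    PF.pair (PF.toList.comp hm) (PF.pair PF.id (PF.const 1))
  have hF : PF (fun q : Unit × (α × ℕ) => (q.2.1, q.2.2 + q.2.2)) :=
    PF.pair (PF.fst' PF.snd) (PF.add (PF.snd' PF.snd) (PF.snd' PF.snd))
  have hgs := hg.size
  have hms := pb_of_sz hm.size
  obtain ⟨cg, hcg, hg⟩ := hg
  obtain ⟨cF, ⟨k, hcF⟩, hF⟩ := hF
  obtain ⟨cf, hcf, hf⟩ := hf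
  refine ⟨fun p => cg p.1 + (10 * sz (List.replicate (m p.1) (), (p.1, 1)) + 12 +
    m p.1 * (10 * (2 * p.2 + sz p.1 + 2) + 10 + (2 * (2 * p.2 + sz p.1 + 2) + 3) ^ k)) + cf p,
    ?_, ?_⟩
  · have h2 : PB (fun p : α × ℕ => 2 * p.2 + sz p.1 + 2) :=
      (((PB.const 2).mul (pb_of_sz (PF.snd.size))).add (PB.szId.fst)).add (PB.const 2)
    exact (hcg.fst.add ((((PB.const 10).mul hgs.fst).add (PB.const 12)).add
      (hms.fst.mul ((((PB.const 10).mul h2).add (PB.const 10)).add
        ((((PB.const 2).mul h2).add (PB.const 3)).pow k))))).add hcf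
  · have h1 := Has.comp (Has.fold hF) hg
    have h2 : Has (fun a : α => (a, 2 ^ m a)) (fun a => cg a +
        (10 * sz (List.replicate (m a) (), (a, 1)) + 12 +
          foldCost (fun q : Unit × (α × ℕ) => (q.2.1, q.2.2 + q.2.2)) cF
            (List.replicate (m a) ()) (a, 1))) := by
      have e : (fun a : α => (List.replicate (m a) (), (a, 1)).1.foldl
          (fun s b => (fun q : Unit × (α × ℕ) => (q.2.1, q.2.2 + q.2.2)) (b, s))
          (List.replicate (m a) (), (a, 1)).2) = fun a => (a, 2 ^ m a) := by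
        funext a
        rw [show (fun (s : α × ℕ) (b : Unit) =>
          (fun q : Unit × (α × ℕ) => (q.2.1, q.2.2 + q.2.2)) (b, s)) =
          fun (s : α × ℕ) (_ : Unit) => (s.1, s.2 + s.2) from rfl, exp_fold]
        simp
      rw [← e]
      exact h1
    refine (Has.comp hf h2).mono ?_
    intro a
    have h3 := foldCost_le (fun q : Unit × (α × ℕ) => (q.2.1, q.2.2 + q.2.2)) cF k
      (2 * 2 ^ m a + sz a + 2) hcF (List.replicate (m a) ()) (a, 1) (by
        intro j hj
        rw [List.length_replicate] at hj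
        rw [List.take_replicate, Nat.min_eq_left hj]
        rw [show (fun (s : α × ℕ) (b : Unit) =>
          (fun q : Unit × (α × ℕ) => (q.2.1, q.2.2 + q.2.2)) (b, s)) =
          fun (s : α × ℕ) (_ : Unit) => (s.1, s.2 + s.2) from rfl, exp_fold]
        rw [sz_pair, sz_nat, one_mul]
        have : 2 ^ j ≤ 2 ^ m a := Nat.pow_le_pow_right (by norm_num) hj
        omega) (by
        intro x _
        rw [sz_unit]
        omega)
    rw [List.length_replicate] at h3
    dsimp only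
    omega

/-! machines computing functions with polynomial cost -/

theorem sz_str (x : List Bool) : sz x ≤ 4 * x.length + 1 := sz_str_le x

theorem time_norm (n N k K : ℕ) (hK : K = 73 + 13 * 4 ^ k + k) :
    60 * n + 13 * (4 * n + 2 * N + 5) ^ k + 40 ≤ K * (n + N + 2) ^ K + K := by
  have h1 : (4 * n + 2 * N + 5) ^ k ≤ 4 ^ k * (n + N + 2) ^ k := by
    rw [← mul_pow]; exact Nat.pow_le_pow_left (by omega) _
  have h2 : (n + N + 2) ^ k ≤ (n + N + 2) ^ K :=
    Nat.pow_le_pow_right (by omega) (by omega)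
  have h3 : n + N + 2 ≤ (n + N + 2) ^ K := by
    calc n + N + 2 = (n + N + 2) ^ 1 := (pow_one _).symm
      _ ≤ _ := Nat.pow_le_pow_right (by omega) (by omega)
  generalize (n + N + 2) ^ K = Y at *
  have h4 : 4 ^ k * (n + N + 2) ^ k ≤ 4 ^ k * Y := Nat.mul_le_mul_left _ h2
  have h5 : K * Y = 73 * Y + 13 * (4 ^ k * Y) + k * Y := by rw [hK]; ring
  rw [h5]
  omega

omit [TEnc β] in
/-- polynomial time -/
theorem tm_poly {f : List Bool → β} (eb : β → List Bool) (h : PF (fun x => eb (f x))) :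
    ∃ k, ∃ M : TM2ComputableInTime (id : List Bool → List Bool) eb f,
      ∀ n, M.time n ≤ k * (n + 2) ^ k + k := by
  obtain ⟨c, ⟨k, hc⟩, h⟩ := h
  obtain ⟨M, hM⟩ := hasTM' eb h (fun n => 60 * n + 13 * (4 * n + 3) ^ k + 40) (by
    intro x
    have h1 := hc x
    have h2 : (sz x + 2) ^ k ≤ (4 * x.length + 3) ^ k :=
      Nat.pow_le_pow_left (by have := sz_str_le x; omega) _
    omega)
  refine ⟨73 + 13 * 4 ^ k + k, M, ?_⟩
  intro n
  rw [hM]
  have h1 := time_norm n 0 k _ rfl
  have h2 : (4 * n + 3) ^ k ≤ (4 * n + 2 * 0 + 5) ^ k := Nat.pow_le_pow_left (by omega) _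
  beta_reduce
  rw [Nat.add_zero n] at h1
  omega

omit [TEnc β] in
/-- exponential time -/
theorem tm_exp {f : List Bool → β} (eb : β → List Bool) (m : ℕ → ℕ)
    (hm : PF (fun x : List Bool => m x.length)) {g : List Bool × ℕ → List Bool}
    (h : PF g) (hg : ∀ x, eb (f x) = g (x, 2 ^ m x.length)) :
    ∃ k, ∃ M : TM2ComputableInTime (id : List Bool → List Bool) eb f,
      ∀ n, M.time n ≤ k * (n + 2 ^ m n + 2) ^ k + k := by
  obtain ⟨C, ⟨k, hC⟩, h1⟩ := has_exp hm h
  have h2 : Has (fun x => eb (f x)) (fun x => C (x, 2 ^ m x.length)) := by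
    have e : (fun x => eb (f x)) = fun x => g (x, 2 ^ m x.length) := funext hg
    rw [e]
    exact h1
  obtain ⟨M, hM⟩ := hasTM' eb h2 (fun n => 60 * n + 13 * (4 * n + 2 * 2 ^ m n + 5) ^ k + 40) (by
    intro x
    have h1 := hC (x, 2 ^ m x.length)
    have h2 : (sz (x, 2 ^ m x.length) + 2) ^ k ≤ (4 * x.length + 2 * 2 ^ m x.length + 5) ^ k :=
      Nat.pow_le_pow_left (by
        have := sz_str_le x
        rw [sz_pair, sz_nat]
        omega) _
    omega)
  refine ⟨73 + 13 * 4 ^ k + k, M, ?_⟩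
  intro n
  rw [hM]
  exact time_norm n (2 ^ m n) k _ rfl

end

/-! arithmetic of time bounds -/

theorem add_two_le_sq (n : ℕ) (h : 2 ≤ n) : n + 2 ≤ n ^ 2 := by nlinarith

/-- `K (n+2)^j + K ≤ n^c + c` -/
theorem poly_norm (K j : ℕ) : ∃ c, ∀ n, K * (n + 2) ^ j + K ≤ n ^ c + c := by
  refine ⟨2 * j + K + K * 3 ^ j + K, ?_⟩
  intro n
  rcases Nat.lt_or_ge n 2 with h | h
  · have h1 : (n + 2) ^ j ≤ 3 ^ j := Nat.pow_le_pow_left (by omega) _
    have h2 := Nat.mul_le_mul_left K h1
    omega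
  · have h1 : (n + 2) ^ j ≤ n ^ (2 * j) := by
      rw [pow_mul]; exact Nat.pow_le_pow_left (add_two_le_sq n h) _
    have h2 : K ≤ n ^ K := by
      have h3 := Nat.lt_two_pow_self (n := K)
      have h4 : 2 ^ K ≤ n ^ K := Nat.pow_le_pow_left h _
      omega
    have h3 : K * (n + 2) ^ j ≤ n ^ (2 * j + K) := by
      rw [pow_add, mul_comm (n ^ (2 * j))]
      exact Nat.mul_le_mul h2 h1
    have h4 : n ^ (2 * j + K) ≤ n ^ (2 * j + K + K * 3 ^ j + K) :=
      Nat.pow_le_pow_right (by omega) (by omega)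
    omega

theorem two_pow_norm (K a b : ℕ) : ∃ c, ∀ n, K * (2 ^ (a * n + b)) ^ K + K ≤ 2 ^ (c * n + c) := by
  refine ⟨a * K + b * K + K + 1, ?_⟩
  intro n
  have h1 := (Nat.lt_two_pow_self (n := K)).le
  have h2 : K * (2 ^ (a * n + b)) ^ K ≤ 2 ^ ((a * n + b) * K + K) := by
    rw [pow_add 2 ((a * n + b) * K) K, ← pow_mul 2 (a * n + b) K, mul_comm K]
    exact Nat.mul_le_mul_left _ h1
  have h3 : 2 ^ ((a * n + b) * K + K) + 2 ^ ((a * n + b) * K + K) ≤
      2 ^ ((a * K + b * K + K + 1) * n + (a * K + b * K + K + 1)) := by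
    rw [← two_mul, ← pow_succ']
    refine Nat.pow_le_pow_right (by norm_num) ?_
    nlinarith [Nat.zero_le (b * K * n), Nat.zero_le (K * n)]
  have h4 : K ≤ 2 ^ ((a * n + b) * K + K) := by
    have : 2 ^ K ≤ 2 ^ ((a * n + b) * K + K) := Nat.pow_le_pow_right (by norm_num) (by omega)
    omega
  omega

theorem exp_norm (K j b : ℕ) : ∃ c, ∀ n, K * (2 ^ ((n + 2) ^ j + b)) ^ K + K ≤ 2 ^ (n ^ c + c) := by
  obtain ⟨c, hc⟩ := poly_norm (b * K + K + 1) j
  refine ⟨c, ?_⟩
  intro n
  have h1 := (Nat.lt_two_pow_self (n := K)).le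
  have h2 : K * (2 ^ ((n + 2) ^ j + b)) ^ K ≤ 2 ^ (((n + 2) ^ j + b) * K + K) := by
    rw [pow_add 2 _ K, ← pow_mul, mul_comm K]
    exact Nat.mul_le_mul_left _ h1
  have h4 : K ≤ 2 ^ (((n + 2) ^ j + b) * K + K) := by
    have : 2 ^ K ≤ 2 ^ (((n + 2) ^ j + b) * K + K) :=
      Nat.pow_le_pow_right (by norm_num) (by omega)
    omega
  have h3 : 2 ^ (((n + 2) ^ j + b) * K + K) + 2 ^ (((n + 2) ^ j + b) * K + K) ≤
      2 ^ (n ^ c + c) := by
    rw [← two_mul, ← pow_succ']
    refine Nat.pow_le_pow_right (by norm_num) ?_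
    refine le_trans ?_ (hc n)
    have h5 : 1 ≤ (n + 2) ^ j := Nat.one_le_pow _ _ (by omega)
    nlinarith [Nat.zero_le (b * K * (n + 2) ^ j)]
  omega

theorem poly_lt_exp (m c : ℕ) : ∃ n0, ∀ n, n0 ≤ n → m * (n ^ c + c) ≤ 2 ^ n := by
  have h := tendsto_pow_const_div_const_pow_of_one_lt (c + 1) (r := 2) (by norm_num)
  have h1 := h.eventually (gt_mem_nhds (show (0 : ℝ) < 1 by norm_num))
  obtain ⟨n1, hn1⟩ := Filter.eventually_atTop.1 h1
  refine ⟨max n1 (m * (1 + c) + 1), ?_⟩
  intro n hn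
  have h2 := hn1 n (le_trans (le_max_left _ _) hn)
  rw [div_lt_one (by positivity)] at h2
  have h3 : n ^ (c + 1) < 2 ^ n := by exact_mod_cast h2
  have h4 : m * (1 + c) + 1 ≤ n := le_trans (le_max_right _ _) hn
  have h5 : 1 ≤ n ^ c := Nat.one_le_pow _ _ (by omega)
  have h6 : m * (n ^ c + c) ≤ m * (1 + c) * n ^ c := by
    have h7 : n ^ c + c ≤ (1 + c) * n ^ c := by nlinarith
    calc m * (n ^ c + c) ≤ m * ((1 + c) * n ^ c) := Nat.mul_le_mul_left _ h7
      _ = _ := by ring
  have h7 : m * (1 + c) * n ^ c ≤ n * n ^ c := Nat.mul_le_mul_right _ (by omega)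
  rw [pow_succ, mul_comm] at h3
  omega

/-! codes of machines -/

theorem code_of_tm {β : Type} {eb : β → List Bool} {f : List Bool → β}
    (M : TM2ComputableInTime (id : List Bool → List Bool) eb f) :
    ∃ (c : Code) (m : ℕ), ∀ x t, m * M.time x.length ≤ t → U c x t = some (eb (f x)) := by
  refine ⟨codeOf M.inputAlphabet M.outputAlphabet, maxDep M.tm, ?_⟩
  intro x t ht
  exact U_codeOf M.inputAlphabet M.outputAlphabet x (eb (f x)) (M.time x.length)
    (M.outputsFun x) t ht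

def encB (b : Bool) : List Bool := [b]

/-- every language of linear-exponential time is some `Bv e` -/
theorem exists_Bv {B : List Bool → Bool}
    (M : TM2ComputableInTime (id : List Bool → List Bool) encB B) (c : ℕ)
    (hM : ∀ n, M.time n ≤ 2 ^ (c * n + c)) : ∃ e, ∀ y, Bv e y = B y := by
  obtain ⟨cd, m, hcd⟩ := code_of_tm M
  obtain ⟨e, he, hme⟩ := exists_mE cd (c + m)
  refine ⟨e, ?_⟩
  intro y
  unfold Bv bvF
  rw [hme, hcd y]
  · cases hB : B y <;> rfl
  · have h1 := hM y.length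
    have h2 := (Nat.lt_two_pow_self (n := m)).le
    calc m * M.time y.length ≤ 2 ^ m * 2 ^ (c * y.length + c) := Nat.mul_le_mul h2 h1
      _ = 2 ^ (m + (c * y.length + c)) := (pow_add _ _ _).symm
      _ ≤ _ := by
        refine Nat.pow_le_pow_right (by norm_num) ?_
        nlinarith [Nat.zero_le (m * y.length), Nat.zero_le ((e - (c + m)) * (y.length + 1)),
          Nat.mul_le_mul_right (y.length + 1) he]

theorem goodG_of_tm {g : List Bool → List Bool}
    (M : TM2ComputableInTime (id : List Bool → List Bool) (id : List Bool → List Bool) g) (c : ℕ)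
    (hM : ∀ n, M.time n ≤ n ^ c + c) : ∃ cd, GoodG cd g := by
  obtain ⟨cd, m, hcd⟩ := code_of_tm M
  obtain ⟨n0, hn0⟩ := poly_lt_exp m c
  refine ⟨cd, n0, ?_⟩
  intro x hx f hf
  unfold gv
  rw [hcd x]
  · rfl
  · exact (Nat.mul_le_mul_left _ (hM _)).trans ((hn0 _ hx).trans hf)

theorem goodD_of_tm {F : List Bool → ℕ × ℕ}
    (M : TM2ComputableInTime (id : List Bool → List Bool) encPair F) (c : ℕ)
    (hM : ∀ n, M.time n ≤ 2 ^ (Nat.log 2 n ^ c + c)) : ∃ k, GoodD (mD k).1 (mD k).2 F := by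
  obtain ⟨cd, m, hcd⟩ := code_of_tm M
  obtain ⟨k, _, hk⟩ := exists_mD (cd, 3 * c + m) 0
  refine ⟨k, ?_⟩
  rw [hk]
  intro n hn w hw f hf
  unfold gv
  rw [hcd w]
  · rfl
  · refine le_trans ?_ hf
    have h0 : Nat.log 2 w.length ≤ n + 1 := by
      calc Nat.log 2 w.length ≤ Nat.log 2 (2 ^ (n + 1)) := Nat.log_mono_right hw
        _ = n + 1 := Nat.log_pow (by norm_num) _
    have h1 : Nat.log 2 w.length ^ c ≤ n ^ (2 * c) := by
      rw [pow_mul]
      exact Nat.pow_le_pow_left (h0.trans (by nlinarith)) _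
    have h2 := (Nat.lt_two_pow_self (n := m)).le
    have h3 : m + c ≤ n ^ (m + c) := by
      have h4 := (Nat.lt_two_pow_self (n := m + c)).le
      exact h4.trans (Nat.pow_le_pow_left hn _)
    have h5 : n ^ (2 * c) + n ^ (m + c) ≤ n ^ (3 * c + m + 1) := by
      have h6 : n ^ (2 * c) ≤ n ^ (3 * c + m) := Nat.pow_le_pow_right (by omega) (by omega)
      have h7 : n ^ (m + c) ≤ n ^ (3 * c + m) := Nat.pow_le_pow_right (by omega) (by omega)
      rw [pow_succ]
      nlinarith
    calc m * M.time w.length ≤ 2 ^ m * 2 ^ (Nat.log 2 w.length ^ c + c) :=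
          Nat.mul_le_mul h2 (hM _)
      _ = 2 ^ (m + (Nat.log 2 w.length ^ c + c)) := by rw [← pow_add]
      _ ≤ _ := Nat.pow_le_pow_right (by norm_num) (by dsimp only; omega)

/-! complexity of the constructed objects -/

theorem AA_time : ∃ c, ∃ M : TM2ComputableInTime (id : List Bool → List Bool) encB AA,
    ∀ n, M.time n ≤ 2 ^ (c * n + c) := by
  obtain ⟨k, M, hM⟩ := tm_exp (f := AA) encB (fun n => 2 * n + 3)
    (PF.add (PF.mul (PF.const 2) (PF.length PF.id)) (PF.const 3))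
    (g := fun p => [avN p.2 p.1])
    (PF.cons (pf_avN PF.snd PF.fst) (PF.const []))
    (by
      intro x
      rw [avN_eq (le_refl _)]
      rfl)
  obtain ⟨c, hc⟩ := two_pow_norm k 2 4
  refine ⟨c, M, fun n => (hM n).trans (le_trans ?_ (hc n))⟩
  have h : n + 2 ^ (2 * n + 3) + 2 ≤ 2 ^ (2 * n + 4) := by
    have h1 := Nat.lt_two_pow_self (n := 2 * n + 3)
    rw [pow_succ 2 (2 * n + 3)]
    omega
  exact Nat.add_le_add_right (Nat.mul_le_mul_left _ (Nat.pow_le_pow_left h _)) _

theorem RR_time {k : ℕ} {F : List Bool → ℕ × ℕ} (hF : GoodD (mD k).1 (mD k).2 F) :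
    ∃ c, ∃ M : TM2ComputableInTime (id : List Bool → List Bool) encB (RR F k),
      ∀ n, M.time n ≤ 2 ^ (n ^ c + c) := by
  obtain ⟨K, M, hM⟩ := tm_exp (f := RR F k) encB (fun n => (n + 2) ^ ((mD k).2 + 3))
    (pf_powConst (PF.add (PF.length PF.id) (PF.const 2)) _)
    (g := fun p => [rrN k p.2 p.1])
    (PF.cons (pf_rrN k PF.snd PF.fst) (PF.const []))
    (by
      intro x
      rw [rrN_eq hF rfl]
      rfl)
  obtain ⟨c, hc⟩ := exp_norm K ((mD k).2 + 3) 1
  refine ⟨c, M, fun n => (hM n).trans (le_trans ?_ (hc n))⟩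
  have h : n + 2 ^ ((n + 2) ^ ((mD k).2 + 3)) + 2 ≤ 2 ^ ((n + 2) ^ ((mD k).2 + 3) + 1) := by
    have h1 : n + 2 < 2 ^ (n + 2) := Nat.lt_two_pow_self
    have h2 : n + 2 ≤ (n + 2) ^ ((mD k).2 + 3) := by
      calc n + 2 = (n + 2) ^ 1 := (pow_one _).symm
        _ ≤ _ := Nat.pow_le_pow_right (by omega) (by omega)
    have h3 : 2 ^ (n + 2) ≤ 2 ^ ((n + 2) ^ ((mD k).2 + 3)) :=
      Nat.pow_le_pow_right (by norm_num) h2
    rw [pow_succ 2 ((n + 2) ^ ((mD k).2 + 3))]
    omega
  exact Nat.add_le_add_right (Nat.mul_le_mul_left _ (Nat.pow_le_pow_left h _)) _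

theorem dF_time : ∃ c, ∃ M : TM2ComputableInTime (id : List Bool → List Bool) encPair dF,
    ∀ n, M.time n ≤ n ^ c + c := by
  obtain ⟨k, M, hM⟩ := tm_poly (f := dF) encPair pf_dF
  obtain ⟨c, hc⟩ := poly_norm k k
  exact ⟨c, M, fun n => (hM n).trans (hc n)⟩

theorem tm_of_PF {g : List Bool → List Bool} (h : PF g) :
    ∃ c, ∃ M : TM2ComputableInTime (id : List Bool → List Bool) (id : List Bool → List Bool) g,
      ∀ n, M.time n ≤ n ^ c + c := by
  obtain ⟨k, M, hM⟩ := tm_poly (f := g) (id : List Bool → List Bool) h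
  obtain ⟨c, hc⟩ := poly_norm k k
  exact ⟨c, M, fun n => (hM n).trans (hc n)⟩

/-! the coding reduction -/

theorem const_code (b : Bool) : ∃ c : Code, ∀ (a : Bool) (t : ℕ),
    ((U c [a] t).getD [] == [true]) = b := by
  refine ⟨([], 0, 1, 0, (0, 0), 0, [b]), ?_⟩
  intro a t
  have h : ∀ t, (stepU [])^[t] (initU ([], 0, 1, 0, (0, 0), 0, [b]) [a]) =
      initU ([], 0, 1, 0, (0, 0), 0, [b]) [a] := by
    intro t
    induction t with
    | zero => rfl
    | succ t ih => rw [Function.iterate_succ_apply', ih]; rfl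
  unfold U runU
  simp only [h]
  cases a <;> cases b <;> rfl

theorem exists_val (b : Bool) : ∃ z, AA z = b := by
  obtain ⟨c, hc⟩ := const_code b
  obtain ⟨e, _, he⟩ := exists_mE c 0
  have hB : ∀ a, Bv e [a] = b := by
    intro a
    unfold Bv bvF
    rw [he]
    exact hc a _
  by_cases h : ∃ s, Md s (encZ e [false])
  · obtain ⟨s, hs⟩ := h
    refine ⟨encZ e [true], ?_⟩
    rw [AA_cod, dE_encZ, dY_encZ, hB]
    intro s' hs'
    have h1 : s = s' := loc_inj hs.1 hs'.1 (by
      rw [hs.2.2, hs'.2.2]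
      simp [encZ])
    subst h1
    have h2 : encZ e [false] = encZ e [true] := by rw [← hs.2.2, ← hs'.2.2]
    have h3 : dY (encZ e [false]) = dY (encZ e [true]) := by rw [h2]
    rw [dY_encZ, dY_encZ] at h3
    exact absurd h3 (by decide)
  · push_neg at h
    refine ⟨encZ e [false], ?_⟩
    rw [AA_cod h, dE_encZ, dY_encZ, hB]

theorem opt_map_getD {β γ : Type} (o : Option β) (f : β → γ) (d : γ) :
    (match o with | none => d | some x => f x) = (o.map f).getD d := by cases o <;> rfl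

theorem coding {e s0 : ℕ} (h : ∀ s z, s0 ≤ s → Md s z → dE z ≠ e) :
    ∃ g : List Bool → List Bool, PF g ∧ ∀ y, Bv e y = AA (g y) := by
  obtain ⟨t1, ht1⟩ := exists_val true
  obtain ⟨t0, ht0⟩ := exists_val false
  set T : List (List Bool × List Bool) := (List.range s0).map (fun s =>
    (rZ (recS s), if Bv e (dY (rZ (recS s))) then t1 else t0)) with hT
  refine ⟨fun y => ((T.find? (fun p => p.1 == encZ e y)).map (fun p => p.2)).getD (encZ e y),
    ?_, ?_⟩
  · have he : PF (fun y : List Bool => encZ e y) := PF.encZ e PF.id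
    have hf := PF.find (l := fun _ : List Bool => T) (f := fun y p => p.1 == encZ e y)
      (PF.const T) (PF.beqStr (PF.fst' PF.snd) (he.comp PF.fst))
    refine (hf.optCase (g := fun y => encZ e y) (h := fun _ p => p.2) he
      (PF.snd' PF.snd)).congr ?_
    intro y
    exact opt_map_getD _ _ _
  · intro y
    rcases hfind : T.find? (fun p => p.1 == encZ e y) with _ | p
    · simp only [hfind, Option.map_none, Option.getD_none]
      rw [AA_cod, dE_encZ, dY_encZ]
      intro s hm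
      rcases Nat.lt_or_ge s s0 with hs | hs
      · have h1 := List.find?_eq_none.1 hfind
          (rZ (recS s), if Bv e (dY (rZ (recS s))) then t1 else t0)
          (by rw [hT]; exact List.mem_map.2 ⟨s, List.mem_range.2 hs, rfl⟩)
        apply h1
        simp only [beq_iff_eq]
        exact hm.2.2
      · exact h s _ hs hm (dE_encZ e y)
    · have h1 := List.find?_some hfind
      have h2 := List.mem_of_find?_eq_some hfind
      rw [hT] at h2
      obtain ⟨s, _, rfl⟩ := List.mem_map.1 h2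
      simp only [beq_iff_eq] at h1
      simp only [hfind, Option.map_some, Option.getD_some]
      rw [h1, dY_encZ]
      cases hb : Bv e y
      · simp only [Bool.false_eq_true, if_false]
        exact ht0.symm
      · simp only [if_true]
        exact ht1.symm

end Pool.Agent.H583R2
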