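import Mathlib

/-!
A small structured language of stack programs over five stacks of bits, with a
big-step cost semantics, and its compilation to the multi-stack Turing machines
`Turing.FinTM2` of Mathlib.
-/

namespace Pool.Agent.H583R2

open Turing Function

/-- names of the five stacks -/
inductive Sk
  | m | a | b | t | c
  deriving DecidableEq, Fintype

/-- a memory state: five stacks of bits -/
structure St where
  m : List Bool
  a : List Bool
  b : List Bool
  t : List Bool
  c : List Bool

namespace St

def get (S : St) : Sk → List Bool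
  | .m => S.m
  | .a => S.a
  | .b => S.b
  | .t => S.t
  | .c => S.c

def set (S : St) (k : Sk) (l : List Bool) : St :=
  match k with
  | .m => { S with m := l }
  | .a => { S with a := l }
  | .b => { S with b := l }
  | .t => { S with t := l }
  | .c => { S with c := l }

theorem get_set (S : St) (k : Sk) (l : List Bool) :
    (S.set k l).get = Function.update S.get k l := by
  funext j
  cases k <;> cases j <;> rfl

end St

/-- structured stack programs -/
inductive Prog
  | skip : Prog
  | push (k : Sk) (x : Bool) : Prog
  | seq (p q : Prog) : Prog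
  | pop (k : Sk) (pn pf pt : Prog) : Prog
  | whil (k : Sk) (cd : Option Bool → Bool) (p : Prog) : Prog

/-- the branch taken by `pop` -/
def sel (o : Option Bool) (pn pf pt : Prog) : Prog :=
  match o with
  | none => pn
  | some false => pf
  | some true => pt

/-- big-step semantics with exact cost -/
inductive Ev : Prog → St → St → ℕ → Prop
  | skip (S : St) : Ev .skip S S 1
  | push (k : Sk) (x : Bool) (S : St) : Ev (.push k x) S (S.set k (x :: S.get k)) 1
  | seq {p q : Prog} {S S' S'' : St} {i j : ℕ} :
      Ev p S S' i → Ev q S' S'' j → Ev (.seq p q) S S'' (i + j)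
  | pop {k : Sk} {pn pf pt : Prog} {S S' : St} {i : ℕ} :
      Ev (sel (S.get k).head? pn pf pt) (S.set k (S.get k).tail) S' i →
      Ev (.pop k pn pf pt) S S' (i + 1)
  | whilDone {k : Sk} {cd : Option Bool → Bool} {p : Prog} {S : St} :
      cd (S.get k).head? = false → Ev (.whil k cd p) S S 1
  | whilStep {k : Sk} {cd : Option Bool → Bool} {p : Prog} {S S' S'' : St} {i j : ℕ} :
      cd (S.get k).head? = true → Ev p S S' i → Ev (.whil k cd p) S' S'' j →
      Ev (.whil k cd p) S S'' (i + j + 1)

/-- program points -/
def Lab : Prog → Type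
  | .skip => Unit
  | .push _ _ => Unit
  | .seq p q => Lab p ⊕ Lab q
  | .pop _ pn pf pt => Option (Lab pn ⊕ (Lab pf ⊕ Lab pt))
  | .whil _ _ p => Option (Lab p)

@[instance_reducible] def labFintype : (p : Prog) → Fintype (Lab p)
  | .skip => inferInstanceAs (Fintype Unit)
  | .push _ _ => inferInstanceAs (Fintype Unit)
  | .seq p q =>
      letI := labFintype p
      letI := labFintype q
      inferInstanceAs (Fintype (Lab p ⊕ Lab q))
  | .pop _ pn pf pt =>
      letI := labFintype pn
      letI := labFintype pf
      letI := labFintype pt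
      inferInstanceAs (Fintype (Option (Lab pn ⊕ (Lab pf ⊕ Lab pt))))
  | .whil _ _ p =>
      letI := labFintype p
      inferInstanceAs (Fintype (Option (Lab p)))

/-- entry point -/
def entry : (p : Prog) → Lab p
  | .skip => ()
  | .push _ _ => ()
  | .seq p _ => Sum.inl (entry p)
  | .pop _ _ _ _ => none
  | .whil _ _ _ => none

/-- code of a program point -/
def code {Λ : Type} : (p : Prog) → (Lab p → Λ) → Λ → Lab p →
    TM2.Stmt (fun _ : Sk => Bool) Λ (Option Bool)
  | .skip, _, x, _ => .goto (fun _ => x)
  | .push k y, _, x, _ => .push k (fun _ => y) (.goto (fun _ => x))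
  | .seq p q, e, x, l =>
      match l with
      | Sum.inl l => code p (fun z => e (Sum.inl z)) (e (Sum.inr (entry q))) l
      | Sum.inr l => code q (fun z => e (Sum.inr z)) x l
  | .pop k pn pf pt, e, x, l =>
      match l with
      | none => .pop k (fun _ o => o) (.goto (fun v =>
          match v with
          | none => e (some (Sum.inl (entry pn)))
          | some false => e (some (Sum.inr (Sum.inl (entry pf))))
          | some true => e (some (Sum.inr (Sum.inr (entry pt))))))
      | some (Sum.inl l) => code pn (fun z => e (some (Sum.inl z))) x l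
      | some (Sum.inr (Sum.inl l)) => code pf (fun z => e (some (Sum.inr (Sum.inl z)))) x l
      | some (Sum.inr (Sum.inr l)) => code pt (fun z => e (some (Sum.inr (Sum.inr z)))) x l
  | .whil k cd p, e, x, l =>
      match l with
      | none => .peek k (fun _ o => o) (.goto (fun v =>
          if cd v then e (some (entry p)) else x))
      | some l => code p (fun z => e (some z)) (e none) l

abbrev SCfg (Λ : Type) := TM2.Cfg (fun _ : Sk => Bool) Λ (Option Bool)

/-- iterated step -/
def steps {Λ : Type} (M : Λ → TM2.Stmt (fun _ : Sk => Bool) Λ (Option Bool)) (n : ℕ)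
    (o : Option (SCfg Λ)) : Option (SCfg Λ) :=
  (flip bind (TM2.step M))^[n] o

theorem steps_add {Λ : Type} (M : Λ → TM2.Stmt (fun _ : Sk => Bool) Λ (Option Bool)) (i j : ℕ)
    (o : Option (SCfg Λ)) : steps M (i + j) o = steps M j (steps M i o) := by
  unfold steps
  rw [Nat.add_comm, Function.iterate_add_apply]

theorem steps_one {Λ : Type} (M : Λ → TM2.Stmt (fun _ : Sk => Bool) Λ (Option Bool))
    (l : Λ) (v : Option Bool) (stk : Sk → List Bool) :
    steps M 1 (some ⟨some l, v, stk⟩) = some (TM2.stepAux (M l) v stk) := rfl

theorem Ev.run {p : Prog} {S S' : St} {n : ℕ} (h : Ev p S S' n) :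
    ∀ {Λ : Type} (M : Λ → TM2.Stmt (fun _ : Sk => Bool) Λ (Option Bool))
      (e : Lab p → Λ) (x : Λ), (∀ l, M (e l) = code p e x l) → ∀ v : Option Bool,
      ∃ v' : Option Bool, steps M n (some ⟨some (e (entry p)), v, S.get⟩) =
        some ⟨some x, v', S'.get⟩ := by
  induction h with
  | skip S =>
    intro Λ M e x hM v
    refine ⟨v, ?_⟩
    rw [steps_one, hM]
    rfl
  | push k y S =>
    intro Λ M e x hM v
    refine ⟨v, ?_⟩
    rw [steps_one, hM, St.get_set]
    rfl
  | @seq p q S S' S'' i j _ _ ihp ihq =>
    intro Λ M e x hM v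
    obtain ⟨v1, h1⟩ := ihp M (fun z => e (Sum.inl z)) (e (Sum.inr (entry q)))
      (fun l => hM (Sum.inl l)) v
    obtain ⟨v2, h2⟩ := ihq M (fun z => e (Sum.inr z)) x (fun l => hM (Sum.inr l)) v1
    refine ⟨v2, ?_⟩
    rw [steps_add]
    change steps M j (steps M i (some ⟨some (e (Sum.inl (entry p))), v, S.get⟩)) = _
    rw [h1, h2]
  | @pop k pn pf pt S S' i _ ih =>
    intro Λ M e x hM v
    have key : steps M 1 (some ⟨some (e (entry (.pop k pn pf pt))), v, S.get⟩) =
        some ⟨some (match (S.get k).head? with
          | none => e (some (Sum.inl (entry pn)))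
          | some false => e (some (Sum.inr (Sum.inl (entry pf))))
          | some true => e (some (Sum.inr (Sum.inr (entry pt))))), (S.get k).head?,
          (S.set k (S.get k).tail).get⟩ := by
      rw [steps_one, hM, St.get_set]
      rfl
    rw [Nat.add_comm i 1]
    rcases ho : (S.get k).head? with _ | (_ | _)
    · rw [ho] at ih key
      obtain ⟨v2, h2⟩ := ih M (fun z => e (some (Sum.inl z))) x
        (fun l => hM (some (Sum.inl l))) none
      exact ⟨v2, by rw [steps_add, key]; exact h2⟩
    · rw [ho] at ih key
      obtain ⟨v2, h2⟩ := ih M (fun z => e (some (Sum.inr (Sum.inl z)))) x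
        (fun l => hM (some (Sum.inr (Sum.inl l)))) (some false)
      exact ⟨v2, by rw [steps_add, key]; exact h2⟩
    · rw [ho] at ih key
      obtain ⟨v2, h2⟩ := ih M (fun z => e (some (Sum.inr (Sum.inr z)))) x
        (fun l => hM (some (Sum.inr (Sum.inr l)))) (some true)
      exact ⟨v2, by rw [steps_add, key]; exact h2⟩
  | @whilDone k cd p S hc =>
    intro Λ M e x hM v
    refine ⟨(S.get k).head?, ?_⟩
    rw [steps_one, hM]
    change some (TM2.Cfg.mk (some (if cd (S.get k).head? then e (some (entry p)) else x)) _ _) = _
    rw [hc]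
    rfl
  | @whilStep k cd p S S' S'' i j hc _ _ ih1 ih2 =>
    intro Λ M e x hM v
    have key : steps M 1 (some ⟨some (e (entry (.whil k cd p))), v, S.get⟩) =
        some ⟨some (e (some (entry p))), (S.get k).head?, S.get⟩ := by
      rw [steps_one, hM]
      change some (TM2.Cfg.mk (some (if cd (S.get k).head? then e (some (entry p)) else x)) _ _) = _
      rw [hc]
      rfl
    obtain ⟨v1, h1⟩ := ih1 M (fun z => e (some z)) (e none) (fun l => hM (some l))
      (S.get k).head?
    obtain ⟨v2, h2⟩ := ih2 M e x hM v1
    refine ⟨v2, ?_⟩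
    rw [show i + j + 1 = 1 + (i + j) by omega, steps_add, key, steps_add, h1]
    exact h2

/-- the machine of a program: it runs the program on stack `m` and then halts -/
def machine (p : Prog) : Option (Lab p) → TM2.Stmt (fun _ : Sk => Bool) (Option (Lab p)) (Option Bool)
  | none => .load (fun _ => none) .halt
  | some l => code p some none l

def finTM (p : Prog) : FinTM2 :=
  letI := labFintype p
  { K := Sk
    k₀ := Sk.m
    k₁ := Sk.m
    Γ := fun _ => Bool
    Λ := Option (Lab p)
    main := some (entry p)
    σ := Option Bool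
    initialState := none
    Γk₀Fin := inferInstanceAs (Fintype Bool)
    m := machine p }

/-- stack program `p` computes `f` on raw bit strings -/
theorem finTM_outputs (p : Prog) (x y : List Bool) (n : ℕ)
    (h : Ev p ⟨x, [], [], [], []⟩ ⟨y, [], [], [], []⟩ n) :
    Nonempty (TM2OutputsInTime (finTM p) x (some y) (n + 1)) := by
  obtain ⟨v', hv⟩ := h.run (machine p) some none (fun l => rfl) none
  refine ⟨⟨⟨n + 1, ?_⟩, le_refl _⟩⟩
  have h0 : (initList (finTM p) x : (finTM p).Cfg) =
      (⟨some (some (entry p)), none, (⟨x, [], [], [], []⟩ : St).get⟩ :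
        SCfg (Option (Lab p))) := by
    unfold initList
    congr 1
    funext k
    cases k <;> rfl
  have h1 : (haltList (finTM p) y : (finTM p).Cfg) =
      (⟨none, none, (⟨y, [], [], [], []⟩ : St).get⟩ :
        SCfg (Option (Lab p))) := by
    unfold haltList
    congr 1
    funext k
    cases k <;> rfl
  have h2 : steps (machine p) (n + 1)
      (some ⟨some (some (entry p)), none, (⟨x, [], [], [], []⟩ : St).get⟩) =
      some ⟨none, none, (⟨y, [], [], [], []⟩ : St).get⟩ := by
    rw [steps_add, hv, steps_one]
    rfl
  change (flip bind (finTM p).step)^[n + 1] (some (initList (finTM p) x)) =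
    some (haltList (finTM p) y)
  rw [h0, h1]
  exact h2

end Pool.Agent.H583R2
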