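import Pool.Agent.H583R2.Str

/-!
Binary numerals, least significant bit first.
-/

namespace Pool.Agent.H583R2

open Computability

/-- value of a binary numeral -/
def val : List Bool → ℕ
  | [] => 0
  | b :: l => (if b then 1 else 0) + 2 * val l

theorem val_encodePosNum (m : PosNum) : val (encodePosNum m) = (m : ℕ) := by
  induction m with
  | one => rfl
  | bit0 m ih => simp only [encodePosNum, val, ih, PosNum.cast_bit0]; simp; omega
  | bit1 m ih => simp only [encodePosNum, val, ih, PosNum.cast_bit1]; simp; omega

theorem val_encodeNat (n : ℕ) : val (encodeNat n) = n := by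
  unfold encodeNat
  conv_rhs => rw [← Num.to_of_nat n]
  generalize (n : Num) = m
  cases m with
  | zero => rfl
  | pos m => exact val_encodePosNum m

/-- increment -/
def incB : List Bool → List Bool
  | [] => [true]
  | false :: l => true :: l
  | true :: l => false :: incB l

theorem encodePosNum_succ (m : PosNum) : encodePosNum m.succ = incB (encodePosNum m) := by
  induction m with
  | one => rfl
  | bit0 m ih => rfl
  | bit1 m ih => simp only [PosNum.succ, encodePosNum, incB, ih]

theorem encodeNat_succ (n : ℕ) : encodeNat (n + 1) = incB (encodeNat n) := by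
  unfold encodeNat
  rw [Nat.cast_succ, Num.add_one]
  generalize (n : Num) = m
  cases m with
  | zero => rfl
  | pos m => exact encodePosNum_succ m

theorem encodeNat_eq (n : ℕ) : encodeNat n = incB^[n] [] := by
  induction n with
  | zero => rfl
  | succ n ih => rw [encodeNat_succ, Function.iterate_succ_apply', ih]

theorem val_append (l : List Bool) (b : Bool) :
    val (l ++ [b]) = val l + 2 ^ l.length * (if b then 1 else 0) := by
  induction l with
  | nil => simp [val]
  | cons c l ih =>
    rw [List.cons_append, val, val, ih, List.length_cons, pow_succ]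
    ring

/-- one step of addition -/
def addStep (s : List Bool × List Bool × Bool × List Bool) :
    List Bool × List Bool × Bool × List Bool :=
  (s.1.tail, s.2.1.tail,
    (s.1.headD false && s.2.1.headD false) || (s.2.2.1 && (s.1.headD false || s.2.1.headD false)),
    (if s.1.headD false then (if s.2.1.headD false then s.2.2.1 else !s.2.2.1)
      else (if s.2.1.headD false then !s.2.2.1 else s.2.2.1)) :: s.2.2.2)

/-- addition -/
def addB (a b : List Bool) : List Bool :=
  (addStep^[a.length + b.length + 1] (a, b, false, [])).2.2.2.reverse

def bn (b : Bool) : ℕ := if b then 1 else 0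

theorem val_headD (l : List Bool) : val l = bn (l.headD false) + 2 * val l.tail := by
  cases l with
  | nil => rfl
  | cons b l => rfl

theorem addStep_inv (s : List Bool × List Bool × Bool × List Bool) :
    val (addStep s).2.2.2.reverse + 2 ^ (addStep s).2.2.2.length *
      (val (addStep s).1 + val (addStep s).2.1 + bn (addStep s).2.2.1) =
    val s.2.2.2.reverse + 2 ^ s.2.2.2.length * (val s.1 + val s.2.1 + bn s.2.2.1) := by
  obtain ⟨a, b, c, o⟩ := s
  unfold addStep
  simp only [List.reverse_cons, List.length_cons]
  rw [val_append, List.length_reverse, val_headD a, val_headD b, pow_succ]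
  simp only [bn]
  cases a.headD false <;> cases b.headD false <;> cases c <;> simp <;> ring

theorem addIter_inv (n : ℕ) (s : List Bool × List Bool × Bool × List Bool) :
    val (addStep^[n] s).2.2.2.reverse + 2 ^ (addStep^[n] s).2.2.2.length *
      (val (addStep^[n] s).1 + val (addStep^[n] s).2.1 + bn (addStep^[n] s).2.2.1) =
    val s.2.2.2.reverse + 2 ^ s.2.2.2.length * (val s.1 + val s.2.1 + bn s.2.2.1) := by
  induction n with
  | zero => rfl
  | succ n ih => rw [Function.iterate_succ_apply', addStep_inv, ih]

theorem addIter_tail (n : ℕ) (s : List Bool × List Bool × Bool × List Bool) :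
    (addStep^[n] s).1.length = s.1.length - n ∧ (addStep^[n] s).2.1.length = s.2.1.length - n ∧
    (addStep^[n] s).2.2.2.length = s.2.2.2.length + n := by
  induction n with
  | zero => simp
  | succ n ih =>
    rw [Function.iterate_succ_apply']
    generalize addStep^[n] s = s' at *
    unfold addStep
    simp only [List.length_tail, List.length_cons]
    omega

theorem val_addB (a b : List Bool) : val (addB a b) = val a + val b := by
  have h1 := addIter_inv (a.length + b.length + 1) (a, b, false, [])
  have h2 := addIter_tail (a.length + b.length) (a, b, false, [])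
  rw [Function.iterate_succ_apply'] at h1
  unfold addB
  rw [Function.iterate_succ_apply']
  generalize addStep^[a.length + b.length] (a, b, false, []) = s at *
  obtain ⟨x, y, c, o⟩ := s
  simp only at h2
  have hx : x = [] := List.length_eq_zero_iff.1 (by omega)
  have hy : y = [] := List.length_eq_zero_iff.1 (by omega)
  subst hx hy
  simp [addStep, bn, val] at h1 ⊢
  exact h1

theorem length_addB (a b : List Bool) : (addB a b).length = a.length + b.length + 1 := by
  unfold addB
  rw [List.length_reverse, (addIter_tail _ _).2.2]
  simp

/-- multiplication by a unary number -/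
def mulB (n : ℕ) (a : List Bool) : List Bool := (fun s => addB a s)^[n] []

theorem mulB_aux (n : ℕ) (a : List Bool) : val (mulB n a) = n * val a ∧
    (mulB n a).length = n * (a.length + 1) := by
  unfold mulB
  induction n with
  | zero => simp [val]
  | succ n ih =>
    rw [Function.iterate_succ_apply', val_addB, length_addB]
    obtain ⟨h1, h2⟩ := ih
    rw [h1, h2]
    constructor <;> ring

theorem val_mulB (n : ℕ) (a : List Bool) : val (mulB n a) = n * val a := (mulB_aux n a).1

/-- one comparison step -/
def leStep (s : List Bool × List Bool × Bool) : List Bool × List Bool × Bool :=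
  (s.1.tail, s.2.1.tail, if s.1.headD false == s.2.1.headD false then s.2.2
    else s.2.1.headD false)

/-- comparison -/
def leB (a b : List Bool) : Bool := (leStep^[a.length + b.length] (a, b, true)).2.2

theorem leIter (n : ℕ) : ∀ (a b : List Bool) (r : Bool), a.length ≤ n → b.length ≤ n →
    ((leStep^[n] (a, b, r)).2.2 = true ↔ (val a < val b ∨ (val a = val b ∧ r = true))) := by
  induction n with
  | zero =>
    intro a b r ha hb
    have ha' : a = [] := List.length_eq_zero_iff.1 (by omega)
    have hb' : b = [] := List.length_eq_zero_iff.1 (by omega)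
    subst ha' hb'
    simp [val]
  | succ n ih =>
    intro a b r ha hb
    rw [Function.iterate_succ_apply]
    have e : leStep (a, b, r) = (a.tail, b.tail, if a.headD false == b.headD false then r
      else b.headD false) := rfl
    rw [e, ih _ _ _ (by rw [List.length_tail]; omega) (by rw [List.length_tail]; omega)]
    rw [val_headD a, val_headD b]
    simp only [bn]
    cases a.headD false <;> cases b.headD false <;> cases r <;> simp <;> omega

theorem leB_iff (a b : List Bool) : leB a b = true ↔ val a ≤ val b := by
  unfold leB
  rw [leIter _ _ _ _ (by omega) (by omega)]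
  simp; omega

/-! ### pairs of numerals -/

/-- self-delimiting encoding of a pair of natural numbers in binary -/
def encPair (p : ℕ × ℕ) : List Bool :=
  (encodeNat p.1).flatMap (fun b => [true, b]) ++ false :: encodeNat p.2

abbrev SplS := (Bool × Bool) × (List Bool × List Bool)

def splStep (s : SplS) (b : Bool) : SplS :=
  if s.1.1 then ((true, false), (s.2.1, b :: s.2.2))
  else if s.1.2 then ((false, false), (b :: s.2.1, s.2.2))
  else if b then ((false, true), s.2)
  else ((true, false), s.2)

def spl (l : List Bool) : List Bool × List Bool :=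
  ((l.foldl splStep ((false, false), ([], []))).2.1.reverse,
    (l.foldl splStep ((false, false), ([], []))).2.2.reverse)

theorem spl_aux1 (l : List Bool) (p q : List Bool) :
    (l.flatMap (fun b => [true, b])).foldl splStep ((false, false), (p, q)) =
      ((false, false), (l.reverse ++ p, q)) := by
  induction l generalizing p with
  | nil => rfl
  | cons b l ih =>
    rw [List.flatMap_cons, List.foldl_append]
    have e : [true, b].foldl splStep ((false, false), (p, q)) = ((false, false), (b :: p, q)) := rfl
    rw [e, ih]; simp

theorem spl_aux2 (l : List Bool) (p q : List Bool) :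
    l.foldl splStep ((true, false), (p, q)) = ((true, false), (p, l.reverse ++ q)) := by
  induction l generalizing q with
  | nil => rfl
  | cons b l ih =>
    rw [List.foldl_cons]
    have e : splStep ((true, false), (p, q)) b = ((true, false), (p, b :: q)) := rfl
    rw [e, ih]; simp

theorem spl_encPair (p : ℕ × ℕ) : spl (encPair p) = (encodeNat p.1, encodeNat p.2) := by
  unfold spl encPair
  rw [List.foldl_append, spl_aux1, List.foldl_cons]
  have e : splStep ((false, false), ((encodeNat p.1).reverse ++ [], [])) false =
    ((true, false), ((encodeNat p.1).reverse ++ [], [])) := rfl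
  rw [e, spl_aux2]
  simp

/-- bit that does not increase the capital: 1 iff at least half is bet on 0 -/
def advB (o : List Bool) : Bool := leB (spl o).2 (false :: (spl o).1)

/-- the bet is at most the fraction `1/n` -/
def lowB (n : ℕ) (o : List Bool) : Bool :=
  leB (mulB n (false :: (spl o).1)) (mulB (n + 1) (spl o).2) &&
    leB (mulB (n - 1) (spl o).2) (mulB n (false :: (spl o).1))

theorem advB_iff (p q : ℕ) : advB (encPair (p, q)) = true ↔ q ≤ 2 * p := by
  unfold advB
  rw [leB_iff, spl_encPair]
  simp [val, val_encodeNat]

theorem lowB_iff (n p q : ℕ) : lowB n (encPair (p, q)) = true ↔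
    n * (2 * p) ≤ (n + 1) * q ∧ (n - 1) * q ≤ n * (2 * p) := by
  unfold lowB
  rw [Bool.and_eq_true, leB_iff, leB_iff, spl_encPair, val_mulB, val_mulB, val_mulB]
  simp [val, val_encodeNat]

section
variable {α β γ δ σ : Type} [TEnc α] [TEnc β] [TEnc γ] [TEnc δ] [TEnc σ]

theorem PF.incB {l : α → List Bool} (hl : PF l) : PF (fun a => incB (l a)) := by
  have h := PF.foldlAdd (l := l) (s := fun _ => (true, ([] : List Bool)))
    (f := fun _ s b => if s.1 then (b, (!b) :: s.2) else (false, b :: s.2)) hl
    (PF.const _)
    (PF.ite (PF.fst' (PF.fst' PF.snd))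
      (PF.pair (PF.snd' PF.snd) (PF.cons (PF.not (PF.snd' PF.snd)) (PF.snd' (PF.fst' PF.snd))))
      (PF.pair (PF.const false) (PF.cons (PF.snd' PF.snd) (PF.snd' (PF.fst' PF.snd)))))
    (PB.const 7) (PB.const 0) (by
      intro a b _ st
      have h1 := sz_bool b
      have h2 := sz_bool (!b)
      have h3 := sz_pos st.1
      rw [sz_prod st]
      split
      · rw [sz_pair, sz_cons]; omega
      · rw [sz_pair, sz_cons, sz_false]; omega)
  have h2 := PF.ite (PF.fst' h) (PF.reverse (PF.cons (PF.const true) (PF.snd' h)))
    (PF.reverse (PF.snd' h))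
  refine h2.congr ?_
  intro a
  generalize l a = l
  have key : ∀ (l : List Bool) (out : List Bool),
      ((fun r : Bool × List Bool => if r.1 = true then (true :: r.2).reverse else r.2.reverse)
        (l.foldl (fun (s : Bool × List Bool) b => if s.1 = true then (b, (!b) :: s.2)
          else (false, b :: s.2)) (true, out)) = out.reverse ++ H583R2.incB l) ∧
      ((fun r : Bool × List Bool => if r.1 = true then (true :: r.2).reverse else r.2.reverse)
        (l.foldl (fun (s : Bool × List Bool) b => if s.1 = true then (b, (!b) :: s.2)
          else (false, b :: s.2)) (false, out)) = out.reverse ++ l) := by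
    intro l
    induction l with
    | nil => intro out; simp [H583R2.incB]
    | cons b l ih =>
      intro out
      refine ⟨?_, ?_⟩
      · cases b
        · have := (ih (true :: out)).2
          simp only [List.foldl_cons, if_true, Bool.not_false]
          simpa [H583R2.incB] using this
        · have := (ih (false :: out)).1
          simp only [List.foldl_cons, if_true, Bool.not_true]
          simpa [H583R2.incB] using this
      · have := (ih (b :: out)).2
        simp only [List.foldl_cons]
        simpa using this
  simpa using (key l []).1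

theorem sz_incB (l : List Bool) : sz (incB l) ≤ sz l + 4 := by
  induction l with
  | nil => simp [incB, sz_cons, sz_nil, sz_true]
  | cons b l ih =>
    cases b
    · simp only [incB, sz_cons, sz_false, sz_true]; omega
    · simp only [incB, sz_cons, sz_false, sz_true]; omega

theorem PF.encodeNat {n : α → ℕ} (hn : PF n) : PF (fun a => encodeNat (n a)) := by
  have h := PF.iterateAdd (n := n) (s := fun _ => []) (f := fun _ l => H583R2.incB l) hn
    (PF.const []) (PF.incB PF.snd) (PB.const 4) (PB.const 0) (by
      intro a st
      exact (sz_incB st).trans (le_max_left _ _))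
  exact h.congr (fun a => (encodeNat_eq (n a)).symm)

theorem PF.flatMap {l : α → List β} {f : α → β → List γ} (hl : PF l)
    (hf : PF (fun p : α × β => f p.1 p.2)) : PF (fun a => (l a).flatMap (f a)) := by
  obtain ⟨b, hb, hbm⟩ := PB.mem (g := fun a x => sz (f a x)) hl hf.size
  have h := PF.foldrAdd (l := l) (s := fun _ => ([] : List γ)) (f := fun a x s => f a x ++ s) hl
    (PF.const []) (PF.append (hf.comp (PF.fst.pair (PF.fst.comp PF.snd))) (PF.snd.comp PF.snd))
    (inc := fun a => b a) (bnd := fun _ => 0) hb (PB.const 0)
    (by
      intro a x hx st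
      have := hbm a x hx
      have := sz_append (f a x) st
      omega)
  refine h.congr ?_
  intro a
  induction l a with
  | nil => rfl
  | cons x l ih => rw [List.foldr_cons, ih, List.flatMap_cons]

theorem PF.encPair {m n : α → ℕ} (hm : PF m) (hn : PF n) : PF (fun a => encPair (m a, n a)) :=
  PF.append (PF.flatMap (f := fun _ b => [true, b]) (PF.encodeNat hm)
    (PF.cons (PF.const true) (PF.cons PF.snd (PF.const [])))) (PF.cons (PF.const false)
      (PF.encodeNat hn))

theorem PF.spl {l : α → List Bool} (hl : PF l) : PF (fun a => spl (l a)) := by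
  have h := PF.foldlAdd (l := l) (s := fun _ => (((false, false), ([], [])) : SplS))
    (f := fun _ s b => splStep s b) hl (PF.const _)
    (PF.ite (PF.fst' (PF.fst' (PF.fst' PF.snd)))
      (PF.pair (PF.const _) (PF.pair (PF.fst' (PF.snd' (PF.fst' PF.snd)))
        (PF.cons (PF.snd' PF.snd) (PF.snd' (PF.snd' (PF.fst' PF.snd))))))
      (PF.ite (PF.snd' (PF.fst' (PF.fst' PF.snd)))
        (PF.pair (PF.const _) (PF.pair (PF.cons (PF.snd' PF.snd)
          (PF.fst' (PF.snd' (PF.fst' PF.snd)))) (PF.snd' (PF.snd' (PF.fst' PF.snd)))))
        (PF.ite (PF.snd' PF.snd)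
          (PF.pair (PF.const _) (PF.snd' (PF.fst' PF.snd)))
          (PF.pair (PF.const _) (PF.snd' (PF.fst' PF.snd))))))
    (PB.const 20) (PB.const 0) (by
      intro a b _ st
      refine le_trans ?_ (le_max_left _ _)
      have h1 := sz_bool b
      have h2 : ∀ x y : Bool, sz (x, y) ≤ 7 := by decide
      have h3 := sz_pos st.1
      rw [sz_prod st, sz_prod st.2]
      unfold splStep
      split
      · simp only [sz_pair, sz_cons, sz_true, sz_false]
        omega
      · split
        · simp only [sz_pair, sz_cons, sz_true, sz_false]
          omega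
        · split
          · rw [sz_pair, sz_prod st.2]
            have := h2 false true
            omega
          · rw [sz_pair, sz_prod st.2]
            have := h2 true false
            omega)
  exact PF.pair (PF.reverse (PF.fst' (PF.snd' h))) (PF.reverse (PF.snd' (PF.snd' h)))

theorem PF.headF {l : α → List Bool} (hl : PF l) : PF (fun a => (l a).headD false) :=
  PF.headD hl (PF.const false)

theorem PF.addB {l m : α → List Bool} (hl : PF l) (hm : PF m) : PF (fun a => addB (l a) (m a)) := by
  have hs : PF (fun p : α × (List Bool × List Bool × Bool × List Bool) => p.2) := PF.snd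
  have h1 := PF.headF (PF.fst' hs)
  have h2 := PF.headF (PF.fst' (PF.snd' hs))
  have h3 := PF.fst' (PF.snd' (PF.snd' hs))
  have h := PF.iterateAdd (n := fun a => (l a).length + (m a).length + 1)
    (s := fun a => (l a, m a, false, ([] : List Bool))) (f := fun _ s => addStep s)
    (PF.succ (PF.add (PF.length hl) (PF.length hm)))
    (PF.pair hl (PF.pair hm (PF.const _)))
    (PF.pair (PF.tail (PF.fst' hs)) (PF.pair (PF.tail (PF.fst' (PF.snd' hs)))
      (PF.pair (PF.or (PF.and h1 h2) (PF.and h3 (PF.or h1 h2)))
        (PF.cons (PF.ite h1 (PF.ite h2 h3 (PF.not h3)) (PF.ite h2 (PF.not h3) h3))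
          (PF.snd' (PF.snd' (PF.snd' hs)))))))
    (PB.const 10) (PB.const 0) (by
      intro a st
      refine le_trans ?_ (le_max_left _ _)
      unfold addStep
      have e1 := sz_tail st.1
      have e2 := sz_tail st.2.1
      have e3 : ∀ b : Bool, sz b ≤ 3 := sz_bool
      have e4 := sz_pos st.2.2.1
      rw [sz_prod st, sz_prod st.2, sz_prod st.2.2, sz_pair, sz_pair, sz_pair, sz_cons]
      have e5 := e3 ((st.1.headD false && st.2.1.headD false) ||
        (st.2.2.1 && (st.1.headD false || st.2.1.headD false)))
      have e6 := e3 (if st.1.headD false then (if st.2.1.headD false then st.2.2.1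
        else !st.2.2.1) else (if st.2.1.headD false then !st.2.2.1 else st.2.2.1))
      omega)
  exact PF.reverse (PF.snd' (PF.snd' (PF.snd' h)))

theorem PF.mulB {n : α → ℕ} {l : α → List Bool} (hn : PF n) (hl : PF l) :
    PF (fun a => mulB (n a) (l a)) := by
  refine PF.iterate (n := n) (s := fun _ => []) (f := fun a s => H583R2.addB (l a) s) hn
    (PF.const []) (PF.addB (hl.comp PF.fst) PF.snd)
    (b := fun a => 4 * (sz (n a) * (sz (l a) + 1)) + 1)
    (((PB.const 4).mul (hn.size.mul (hl.size.add (PB.const 1)))).add (PB.const 1)) ?_
  intro a j hj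
  refine (sz_str_le _).trans ?_
  have h1 := (mulB_aux j (l a)).2
  unfold H583R2.mulB at h1
  rw [h1]
  have h2 : j * ((l a).length + 1) ≤ sz (n a) * (sz (l a) + 1) := by
    refine Nat.mul_le_mul ?_ ?_
    · rw [sz_nat]; omega
    · have := len_le_sz (l a); omega
  omega

theorem PF.leB {l m : α → List Bool} (hl : PF l) (hm : PF m) : PF (fun a => leB (l a) (m a)) := by
  have hs : PF (fun p : α × (List Bool × List Bool × Bool) => p.2) := PF.snd
  have h1 := PF.headF (PF.fst' hs)
  have h2 := PF.headF (PF.fst' (PF.snd' hs))
  have h3 := PF.snd' (PF.snd' hs)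
  have h := PF.iterateAdd (n := fun a => (l a).length + (m a).length)
    (s := fun a => (l a, m a, true)) (f := fun _ s => leStep s)
    (PF.add (PF.length hl) (PF.length hm))
    (PF.pair hl (PF.pair hm (PF.const _)))
    (PF.pair (PF.tail (PF.fst' hs)) (PF.pair (PF.tail (PF.fst' (PF.snd' hs)))
      (PF.ite (PF.beqBool h1 h2) h3 h2)))
    (PB.const 3) (PB.const 0) (by
      intro a st
      refine le_trans ?_ (le_max_left _ _)
      unfold leStep
      have e1 := sz_tail st.1
      have e2 := sz_tail st.2.1
      have e3 : ∀ b : Bool, sz b ≤ 3 := sz_bool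
      rw [sz_prod st, sz_prod st.2, sz_pair, sz_pair]
      have e6 := e3 (if st.1.headD false == st.2.1.headD false then st.2.2
        else st.2.1.headD false)
      omega)
  exact PF.snd' (PF.snd' h)

theorem PF.advB {o : α → List Bool} (ho : PF o) : PF (fun a => advB (o a)) :=
  PF.leB (PF.snd' (PF.spl ho)) (PF.cons (PF.const false) (PF.fst' (PF.spl ho)))

theorem PF.lowB {n : α → ℕ} {o : α → List Bool} (hn : PF n) (ho : PF o) :
    PF (fun a => lowB (n a) (o a)) :=
  PF.and (PF.leB (PF.mulB hn (PF.cons (PF.const false) (PF.fst' (PF.spl ho))))
    (PF.mulB hn.succ (PF.snd' (PF.spl ho))))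
    (PF.leB (PF.mulB hn.pred (PF.snd' (PF.spl ho)))
      (PF.mulB hn (PF.cons (PF.const false) (PF.fst' (PF.spl ho)))))

end

end Pool.Agent.H583R2
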