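import Pool.Agent.H583R2.Strat

/-!
Capped versions of the construction, computable in time polynomial in the cap.
-/

namespace Pool.Agent.H583R2

open Computability

/-! ### capped arithmetic -/

theorem min_two_mul (v N : ℕ) : min (2 * min v N) N = min (2 * v) N := by
  rcases le_total v N with h | h
  · rw [min_eq_left h]
  · rw [min_eq_right h, min_eq_right (by omega), min_eq_right (by omega)]

theorem cexp_iter (b N : ℕ) : (fun v => min (2 * v) N)^[b] (min 1 N) = min (2 ^ b) N := by
  induction b with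
  | zero => rfl
  | succ b ih => rw [Function.iterate_succ_apply', ih, min_two_mul, pow_succ, mul_comm]

theorem min_mul (v n N : ℕ) : min (min v N * n) N = min (v * n) N := by
  rcases Nat.eq_zero_or_pos n with h0 | h0
  · subst h0; simp
  · rcases le_total v N with h | h
    · rw [min_eq_left h]
    · have h1 : N ≤ N * n := Nat.le_mul_of_pos_right _ h0
      have h2 : N * n ≤ v * n := Nat.mul_le_mul_right _ h
      rw [min_eq_right h, min_eq_right h1, min_eq_right (h1.trans h2)]

theorem cpow_iter (n k N : ℕ) : (fun v => min (v * n) N)^[k] (min 1 N) = min (n ^ k) N := by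
  induction k with
  | zero => rfl
  | succ k ih => rw [Function.iterate_succ_apply', ih, min_mul, pow_succ]

theorem min_exp_min (a N : ℕ) : min (2 ^ (min a N)) N = min (2 ^ a) N := by
  rcases le_total a N with h | h
  · rw [min_eq_left h]
  · have h1 := (Nat.lt_two_pow_self (n := N)).le
    have h2 : 2 ^ N ≤ 2 ^ a := Nat.pow_le_pow_right (by norm_num) h
    rw [min_eq_right h, min_eq_right h1, min_eq_right (h1.trans h2)]

theorem blk_iter (s j : ℕ) :
    (fun l => if decide (min (2 ^ (l + 1)) (s + 2) ≤ s + 1) then l + 1 else l)^[j] 0 =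
      min j (blk s) := by
  induction j with
  | zero => simp
  | succ j ih =>
    rw [Function.iterate_succ_apply', ih]
    have h1 : 2 ^ (min j (blk s) + 1) ≤ s + 1 ↔ min j (blk s) + 1 ≤ blk s := by
      unfold blk
      exact (Nat.le_log_iff_pow_le (by norm_num) (by omega)).symm
    have h2 : min (2 ^ (min j (blk s) + 1)) (s + 2) ≤ s + 1 ↔
        2 ^ (min j (blk s) + 1) ≤ s + 1 := by
      rw [min_le_iff]
      constructor
      · rintro (h | h)
        · exact h
        · omega
      · exact Or.inl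
    simp only [h2, h1]
    by_cases h3 : j < blk s
    · rw [min_eq_left h3.le, min_eq_left (by omega)]
      simp [show j + 1 ≤ blk s from h3]
    · rw [min_eq_right (by omega), min_eq_right (by omega)]
      simp

/-! ### capped construction -/

def bvC (N : ℕ) (e : ℕ) (y : List Bool) : Bool := bvF e y (min (2 ^ ((e + 1) * (y.length + 1))) N)

def capC (s n N : ℕ) : ℕ := min (2 ^ (n ^ (ka (blk s) + 1))) N
def thC (s n N : ℕ) : ℕ := min (n ^ (ka (blk s) + 2)) N

def stN (N s n : ℕ) (H : List Rec) : Rec :=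
  stageF (bvC N) (blk s) n (min (2 ^ n) N) (capC s n N) (thC s n N) H

def advN (N : ℕ) (st : ℕ × ℕ × List Rec) : ℕ × ℕ × List Rec :=
  if decide (min (2 ^ (min (2 ^ st.2.1) (N + 1))) (N + 1) ≤ N) then
    (st.1 + 1, min (2 ^ (min (2 ^ st.2.1) (N + 1))) (N + 1), st.2.2 ++ [stN N st.1 st.2.1 st.2.2])
  else st

def iterN (N j : ℕ) : ℕ × ℕ × List Rec := (advN N)^[j] (0, 65536, [])

def finN (N : ℕ) (st : ℕ × ℕ × List Rec) : List Rec :=
  if decide (capC st.1 st.2.1 (N + 1) ≤ N) &&
    (rC (stN N st.1 st.2.1 st.2.2) ||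
      decide (min (2 ^ (2 * thC st.1 st.2.1 N + 1)) (N + 1) ≤ N)) then
    st.2.2 ++ [stN N st.1 st.2.1 st.2.2]
  else st.2.2

/-- the part of the history visible with resources `N` -/
def infoN (N : ℕ) : List Rec := finN N (iterN N N)

theorem bvC_eq {N e : ℕ} {y : List Bool} (h : 2 ^ ((e + 1) * (y.length + 1)) ≤ N) :
    bvC N e y = Bv e y := by
  unfold bvC Bv
  rw [min_eq_left h]

theorem min_le_iff' (a N : ℕ) : min a (N + 1) ≤ N ↔ a ≤ N := by omega

theorem th_le_cap (s : ℕ) : th s ≤ cap s := by
  have h1 := expo_mul_le s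
  have h2 := nn_le_pow s (ka (blk s))
  have h3 := lt_nn s
  rw [← h1]
  unfold cap
  calc nn s ^ (ka (blk s) + 1) * nn s ≤ nn s ^ (ka (blk s) + 1) * nn s ^ (ka (blk s) + 1) :=
        Nat.mul_le_mul_left _ h2
    _ ≤ _ := sq_le_two_pow _ (by omega)

theorem hist_rec {s : ℕ} {x : Rec} (h : x ∈ hist s) : ∃ s', s' < s ∧ x = recS s' := by
  rw [hist_eq] at h
  obtain ⟨s', h1, rfl⟩ := List.mem_map.1 h
  exact ⟨s', List.mem_range.1 h1, rfl⟩

/-- exactness of the bounded machine languages on the earlier records -/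
theorem bvC_hist {N s : ℕ} (hN : 2 ^ nn s ≤ N) {x : Rec} (h : x ∈ hist s) (hc : rC x = true) :
    bvC N (dE (rZ x)) (dY (rZ x)) = Bv (dE (rZ x)) (dY (rZ x)) := by
  obtain ⟨s', h1, rfl⟩ := hist_rec h
  refine bvC_eq ?_
  have h2 := y_upper hc
  have h3 := nn_le_of_lt h1
  exact (Nat.pow_le_pow_right (by norm_num) (h2.trans h3)).trans hN

theorem actF_congr {bv : ℕ → List Bool → Bool} {r : ℕ} {z : List Bool} {H : List Rec}
    (h : ∀ x ∈ H, rC x = true → bv (dE (rZ x)) (dY (rZ x)) = Bv (dE (rZ x)) (dY (rZ x))) :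
    actF bv r z H = actF Bv r z H := by
  unfold actF
  have : (prior r (dE z) H).all (fun x => bv (dE z) (dY (rZ x)) == rB x) =
      (prior r (dE z) H).all (fun x => Bv (dE z) (dY (rZ x)) == rB x) := by
    have key : ∀ x ∈ prior r (dE z) H, bv (dE z) (dY (rZ x)) = Bv (dE z) (dY (rZ x)) := by
      intro x hx
      unfold prior at hx
      rw [List.mem_filter] at hx
      obtain ⟨h1, h2⟩ := hx
      simp only [Bool.and_eq_true, decide_eq_true_eq] at h2
      have := h x h1 h2.1
      rwa [h2.2.2] at this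
    rw [Bool.eq_iff_iff, List.all_eq_true, List.all_eq_true]
    constructor
    · intro h1 x hx; rw [← key x hx]; exact h1 x hx
    · intro h1 x hx; rw [key x hx]; exact h1 x hx
  rw [this]

theorem stage2_eq {N s p : ℕ} (hN : 2 ^ nn s ≤ N) :
    stage2 (bvC N) (blk s) (cap s) (hist s) p = stage2 Bv (blk s) (cap s) (hist s) p := by
  unfold stage2
  rw [actF_congr (fun x hx hc => bvC_hist hN hx hc)]

theorem stage1_eq {N s : ℕ} (hN : 2 ^ (2 * th s + 1) ≤ N)
    (hs : srch (blk s) (2 ^ nn s) (cap s) (th s) = none) :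
    stage1 (bvC N) (blk s) (nn s) (2 ^ nn s) (cap s) (hist s) =
      stage1 Bv (blk s) (nn s) (2 ^ nn s) (cap s) (hist s) := by
  unfold stage1
  have h1 := exPos_mem (blk s) (nn s) (2 ^ nn s) (cap s) (hist s) Nat.one_le_two_pow
  set p := exPos (blk s) (nn s) (2 ^ nn s) (cap s) (hist s) with hp
  have h2 : (gv (mR (blk s)).2 (str p) (cap s)).length < th s := by
    unfold srch at hs
    have := List.find?_eq_none.1 hs p h1
    simpa using this
  have h3 : Av (bvC N) (hist s) (gv (mR (blk s)).2 (str p) (cap s)) =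
      Av Bv (hist s) (gv (mR (blk s)).2 (str p) (cap s)) := by
    unfold Av
    rw [bvC_eq]
    have h4 := dd_le_length (gv (mR (blk s)).2 (str p) (cap s))
    exact (Nat.pow_le_pow_right (by norm_num) (by omega)).trans hN
  rw [h3]

theorem stN_case2 {N s p : ℕ} (hN : cap s ≤ N)
    (hs : srch (blk s) (2 ^ nn s) (cap s) (th s) = some p) :
    stN N s (nn s) (hist s) = recS s := by
  have h1 := two_pow_nn_le_cap s
  have h2 := th_le_cap s
  have e1 : min (2 ^ nn s) N = 2 ^ nn s := min_eq_left (h1.trans hN)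
  have e2 : capC s (nn s) N = cap s := min_eq_left hN
  have e3 : thC s (nn s) N = th s := min_eq_left (h2.trans hN)
  unfold stN stageF
  rw [e1, e2, e3, hs, recS_case2 hs]
  exact stage2_eq (h1.trans hN)

theorem stN_case1 {N s : ℕ} (hN : cap s ≤ N) (hN2 : 2 ^ (2 * th s + 1) ≤ N)
    (hs : srch (blk s) (2 ^ nn s) (cap s) (th s) = none) :
    stN N s (nn s) (hist s) = recS s := by
  have h1 := two_pow_nn_le_cap s
  have h2 := th_le_cap s
  have e1 : min (2 ^ nn s) N = 2 ^ nn s := min_eq_left (h1.trans hN)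
  have e2 : capC s (nn s) N = cap s := min_eq_left hN
  have e3 : thC s (nn s) N = th s := min_eq_left (h2.trans hN)
  unfold stN stageF
  rw [e1, e2, e3, hs, recS_case1 hs]
  exact stage1_eq hN2 hs

theorem rC_stage1 (bv : ℕ → List Bool → Bool) (r n M f : ℕ) (H : List Rec) :
    rC (stage1 bv r n M f H) = false := rfl

theorem rC_stN {N s : ℕ} (hN : cap s ≤ N) : rC (stN N s (nn s) (hist s)) = rC (recS s) := by
  rcases hs : srch (blk s) (2 ^ nn s) (cap s) (th s) with _ | p
  · have h1 := two_pow_nn_le_cap s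
    have h2 := th_le_cap s
    have e1 : min (2 ^ nn s) N = 2 ^ nn s := min_eq_left (h1.trans hN)
    have e2 : capC s (nn s) N = cap s := min_eq_left hN
    have e3 : thC s (nn s) N = th s := min_eq_left (h2.trans hN)
    rw [recS_case1 hs]
    unfold stN stageF
    rw [e1, e2, e3, hs]
    simp only [rC_stage1]
  · rw [stN_case2 hN hs]

theorem stN_small {N s : ℕ} (hN : nn (s + 1) ≤ N) : stN N s (nn s) (hist s) = recS s := by
  have h1 := loc_lt s
  have h2 := master s
  rcases hs : srch (blk s) (2 ^ nn s) (cap s) (th s) with _ | p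
  · exact stN_case1 (by omega) (h2.trans hN) hs
  · exact stN_case2 (by omega) hs

theorem cap_ge_two_pow (s : ℕ) : nn s < cap s := nn_lt_cap s

theorem iterN_spec (N j : ℕ) : ∃ σ, σ ≤ j ∧ iterN N j = (σ, nn σ, hist σ) ∧
    (σ = j ∨ N < nn (σ + 1)) ∧ (σ = 0 ∨ nn σ ≤ N) := by
  induction j with
  | zero => exact ⟨0, le_refl _, rfl, Or.inl rfl, Or.inl rfl⟩
  | succ j ih =>
    obtain ⟨σ, h1, h2, h3, h4⟩ := ih
    have e : iterN N (j + 1) = advN N (iterN N j) := by
      unfold iterN
      rw [Function.iterate_succ_apply']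
    rw [e, h2]
    have hnn : min (2 ^ (min (2 ^ nn σ) (N + 1))) (N + 1) = min (nn (σ + 1)) (N + 1) := by
      rw [min_exp_min]
      rfl
    unfold advN
    simp only [hnn, min_le_iff']
    by_cases h5 : nn (σ + 1) ≤ N
    · refine ⟨σ + 1, by omega, ?_, ?_, Or.inr h5⟩
      · simp only [h5, decide_true, if_true]
        rw [min_eq_left (by omega), stN_small h5]
        rfl
      · left
        rcases h3 with h3 | h3 <;> omega
    · refine ⟨σ, by omega, ?_, Or.inr (by omega), h4⟩
      simp [h5]

theorem info_spec (N : ℕ) : ∃ S, infoN N = hist S ∧ ∀ s, S ≤ s →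
    N < cap s ∨ (rC (recS s) = false ∧ N < 2 ^ (2 * th s + 1)) := by
  obtain ⟨σ, h1, h2, h3, h4⟩ := iterN_spec N N
  have h5 : N < nn (σ + 1) := by
    rcases h3 with h3 | h3
    · subst h3
      have := lt_nn (σ + 1)
      omega
    · exact h3
  have hbig : ∀ s, σ < s → N < cap s := by
    intro s hs
    have h6 := nn_le_of_lt hs
    have h7 := nn_lt_cap s
    omega
  unfold infoN
  rw [h2]
  unfold finN
  have e0 : capC σ (nn σ) (N + 1) = min (cap σ) (N + 1) := rfl
  simp only [e0, min_le_iff']
  by_cases hc : cap σ ≤ N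
  · have e3 : thC σ (nn σ) N = th σ := min_eq_left ((th_le_cap σ).trans hc)
    rw [rC_stN hc, e3]
    by_cases hr : rC (recS σ) = true
    · refine ⟨σ + 1, ?_, fun s hs => Or.inl (hbig s (by omega))⟩
      obtain ⟨p, hp⟩ := (rC_recS σ).1 hr
      simp only [hc, hr, decide_true, Bool.true_or, Bool.and_self, if_true]
      rw [stN_case2 hc hp]
      rfl
    · have hr' : rC (recS σ) = false := by rwa [Bool.not_eq_true] at hr
      by_cases ht : 2 ^ (2 * th σ + 1) ≤ N
      · refine ⟨σ + 1, ?_, fun s hs => Or.inl (hbig s (by omega))⟩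
        have hs1 : srch (blk σ) (2 ^ nn σ) (cap σ) (th σ) = none := by
          rcases hh : srch (blk σ) (2 ^ nn σ) (cap σ) (th σ) with _ | p'
          · rfl
          · exact absurd ((rC_recS σ).2 ⟨p', hh⟩) hr
        simp only [hc, hr', ht, decide_true, Bool.or_true, Bool.and_self, if_true]
        rw [stN_case1 hc ht hs1]
        rfl
      · refine ⟨σ, ?_, ?_⟩
        · simp only [hr', ht, decide_false, Bool.or_false, Bool.and_false]
          rfl
        · intro s hs
          rcases Nat.eq_or_lt_of_le hs with h | h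
          · subst h
            exact Or.inr ⟨hr', by omega⟩
          · exact Or.inl (hbig s h)
  · refine ⟨σ, ?_, ?_⟩
    · simp only [hc, decide_false, Bool.false_and]
      rfl
    · intro s hs
      rcases Nat.eq_or_lt_of_le hs with h | h
      · subst h
        exact Or.inl (by omega)
      · exact Or.inl (hbig s h)

/-! ### the three bounded computations -/

/-- `AA` -/
def avN (N : ℕ) (z : List Bool) : Bool := Av (bvC N) (infoN N) z

theorem avN_eq {N : ℕ} {z : List Bool} (hN : 2 ^ (2 * z.length + 3) ≤ N) : avN N z = AA z := by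
  obtain ⟨S, h1, h2⟩ := info_spec N
  unfold avN
  rw [h1]
  have hb : bvC N (dE z) (dY z) = Bv (dE z) (dY z) := by
    refine bvC_eq ?_
    have h4 := dd_le_length z
    exact (Nat.pow_le_pow_right (by norm_num) (by omega)).trans hN
  have e : Av (bvC N) (hist S) z = Av Bv (hist S) z := by
    unfold Av
    rw [hb]
  rw [e]
  refine Av_hist ?_
  intro s hs hm
  rcases h2 s hs with h3 | ⟨h3, _⟩
  · have h4 := (loc_bounds hm.1).1
    rw [hm.2.2] at h4
    have h5 := expo_mul_le s
    have h6 := lt_nn s
    have h7 : nn s ^ (ka (blk s) + 1) ≤ nn s ^ (ka (blk s) + 1) * nn s :=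
      Nat.le_mul_of_pos_right _ (by omega)
    have h8 : cap s ≤ 2 ^ (2 * z.length + 3) := by
      unfold cap
      exact Nat.pow_le_pow_right (by norm_num) (by omega)
    omega
  · rw [hm.1] at h3
    exact absurd h3 (by decide)

theorem dFH_info (w : List Bool) : dFH (infoN w.length) w = dF w := by
  obtain ⟨S, h1, h2⟩ := info_spec w.length
  rw [h1]
  refine dFH_eq ?_
  intro s hr hq
  by_contra hc
  have h3 := cap_le_qq hr
  rcases h2 s (by omega) with h4 | ⟨h4, _⟩
  · omega
  · rw [hr.1] at h4
    exact absurd h4 (by decide)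

/-- the adversarial language -/
def rrN (k N : ℕ) (x : List Bool) : Bool :=
  nextB (mD k).1 (exs k (infoN N)) N (play (mD k).1 (exs k (infoN N)) N (min (idx x) N))

theorem rrN_eq {k : ℕ} {F : List Bool → ℕ × ℕ} (hF : GoodD (mD k).1 (mD k).2 F)
    {N : ℕ} {x : List Bool} (hN : N = 2 ^ ((x.length + 2) ^ ((mD k).2 + 3))) :
    rrN k N x = RR F k x := by
  have hidx := idx_lt x
  have hpow : x.length + 2 ≤ (x.length + 2) ^ ((mD k).2 + 3) := by
    calc x.length + 2 = (x.length + 2) ^ 1 := (pow_one _).symm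
      _ ≤ _ := Nat.pow_le_pow_right (by omega) (by omega)
  have hN2 : 2 ^ (x.length + 2) ≤ N := by
    rw [hN]; exact Nat.pow_le_pow_right (by norm_num) hpow
  have hidx2 : idx x ≤ N := by
    have : 2 ^ (x.length + 1) ≤ 2 ^ (x.length + 2) :=
      Nat.pow_le_pow_right (by norm_num) (by omega)
    omega
  unfold rrN
  rw [min_eq_left hidx2]
  have h := next_eq (F := F) (k := k) (c := (mD k).1) (ex := exs k (infoN N)) (f := N) (idx x)
    (by
      intro w hw
      refine hF (x.length + 2) (by omega) w ?_ N ?_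
      · have : 2 ^ (x.length + 1) ≤ 2 ^ (x.length + 2 + 1) :=
          Nat.pow_le_pow_right (by norm_num) (by omega)
        omega
      · rw [hN]
        exact Nat.pow_le_pow_right (by norm_num) (Nat.pow_le_pow_right (by omega) (by omega)))
    (by
      intro p hp
      obtain ⟨S, h1, h2⟩ := info_spec N
      rw [h1]
      refine look_eq ?_
      intro s b hs he
      have hb := he.bounds
      have h3 : nn s ≤ x.length := by
        by_contra hc
        have : 2 ^ (x.length + 1) ≤ 2 ^ nn s :=
          Nat.pow_le_pow_right (by norm_num) (by omega)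
        omega
      have hk : ka (blk s) = (mD k).2 := by unfold ka; rw [he.2.1]
      have hn := lt_nn s
      rcases h2 s hs with h4 | ⟨_, h4⟩
      · have h5 : cap s ≤ N := by
          rw [hN]
          unfold cap
          rw [hk]
          refine Nat.pow_le_pow_right (by norm_num) ?_
          calc nn s ^ ((mD k).2 + 1) ≤ (x.length + 2) ^ ((mD k).2 + 1) :=
                Nat.pow_le_pow_left (by omega) _
            _ ≤ _ := Nat.pow_le_pow_right (by omega) (by omega)
        omega
      · have h5 : 2 ^ (2 * th s + 1) ≤ N := by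
          rw [hN]
          unfold th
          rw [hk]
          refine Nat.pow_le_pow_right (by norm_num) ?_
          have h6 : nn s ^ ((mD k).2 + 2) ≤ x.length ^ ((mD k).2 + 2) :=
            Nat.pow_le_pow_left h3 _
          have h7 : 1 ≤ x.length ^ ((mD k).2 + 2) := Nat.one_le_pow _ _ (by omega)
          have h8 : x.length ^ ((mD k).2 + 2) ≤ (x.length + 2) ^ ((mD k).2 + 2) :=
            Nat.pow_le_pow_left (by omega) _
          have h9 : (x.length + 2) ^ ((mD k).2 + 2) * 3 ≤ (x.length + 2) ^ ((mD k).2 + 3) := by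
            rw [pow_succ (x.length + 2) ((mD k).2 + 2)]
            exact Nat.mul_le_mul_left _ (by omega)
          omega
        omega)
  rw [h, str_idx]

end Pool.Agent.H583R2
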