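import Pool.Agent.H583R2.Bin

/-!
The construction: stages, records, the set `AA`.
-/

namespace Pool.Agent.H583R2

/-- record of a stage: (case 2?, block, location, position, bit, act?) -/
abbrev Rec := Bool × ℕ × List Bool × ℕ × Bool × Bool

def rC (x : Rec) : Bool := x.1
def rR (x : Rec) : ℕ := x.2.1
def rZ (x : Rec) : List Bool := x.2.2.1
def rP (x : Rec) : ℕ := x.2.2.2.1
def rB (x : Rec) : Bool := x.2.2.2.2.1
def rA (x : Rec) : Bool := x.2.2.2.2.2

def bvF (e : ℕ) (y : List Bool) (f : ℕ) : Bool := (U (mE e) y f).getD [] == [true]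

/-- the `e`-th language of linear-exponential time -/
def Bv (e : ℕ) (y : List Bool) : Bool := bvF e y (2 ^ ((e + 1) * (y.length + 1)))

def gv (c : Code) (x : List Bool) (f : ℕ) : List Bool := (U c x f).getD []

def lookE (ex : List (ℕ × Bool)) (n : ℕ) : Option Bool :=
  (ex.find? (fun p => decide (p.1 = n))).map (fun p => p.2)

def nextB (c : Code) (ex : List (ℕ × Bool)) (f : ℕ) (w : List Bool) : Bool :=
  (lookE ex w.length).getD (advB (gv c w f))

def play (c : Code) (ex : List (ℕ × Bool)) (f : ℕ) (L : ℕ) : List Bool :=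
  (fun w => w ++ [nextB c ex f w])^[L] []

def exs (k : ℕ) (H : List Rec) : List (ℕ × Bool) :=
  (H.filter (fun x => !rC x && decide ((mR (rR x)).1 = k))).map (fun x => (rP x, rB x))

def posM (M : ℕ) : List ℕ := (List.range M).map (fun j => j + (M - 1))

def srch (r M f t : ℕ) : Option ℕ :=
  (posM M).find? (fun p => decide (t ≤ (gv (mR r).2 (str p) f).length))

def prior (r e : ℕ) (H : List Rec) : List Rec :=
  H.filter (fun x => rC x && (decide (rR x = r) && decide (dE (rZ x) = e)))

def actF (bv : ℕ → List Bool → Bool) (r : ℕ) (z : List Bool) (H : List Rec) : Bool :=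
  decide (r < dE z) || (decide (3 * r ≤ (prior r (dE z) H).length) &&
    (prior r (dE z) H).all (fun x => bv (dE z) (dY (rZ x)) == rB x))

def Av (bv : ℕ → List Bool → Bool) (H : List Rec) (z : List Bool) : Bool :=
  ((H.find? (fun x => rC x && (rA x && (rZ x == z)))).map (fun x => !rB x)).getD
    (bv (dE z) (dY z))

/-- code of the betting strategy attacked by block `r` -/
def cD (r : ℕ) : Code := (mD (mR r).1).1

def stage2 (bv : ℕ → List Bool → Bool) (r f : ℕ) (H : List Rec) (p : ℕ) : Rec :=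
  (true, r, gv (mR r).2 (str p) f, p,
    nextB (cD r) (exs (mR r).1 H) f (play (cD r) (exs (mR r).1 H) f p),
    actF bv r (gv (mR r).2 (str p) f) H)

def exPos (r n M f : ℕ) (H : List Rec) : ℕ :=
  ((posM M).find? (fun p => lowB n (gv (cD r) (play (cD r) (exs (mR r).1 H) f p) f))).getD
    (2 * M - 2)

def stage1 (bv : ℕ → List Bool → Bool) (r n M f : ℕ) (H : List Rec) : Rec :=
  (false, r, [], exPos r n M f H,
    !(Av bv H (gv (mR r).2 (str (exPos r n M f H)) f)), false)

def stageF (bv : ℕ → List Bool → Bool) (r n M f t : ℕ) (H : List Rec) : Rec :=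
  match srch r M f t with
  | some p => stage2 bv r f H p
  | none => stage1 bv r n M f H

/-! parameters of the stages -/

def blk (s : ℕ) : ℕ := Nat.log 2 (s + 1)

def nn : ℕ → ℕ
  | 0 => 2 ^ 16
  | s + 1 => 2 ^ (2 ^ nn s)

/-- exponent attached to a block -/
def ka (r : ℕ) : ℕ := (mD (mR r).1).2

def cap (s : ℕ) : ℕ := 2 ^ (nn s ^ (ka (blk s) + 1))
def th (s : ℕ) : ℕ := nn s ^ (ka (blk s) + 2)

def hist : ℕ → List Rec
  | 0 => []
  | s + 1 => hist s ++ [stageF Bv (blk s) (nn s) (2 ^ nn s) (cap s) (th s) (hist s)]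

def recS (s : ℕ) : Rec := stageF Bv (blk s) (nn s) (2 ^ nn s) (cap s) (th s) (hist s)

/-- the set constructed -/
def AA (z : List Bool) : Bool := Av Bv (hist z.length) z

theorem hist_eq (s : ℕ) : hist s = (List.range s).map recS := by
  induction s with
  | zero => rfl
  | succ s ih =>
    rw [List.range_succ, List.map_append, ← ih]
    rfl

/-! growth -/

theorem blk_le (s : ℕ) : blk s ≤ s := by
  have h : 2 ^ blk s ≤ s + 1 := Nat.pow_log_le_self 2 (by omega)
  have := Nat.lt_two_pow_self (n := blk s)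
  omega

theorem ka_le (s : ℕ) : ka (blk s) ≤ s + 2 := by
  have h1 := blk_le s
  have h2 := mR_le (blk s)
  have h3 := mD_le (mR (blk s)).1
  change (mD (mR (blk s)).1).2 ≤ _
  omega

theorem exists_mm (s : ℕ) : ∃ m, nn s = 2 ^ m ∧ s + 16 ≤ m := by
  induction s with
  | zero => exact ⟨16, rfl, le_refl _⟩
  | succ s ih =>
    obtain ⟨m, h1, h2⟩ := ih
    refine ⟨2 ^ nn s, rfl, ?_⟩
    rw [h1]
    have h3 := Nat.lt_two_pow_self (n := m)
    have h4 := Nat.lt_two_pow_self (n := 2 ^ m)
    omega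

theorem sq_le_two_pow (m : ℕ) (h : 4 ≤ m) : m * m ≤ 2 ^ m := by
  induction m, h using Nat.le_induction with
  | base => norm_num
  | succ m hm ih => rw [pow_succ]; nlinarith

theorem th_lt (s : ℕ) : 2 * th s + 1 ≤ 2 ^ nn s := by
  obtain ⟨m, h1, h2⟩ := exists_mm s
  have h3 := ka_le s
  have h4 : th s ≤ 2 ^ (m * (s + 4)) := by
    unfold th
    rw [h1, ← pow_mul]
    exact Nat.pow_le_pow_right (by norm_num) (Nat.mul_le_mul_left _ (by omega))
  have h5 : m * (s + 4) + 2 ≤ m * m := by
    have : m * (s + 5) ≤ m * m := Nat.mul_le_mul_left _ (by omega)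
    rw [Nat.mul_add] at this ⊢
    omega
  have h6 := sq_le_two_pow m (by omega)
  have h7 : 2 ^ (m * (s + 4) + 2) ≤ 2 ^ nn s := by
    rw [h1]
    exact Nat.pow_le_pow_right (by norm_num) (by omega)
  rw [pow_add] at h7
  have h8 : 1 ≤ 2 ^ (m * (s + 4)) := Nat.one_le_two_pow
  omega

/-- master growth inequality -/
theorem master (s : ℕ) : 2 ^ (2 * th s + 1) ≤ nn (s + 1) :=
  Nat.pow_le_pow_right (by norm_num) (th_lt s)

theorem two_pow_le_nn (s : ℕ) : 2 ^ (s + 16) ≤ nn s := by
  obtain ⟨m, h1, h2⟩ := exists_mm s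
  rw [h1]
  exact Nat.pow_le_pow_right (by norm_num) h2

theorem lt_nn (s : ℕ) : s + 16 < nn s := by
  have := two_pow_le_nn s
  have := Nat.lt_two_pow_self (n := s + 16)
  omega

theorem nn_le_pow (s j : ℕ) : nn s ≤ nn s ^ (j + 1) := by
  have h := lt_nn s
  calc nn s = nn s ^ 1 := (pow_one _).symm
    _ ≤ nn s ^ (j + 1) := Nat.pow_le_pow_right (by omega) (by omega)

theorem two_pow_nn_le_cap (s : ℕ) : 2 ^ nn s ≤ cap s :=
  Nat.pow_le_pow_right (by norm_num) (nn_le_pow s _)

theorem nn_lt_cap (s : ℕ) : nn s < cap s :=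
  lt_of_lt_of_le Nat.lt_two_pow_self (two_pow_nn_le_cap s)

theorem nn_le_th (s : ℕ) : nn s ≤ th s := nn_le_pow s _

/-- the exponent of the cap is much smaller than the threshold -/
theorem expo_mul_le (s : ℕ) : nn s ^ (ka (blk s) + 1) * nn s = th s := by
  unfold th
  rw [pow_succ (nn s) (ka (blk s) + 1)]

theorem loc_lt (s : ℕ) : 2 * (nn s + cap s) + 1 ≤ nn (s + 1) := by
  have h1 := master s
  have h2 := nn_lt_cap s
  have h3 : 2 ^ 3 * cap s ≤ 2 ^ (2 * th s + 1) := by
    unfold cap
    rw [← pow_add]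
    refine Nat.pow_le_pow_right (by norm_num) ?_
    have h4 := expo_mul_le s
    have h5 := lt_nn s
    have h6 : nn s ^ (ka (blk s) + 1) * 2 ≤ nn s ^ (ka (blk s) + 1) * nn s :=
      Nat.mul_le_mul_left _ (by omega)
    have h7 := nn_le_pow s (ka (blk s))
    omega
  omega

theorem nn_lt_succ (s : ℕ) : nn s < nn (s + 1) := by
  have := loc_lt s; omega

theorem nn_strictMono : StrictMono nn := strictMono_nat_of_lt_succ nn_lt_succ

theorem nn_le_of_lt {s s' : ℕ} (h : s < s') : nn (s + 1) ≤ nn s' :=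
  nn_strictMono.monotone h

/-! the records -/

theorem mem_posM {M p : ℕ} : p ∈ posM M ↔ M - 1 ≤ p ∧ p < M + (M - 1) := by
  unfold posM
  rw [List.mem_map]
  constructor
  · rintro ⟨j, hj, rfl⟩
    have := List.mem_range.1 hj
    omega
  · rintro ⟨h1, h2⟩
    exact ⟨p - (M - 1), List.mem_range.2 (by omega), by omega⟩

theorem length_str_posM {n p : ℕ} (h : p ∈ posM (2 ^ n)) : (str p).length = n := by
  rw [mem_posM] at h
  have h1 : 1 ≤ 2 ^ n := Nat.one_le_two_pow
  refine length_str_eq (by omega) ?_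
  rw [pow_succ]; omega

theorem recS_case2 {s p : ℕ} (h : srch (blk s) (2 ^ nn s) (cap s) (th s) = some p) :
    recS s = stage2 Bv (blk s) (cap s) (hist s) p := by
  unfold recS stageF
  rw [h]

theorem recS_case1 {s : ℕ} (h : srch (blk s) (2 ^ nn s) (cap s) (th s) = none) :
    recS s = stage1 Bv (blk s) (nn s) (2 ^ nn s) (cap s) (hist s) := by
  unfold recS stageF
  rw [h]

theorem rC_recS (s : ℕ) : rC (recS s) = true ↔
    ∃ p, srch (blk s) (2 ^ nn s) (cap s) (th s) = some p := by
  rcases h : srch (blk s) (2 ^ nn s) (cap s) (th s) with _ | p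
  · rw [recS_case1 h]; simp [stage1, rC]
  · rw [recS_case2 h]; simp [stage2, rC]

theorem rR_recS (s : ℕ) : rR (recS s) = blk s := by
  rcases h : srch (blk s) (2 ^ nn s) (cap s) (th s) with _ | p
  · rw [recS_case1 h]; rfl
  · rw [recS_case2 h]; rfl

theorem srch_mem {r M f t p : ℕ} (h : srch r M f t = some p) :
    p ∈ posM M ∧ t ≤ (gv (mR r).2 (str p) f).length := by
  unfold srch at h
  refine ⟨List.mem_of_find?_eq_some h, ?_⟩
  have := List.find?_some h
  simpa using this

theorem loc_bounds {s : ℕ} (h : rC (recS s) = true) :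
    th s ≤ (rZ (recS s)).length ∧ (rZ (recS s)).length ≤ nn s + cap s := by
  obtain ⟨p, hp⟩ := (rC_recS s).1 h
  rw [recS_case2 hp]
  obtain ⟨h1, h2⟩ := srch_mem hp
  refine ⟨h2, ?_⟩
  have h3 := U_length_le (mR (blk s)).2 (str p) (cap s)
  rw [length_str_posM h1] at h3
  exact h3

theorem loc_inj {s s' : ℕ} (h : rC (recS s) = true) (h' : rC (recS s') = true)
    (e : (rZ (recS s)).length = (rZ (recS s')).length) : s = s' := by
  have h1 := loc_bounds h
  have h2 := loc_bounds h'
  rcases lt_trichotomy s s' with hl | hl | hl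
  · exfalso
    have h3 := nn_le_of_lt hl
    have h4 := loc_lt s
    have h5 := nn_le_th s'
    omega
  · exact hl
  · exfalso
    have h3 := nn_le_of_lt hl
    have h4 := loc_lt s'
    have h5 := nn_le_th s
    omega

/-- `z` is modified at stage `s` -/
def Md (s : ℕ) (z : List Bool) : Prop :=
  rC (recS s) = true ∧ rA (recS s) = true ∧ rZ (recS s) = z

theorem Md.lt {s : ℕ} {z : List Bool} (h : Md s z) : s < z.length := by
  obtain ⟨h1, _, h3⟩ := h
  have h4 := (loc_bounds h1).1
  have h5 := nn_le_th s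
  have h6 := lt_nn s
  rw [h3] at h4
  omega

theorem Md.unique {s s' : ℕ} {z : List Bool} (h : Md s z) (h' : Md s' z) : s = s' :=
  loc_inj h.1 h'.1 (by rw [h.2.2, h'.2.2])

theorem Av_none {S : ℕ} {z : List Bool} (h : ∀ s < S, ¬ Md s z) (bv : ℕ → List Bool → Bool) :
    Av bv (hist S) z = bv (dE z) (dY z) := by
  unfold Av
  rw [List.find?_eq_none.2]
  · rfl
  · intro x hx
    rw [hist_eq] at hx
    obtain ⟨s, hs, rfl⟩ := List.mem_map.1 hx
    intro hc
    simp only [Bool.and_eq_true, beq_iff_eq] at hc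
    exact h s (List.mem_range.1 hs) ⟨hc.1, hc.2.1, hc.2.2⟩

theorem Av_some {S s : ℕ} {z : List Bool} (hs : s < S) (h : Md s z)
    (bv : ℕ → List Bool → Bool) : Av bv (hist S) z = !rB (recS s) := by
  unfold Av
  rcases hf : (hist S).find? (fun x => rC x && (rA x && (rZ x == z))) with _ | x
  · exfalso
    have := List.find?_eq_none.1 hf (recS s) (by
      rw [hist_eq]; exact List.mem_map.2 ⟨s, List.mem_range.2 hs, rfl⟩)
    apply this
    simp only [Bool.and_eq_true, beq_iff_eq]
    exact h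
  · have h1 := List.find?_some hf
    have h2 := List.mem_of_find?_eq_some hf
    rw [hist_eq] at h2
    obtain ⟨s', hs', rfl⟩ := List.mem_map.1 h2
    simp only [Bool.and_eq_true, beq_iff_eq] at h1
    have : s = s' := h.unique ⟨h1.1, h1.2.1, h1.2.2⟩
    subst this
    rfl

theorem AA_mod {s : ℕ} {z : List Bool} (h : Md s z) : AA z = !rB (recS s) :=
  Av_some h.lt h Bv

theorem AA_cod {z : List Bool} (h : ∀ s, ¬ Md s z) : AA z = Bv (dE z) (dY z) :=
  Av_none (fun s _ => h s) Bv

/-- `AA` is determined by the history as soon as the later stages are beyond `z` -/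
theorem Av_hist {S : ℕ} {z : List Bool} (h : ∀ s, S ≤ s → ¬ Md s z) :
    Av Bv (hist S) z = AA z := by
  by_cases hm : ∃ s, Md s z
  · obtain ⟨s, hs⟩ := hm
    rw [AA_mod hs]
    refine Av_some ?_ hs Bv
    by_contra hc
    exact h s (by omega) hs
  · push_neg at hm
    rw [AA_cod hm, Av_none (fun s _ => hm s) Bv]

end Pool.Agent.H583R2
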