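import Pool.Agent.H583R2.Cap

/-!
Polynomial-time computability of the capped construction.
-/

namespace Pool.Agent.H583R2

open Computability

section
variable {α β γ δ σ : Type} [TEnc α] [TEnc β] [TEnc γ] [TEnc δ] [TEnc σ]

theorem pf_cexp {b N : α → ℕ} (hb : PF b) (hN : PF N) : PF (fun a => min (2 ^ b a) (N a)) := by
  have h := PF.iterateAdd (n := b) (s := fun a => min 1 (N a))
    (f := fun a v => min (2 * v) (N a)) hb (PF.min (PF.const 1) hN)
    (PF.min (PF.mul (PF.const 2) PF.snd) (hN.comp PF.fst))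
    (inc := fun _ => 0) (bnd := fun a => sz (N a)) (PB.const 0) hN.size (by
      intro a st
      refine le_trans ?_ (le_max_right _ _)
      rw [sz_nat, sz_nat]; omega)
  exact h.congr (fun a => cexp_iter _ _)

theorem pf_cpow {n k N : α → ℕ} (hn : PF n) (hk : PF k) (hN : PF N) :
    PF (fun a => min (n a ^ k a) (N a)) := by
  have h := PF.iterateAdd (n := k) (s := fun a => min 1 (N a))
    (f := fun a v => min (v * n a) (N a)) hk (PF.min (PF.const 1) hN)
    (PF.min (PF.mul PF.snd (hn.comp PF.fst)) (hN.comp PF.fst))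
    (inc := fun _ => 0) (bnd := fun a => sz (N a)) (PB.const 0) hN.size (by
      intro a st
      refine le_trans ?_ (le_max_right _ _)
      rw [sz_nat, sz_nat]; omega)
  exact h.congr (fun a => cpow_iter _ _ _)

theorem pf_blk {s : α → ℕ} (hs : PF s) : PF (fun a => blk (s a)) := by
  have h := PF.iterateAdd (n := s) (s := fun _ => 0)
    (f := fun a l => if decide (min (2 ^ (l + 1)) (s a + 2) ≤ s a + 1) then l + 1 else l) hs
    (PF.const 0)
    (PF.ite (PF.le (pf_cexp PF.snd.succ ((hs.comp PF.fst).succ.succ)) (hs.comp PF.fst).succ)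
      PF.snd.succ PF.snd)
    (inc := fun _ => 2) (bnd := fun _ => 0) (PB.const 2) (PB.const 0) (by
      intro a st
      refine le_trans ?_ (le_max_left _ _)
      split
      · rw [sz_succ]; omega
      · omega)
  refine h.congr (fun a => ?_)
  rw [blk_iter]
  exact min_eq_right (blk_le _)

theorem pf_ka {r : α → ℕ} (hr : PF r) : PF (fun a => ka (r a)) :=
  PF.snd' (PF.mD (PF.fst' (PF.mR hr)))

theorem pf_gv {c : α → Code} {x : α → List Bool} {f : α → ℕ} (hc : PF c) (hx : PF x)
    (hf : PF f) : PF (fun a => gv (c a) (x a) (f a)) :=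
  PF.getD (PF.U.comp (hc.pair (hx.pair hf))) (PF.const [])

theorem pf_bvF {e : α → ℕ} {y : α → List Bool} {f : α → ℕ} (he : PF e) (hy : PF y)
    (hf : PF f) : PF (fun a => bvF (e a) (y a) (f a)) :=
  PF.beqStr (pf_gv (PF.mE he) hy hf) (PF.const [true])

theorem pf_bvC {N e : α → ℕ} {y : α → List Bool} (hN : PF N) (he : PF e) (hy : PF y) :
    PF (fun a => bvC (N a) (e a) (y a)) :=
  pf_bvF he hy (pf_cexp (PF.mul he.succ (PF.length hy).succ) hN)

theorem opt_map_match (o : Option β) (f : β → γ) :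
    (match o with | none => none | some x => some (f x)) = o.map f := by cases o <;> rfl

theorem pf_lookE {ex : α → List (ℕ × Bool)} {n : α → ℕ} (hex : PF ex) (hn : PF n) :
    PF (fun a => lookE (ex a) (n a)) := by
  have h := PF.find (l := ex) (f := fun a (p : ℕ × Bool) => decide (p.1 = n a)) hex
    (PF.natEq (PF.fst' PF.snd) (hn.comp PF.fst))
  refine (h.optCase (g := fun _ => (none : Option Bool)) (h := fun _ p => some p.2)
    (PF.const none) (PF.mkSome (PF.snd' PF.snd))).congr ?_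
  intro a
  exact opt_map_match _ _

theorem pf_nextB {c : α → Code} {ex : α → List (ℕ × Bool)} {f : α → ℕ} {w : α → List Bool}
    (hc : PF c) (hex : PF ex) (hf : PF f) (hw : PF w) :
    PF (fun a => nextB (c a) (ex a) (f a) (w a)) :=
  PF.getD (pf_lookE hex (PF.length hw)) (PF.advB (pf_gv hc hw hf))

theorem pf_play {c : α → Code} {ex : α → List (ℕ × Bool)} {f L : α → ℕ}
    (hc : PF c) (hex : PF ex) (hf : PF f) (hL : PF L) :
    PF (fun a => play (c a) (ex a) (f a) (L a)) := by
  refine PF.iterateAdd (n := L) (s := fun _ => ([] : List Bool))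
    (f := fun a w => w ++ [nextB (c a) (ex a) (f a) w]) hL (PF.const [])
    (PF.append PF.snd (PF.cons (pf_nextB (hc.comp PF.fst) (hex.comp PF.fst) (hf.comp PF.fst)
      PF.snd) (PF.const [])))
    (inc := fun _ => 4) (bnd := fun _ => 0) (PB.const 4) (PB.const 0) ?_
  intro a st
  refine le_trans ?_ (le_max_left _ _)
  have h1 := sz_append st [nextB (c a) (ex a) (f a) st]
  have h2 := sz_bool (nextB (c a) (ex a) (f a) st)
  rw [sz_cons, sz_nil] at h1
  omega

theorem pf_exs {k : α → ℕ} {H : α → List Rec} (hk : PF k) (hH : PF H) :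
    PF (fun a => exs (k a) (H a)) := by
  have h := PF.filter (l := H) (f := fun a x => !rC x && decide ((mR (rR x)).1 = k a)) hH
    (PF.and (PF.not (PF.fst' PF.snd))
      (PF.natEq (PF.fst' (PF.mR (PF.fst' (PF.snd' PF.snd)))) (hk.comp PF.fst)))
  exact PF.map (f := fun _ x => (rP x, rB x)) h
    (PF.pair (PF.fst' (PF.snd' (PF.snd' (PF.snd' PF.snd))))
      (PF.fst' (PF.snd' (PF.snd' (PF.snd' (PF.snd' PF.snd))))))

theorem pf_posM {M : α → ℕ} (hM : PF M) : PF (fun a => posM (M a)) :=
  PF.map (f := fun a j => j + (M a - 1)) (PF.range hM)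
    (PF.add PF.snd (PF.pred (hM.comp PF.fst)))

theorem pf_srch {r M f t : α → ℕ} (hr : PF r) (hM : PF M) (hf : PF f) (ht : PF t) :
    PF (fun a => srch (r a) (M a) (f a) (t a)) :=
  PF.find (l := fun a => posM (M a))
    (f := fun a p => decide (t a ≤ (gv (mR (r a)).2 (str p) (f a)).length)) (pf_posM hM)
    (PF.le (ht.comp PF.fst) (PF.length (pf_gv (PF.snd' (PF.mR (hr.comp PF.fst)))
      (PF.str PF.snd) (hf.comp PF.fst))))

theorem pf_prior {r e : α → ℕ} {H : α → List Rec} (hr : PF r) (he : PF e) (hH : PF H) :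
    PF (fun a => prior (r a) (e a) (H a)) :=
  PF.filter (l := H) (f := fun a x => rC x && (decide (rR x = r a) && decide (dE (rZ x) = e a)))
    hH (PF.and (PF.fst' PF.snd) (PF.and
      (PF.natEq (PF.fst' (PF.snd' PF.snd)) (hr.comp PF.fst))
      (PF.natEq (PF.dE (PF.fst' (PF.snd' (PF.snd' PF.snd)))) (he.comp PF.fst))))

theorem pf_actF {N r : α → ℕ} {z : α → List Bool} {H : α → List Rec} (hN : PF N) (hr : PF r)
    (hz : PF z) (hH : PF H) : PF (fun a => actF (bvC (N a)) (r a) (z a) (H a)) := by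
  have hp := pf_prior hr (PF.dE hz) hH
  refine PF.or (PF.lt hr (PF.dE hz)) (PF.and (PF.le (PF.mul (PF.const 3) hr) (PF.length hp)) ?_)
  exact PF.all (f := fun a x => bvC (N a) (dE (z a)) (dY (rZ x)) == rB x) hp
    (PF.beqBool (pf_bvC (hN.comp PF.fst) (PF.dE (hz.comp PF.fst))
      (PF.dY (PF.fst' (PF.snd' (PF.snd' PF.snd)))))
      (PF.fst' (PF.snd' (PF.snd' (PF.snd' (PF.snd' PF.snd))))))

theorem pf_Av {N : α → ℕ} {z : α → List Bool} {H : α → List Rec} (hN : PF N)
    (hz : PF z) (hH : PF H) : PF (fun a => Av (bvC (N a)) (H a) (z a)) := by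
  have h := PF.find (l := H) (f := fun a x => rC x && (rA x && (rZ x == z a))) hH
    (PF.and (PF.fst' PF.snd) (PF.and
      (PF.snd' (PF.snd' (PF.snd' (PF.snd' (PF.snd' PF.snd)))))
      (PF.beqStr (PF.fst' (PF.snd' (PF.snd' PF.snd))) (hz.comp PF.fst))))
  refine (h.optCase (g := fun a => bvC (N a) (dE (z a)) (dY (z a))) (h := fun _ x => !rB x)
    (pf_bvC hN (PF.dE hz) (PF.dY hz))
    (PF.not (PF.fst' (PF.snd' (PF.snd' (PF.snd' (PF.snd' PF.snd))))))).congr ?_
  intro a
  unfold Av
  rcases (H a).find? (fun x => rC x && (rA x && (rZ x == z a))) with _ | p <;> rfl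

theorem pf_cD {r : α → ℕ} (hr : PF r) : PF (fun a => cD (r a)) :=
  PF.fst' (PF.mD (PF.fst' (PF.mR hr)))

theorem pf_stage2 {N r f p : α → ℕ} {H : α → List Rec} (hN : PF N) (hr : PF r) (hf : PF f)
    (hH : PF H) (hp : PF p) : PF (fun a => stage2 (bvC (N a)) (r a) (f a) (H a) (p a)) := by
  have hg := pf_gv (PF.snd' (PF.mR hr)) (PF.str hp) hf
  have hex := pf_exs (PF.fst' (PF.mR hr)) hH
  exact PF.pair (PF.const true) (PF.pair hr (PF.pair hg (PF.pair hp
    (PF.pair (pf_nextB (pf_cD hr) hex hf (pf_play (pf_cD hr) hex hf hp))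
      (pf_actF hN hr hg hH)))))

theorem pf_exPos {r n M f : α → ℕ} {H : α → List Rec} (hr : PF r) (hn : PF n) (hM : PF M)
    (hf : PF f) (hH : PF H) : PF (fun a => exPos (r a) (n a) (M a) (f a) (H a)) := by
  have hex := pf_exs (PF.fst' (PF.mR hr)) hH
  refine PF.getD (PF.find (l := fun a => posM (M a)) (f := fun a p => lowB (n a)
    (gv (cD (r a)) (play (cD (r a)) (exs (mR (r a)).1 (H a)) (f a) p) (f a))) (pf_posM hM) ?_)
    (PF.sub (PF.mul (PF.const 2) hM) (PF.const 2))
  exact PF.lowB (hn.comp PF.fst) (pf_gv (pf_cD (hr.comp PF.fst))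
    (pf_play (pf_cD (hr.comp PF.fst)) (hex.comp PF.fst) (hf.comp PF.fst) PF.snd)
    (hf.comp PF.fst))

theorem pf_stage1 {N r n M f : α → ℕ} {H : α → List Rec} (hN : PF N) (hr : PF r) (hn : PF n)
    (hM : PF M) (hf : PF f) (hH : PF H) :
    PF (fun a => stage1 (bvC (N a)) (r a) (n a) (M a) (f a) (H a)) := by
  have hp := pf_exPos hr hn hM hf hH
  exact PF.pair (PF.const false) (PF.pair hr (PF.pair (PF.const []) (PF.pair hp
    (PF.pair (PF.not (pf_Av hN (pf_gv (PF.snd' (PF.mR hr)) (PF.str hp) hf) hH))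
      (PF.const false)))))

theorem pf_stageF {N r n M f t : α → ℕ} {H : α → List Rec} (hN : PF N) (hr : PF r) (hn : PF n)
    (hM : PF M) (hf : PF f) (ht : PF t) (hH : PF H) :
    PF (fun a => stageF (bvC (N a)) (r a) (n a) (M a) (f a) (t a) (H a)) := by
  refine ((pf_srch hr hM hf ht).optCase
    (g := fun a => stage1 (bvC (N a)) (r a) (n a) (M a) (f a) (H a))
    (h := fun a p => stage2 (bvC (N a)) (r a) (f a) (H a) p)
    (pf_stage1 hN hr hn hM hf hH)
    (pf_stage2 (hN.comp PF.fst) (hr.comp PF.fst) (hf.comp PF.fst) (hH.comp PF.fst)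
      PF.snd)).congr ?_
  intro a
  unfold stageF
  rcases srch (r a) (M a) (f a) (t a) with _ | p <;> rfl

theorem pf_capC {s n N : α → ℕ} (hs : PF s) (hn : PF n) (hN : PF N) :
    PF (fun a => capC (s a) (n a) (N a)) := by
  refine (pf_cexp (pf_cpow hn (pf_ka (pf_blk hs)).succ hN) hN).congr ?_
  intro a
  rw [min_exp_min]
  rfl

theorem pf_thC {s n N : α → ℕ} (hs : PF s) (hn : PF n) (hN : PF N) :
    PF (fun a => thC (s a) (n a) (N a)) :=
  pf_cpow hn (pf_ka (pf_blk hs)).succ.succ hN

theorem pf_stN {N s n : α → ℕ} {H : α → List Rec} (hN : PF N) (hs : PF s) (hn : PF n)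
    (hH : PF H) : PF (fun a => stN (N a) (s a) (n a) (H a)) :=
  pf_stageF hN (pf_blk hs) hn (pf_cexp hn hN) (pf_capC hs hn hN) (pf_thC hs hn hN) hH

theorem rP_mem' (s : ℕ) : rP (recS s) ∈ posM (2 ^ nn s) := by
  rcases hs : srch (blk s) (2 ^ nn s) (cap s) (th s) with _ | p
  · refine rP_mem ?_
    rw [recS_case1 hs]
    exact rC_stage1 _ _ _ _ _ _
  · rw [recS_case2 hs]
    exact (srch_mem hs).1

theorem sz_recS (s : ℕ) : sz (recS s) ≤ 8 * nn (s + 1) + 30 := by
  have h1 : sz (recS s) = sz (rC (recS s)) + sz (rR (recS s)) + sz (rZ (recS s)) +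
      sz (rP (recS s)) + sz (rB (recS s)) + sz (rA (recS s)) + 5 := by
    generalize recS s = x
    obtain ⟨a, b, c, d, e, f⟩ := x
    unfold rC rR rZ rP rB rA
    simp only [sz_pair]
    ring
  have h2 := sz_bool (rC (recS s))
  have h3 := sz_bool (rB (recS s))
  have h4 := sz_bool (rA (recS s))
  have h5 : sz (rR (recS s)) ≤ 2 * s + 1 := by
    rw [rR_recS, sz_nat]
    have := blk_le s
    omega
  have h6 : sz (rP (recS s)) ≤ 4 * 2 ^ nn s := by
    rw [sz_nat]
    have := rP_mem' s
    rw [mem_posM] at this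
    omega
  have h7 : sz (rZ (recS s)) ≤ 4 * (nn s + cap s) + 1 := by
    refine (sz_str_le _).trans ?_
    rcases hc : rC (recS s) with _ | _
    · have hs1 : srch (blk s) (2 ^ nn s) (cap s) (th s) = none := by
        rcases hh : srch (blk s) (2 ^ nn s) (cap s) (th s) with _ | p'
        · rfl
        · have := (rC_recS s).2 ⟨p', hh⟩
          rw [hc] at this
          exact absurd this (by decide)
      have : rZ (recS s) = [] := by
        rw [recS_case1 hs1]
        rfl
      rw [this]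
      simp
    · have := (loc_bounds hc).2
      omega
  have h8 := loc_lt s
  have h9 := lt_nn s
  have h10 := two_pow_nn_le_cap s
  have h11 := nn_lt_succ s
  omega

theorem sz_hist {σ N : ℕ} (h : σ = 0 ∨ nn σ ≤ N) : sz (hist σ) ≤ σ * (8 * N + 31) + 1 := by
  have h1 := sz_list_le (hist σ) (8 * N + 30) (by
    intro x hx
    obtain ⟨s, hs, rfl⟩ := hist_rec hx
    have h2 := sz_recS s
    have h3 := nn_le_of_lt hs
    rcases h with h | h
    · omega
    · omega)
  have h2 : (hist σ).length = σ := by rw [hist_eq, List.length_map, List.length_range]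
  rw [h2] at h1
  exact h1

theorem sz_iterN (N j : ℕ) (hj : j ≤ N) :
    sz (iterN N j) ≤ 1 + (2 * N + 1) + (1 + (2 * (N + 65536) + 1) + (N * (8 * N + 31) + 1)) := by
  obtain ⟨σ, h1, h2, _, h4⟩ := iterN_spec N j
  rw [h2, sz_pair, sz_pair, sz_nat, sz_nat]
  have h5 := sz_hist h4
  have h6 : nn σ ≤ N + 65536 := by
    rcases h4 with h4 | h4
    · subst h4
      change 2 ^ 16 ≤ _
      norm_num
    · omega
  have h7 : σ * (8 * N + 31) ≤ N * (8 * N + 31) := Nat.mul_le_mul_right _ (by omega)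
  omega

theorem pf_advN {N : α → ℕ} {st : α → ℕ × ℕ × List Rec} (hN : PF N) (hst : PF st) :
    PF (fun a => advN (N a) (st a)) := by
  have h1 := pf_cexp (pf_cexp (PF.fst' (PF.snd' hst)) hN.succ) hN.succ
  exact PF.ite (PF.le h1 hN) (PF.pair (PF.fst' hst).succ (PF.pair h1
    (PF.append (PF.snd' (PF.snd' hst)) (PF.cons (pf_stN hN (PF.fst' hst) (PF.fst' (PF.snd' hst))
      (PF.snd' (PF.snd' hst))) (PF.const []))))) hst

theorem pf_iterN {N : α → ℕ} (hN : PF N) : PF (fun a => iterN (N a) (N a)) := by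
  have hN' : PB (fun a => N a) := hN.size.mono (fun a => by rw [sz_nat]; omega)
  refine PF.iterate (n := N) (s := fun _ => ((0 : ℕ), (65536 : ℕ), ([] : List Rec)))
    (f := fun a st => advN (N a) st) hN (PF.const _) (pf_advN (hN.comp PF.fst) PF.snd)
    (b := fun a => 1 + (2 * N a + 1) + (1 + (2 * (N a + 65536) + 1) + (N a * (8 * N a + 31) + 1)))
    (((PB.const 1).add (((PB.const 2).mul hN').add (PB.const 1))).add
      (((PB.const 1).add (((PB.const 2).mul (hN'.add (PB.const _))).add (PB.const 1))).add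
        ((hN'.mul (((PB.const 8).mul hN').add (PB.const _))).add (PB.const 1)))) ?_
  intro a j hj
  exact sz_iterN (N a) j hj

theorem pf_finN {N : α → ℕ} {st : α → ℕ × ℕ × List Rec} (hN : PF N) (hst : PF st) :
    PF (fun a => finN (N a) (st a)) := by
  have hr := pf_stN hN (PF.fst' hst) (PF.fst' (PF.snd' hst)) (PF.snd' (PF.snd' hst))
  refine PF.ite (PF.and (PF.le (pf_capC (PF.fst' hst) (PF.fst' (PF.snd' hst)) hN.succ) hN)
    (PF.or (PF.fst' hr) (PF.le (pf_cexp (PF.succ (PF.mul (PF.const 2)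
      (pf_thC (PF.fst' hst) (PF.fst' (PF.snd' hst)) hN))) hN.succ) hN)))
    (PF.append (PF.snd' (PF.snd' hst)) (PF.cons hr (PF.const []))) (PF.snd' (PF.snd' hst))

theorem pf_infoN {N : α → ℕ} (hN : PF N) : PF (fun a => infoN (N a)) :=
  pf_finN hN (pf_iterN hN)

theorem pf_avN {N : α → ℕ} {z : α → List Bool} (hN : PF N) (hz : PF z) :
    PF (fun a => avN (N a) (z a)) := pf_Av hN hz (pf_infoN hN)

theorem pf_rrN (k : ℕ) {N : α → ℕ} {x : α → List Bool} (hN : PF N) (hx : PF x) :
    PF (fun a => rrN k (N a) (x a)) := by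
  have hex := pf_exs (PF.const k) (pf_infoN hN)
  exact pf_nextB (PF.const _) hex hN (pf_play (PF.const _) hex hN (pf_idxCap hx hN))

end

/-! ### the strategy `dF` -/

/-- `dval` with capped exponentials -/
def dvalN (N r : ℕ) (b : Bool) (P : List Rec) (w : List Bool) : ℕ × ℕ :=
  if P.all (okR w) then
    ((if b then min (2 ^ (2 * (r + 1))) N - 1
      else min (2 ^ (2 * (r + 1))) N - 1 + 2 * min (2 ^ P.length) N),
      2 * (min (2 ^ (2 * (r + 1))) N - 1 + min (2 ^ P.length) N))
  else (1, 2)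

def dFN (H : List Rec) (w : List Bool) : ℕ × ℕ :=
  match findS H w.length with
  | none => (1, 2)
  | some x => dvalN w.length (rR x) (rB x) (priorW (rR x) (dE (rZ x)) w.length H) w

theorem dvalN_eq {s : ℕ} {w : List Bool} (h : Rl s) (hq : qq s = w.length) (b : Bool) :
    dvalN w.length (blk s) b (prior (blk s) (dE (rZ (recS s))) (hist s)) w =
      dval (blk s) b (prior (blk s) (dE (rZ (recS s))) (hist s)) w := by
  have h1 := cap_le_qq h
  have h2 := two_pow_nn_le_cap s
  have h3 := two_pow_le_nn s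
  have h4 := blk_le s
  have h5 : 2 * (blk s + 1) ≤ nn s := by
    have := Nat.lt_two_pow_self (n := s)
    rw [pow_add] at h3
    omega
  have h6 : 2 ^ (2 * (blk s + 1)) ≤ w.length := by
    have : 2 ^ (2 * (blk s + 1)) ≤ 2 ^ nn s := Nat.pow_le_pow_right (by norm_num) h5
    omega
  have h7 : (prior (blk s) (dE (rZ (recS s))) (hist s)).length ≤ s := by
    have e1 : (hist s).length = s := by rw [hist_eq, List.length_map, List.length_range]
    unfold prior
    have := List.length_filter_le (fun x => rC x && (decide (rR x = blk s) &&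
      decide (dE (rZ x) = dE (rZ (recS s))))) (hist s)
    omega
  have h8 : 2 ^ (prior (blk s) (dE (rZ (recS s))) (hist s)).length ≤ w.length := by
    have h9 := lt_nn s
    have : 2 ^ (prior (blk s) (dE (rZ (recS s))) (hist s)).length ≤ 2 ^ nn s :=
      Nat.pow_le_pow_right (by norm_num) (by omega)
    omega
  unfold dvalN dval
  rw [min_eq_left h6, min_eq_left h8, pow_mul]
  norm_num only
  rw [pow_succ 2, mul_comm (2 ^ _) 2]

theorem dFN_eq (w : List Bool) : dFN (infoN w.length) w = dF w := by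
  obtain ⟨S, h1, h2⟩ := info_spec w.length
  rw [h1]
  have hS : ∀ s, Rl s → qq s = w.length → s < S := by
    intro s hr hq
    by_contra hc
    have h3 := cap_le_qq hr
    rcases h2 s (by omega) with h4 | ⟨h4, _⟩
    · omega
    · rw [hr.1] at h4
      exact absurd h4 (by decide)
  rw [← dFH_eq hS]
  by_cases hex : ∃ s, Rl s ∧ qq s = w.length
  · obtain ⟨s, h3, h4⟩ := hex
    rw [dFH_some (hS s h3 h4) h3 h4, ← dvalN_eq h3 h4]
    unfold dFN
    rw [findS_some (hS s h3 h4) h3 h4]
    simp only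
    rw [rR_recS, ← h4, priorW_hist (hS s h3 h4).le h3]
  · push_neg at hex
    rw [dFH_none (fun s _ h1 => hex s h1)]
    unfold dFN
    rw [findS_none (fun s _ h1 => hex s h1)]

section
variable {α β γ δ σ : Type} [TEnc α] [TEnc β] [TEnc γ] [TEnc δ] [TEnc σ]

theorem pf_idxEq {x : α → List Bool} {m : α → ℕ} (hx : PF x) (hm : PF m) :
    PF (fun a => decide (idx (x a) = m a)) := by
  refine (PF.natEq (pf_idxCap hx hm.succ) hm).congr ?_
  intro a
  rw [decide_eq_decide]
  omega

theorem pf_idxLt {x : α → List Bool} {m : α → ℕ} (hx : PF x) (hm : PF m) :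
    PF (fun a => decide (idx (x a) < m a)) := by
  refine (PF.lt (pf_idxCap hx hm) hm).congr ?_
  intro a
  rw [decide_eq_decide]
  omega

theorem pf_findS {H : α → List Rec} {m : α → ℕ} (hH : PF H) (hm : PF m) :
    PF (fun a => findS (H a) (m a)) :=
  PF.find (l := H) (f := fun a x => rC x && (decide (dE (rZ x) ≤ rR x) &&
    decide (idx (dY (rZ x)) = m a))) hH
    (PF.and (PF.fst' PF.snd) (PF.and
      (PF.le (PF.dE (PF.fst' (PF.snd' (PF.snd' PF.snd)))) (PF.fst' (PF.snd' PF.snd)))
      (pf_idxEq (PF.dY (PF.fst' (PF.snd' (PF.snd' PF.snd)))) (hm.comp PF.fst))))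

theorem pf_priorW {r e m : α → ℕ} {H : α → List Rec} (hr : PF r) (he : PF e) (hm : PF m)
    (hH : PF H) : PF (fun a => priorW (r a) (e a) (m a) (H a)) :=
  PF.filter (f := fun a x => decide (idx (dY (rZ x)) < m a)) (pf_prior hr he hH)
    (pf_idxLt (PF.dY (PF.fst' (PF.snd' (PF.snd' PF.snd)))) (hm.comp PF.fst))

theorem pf_okR {w : α → List Bool} {x : α → Rec} (hw : PF w) (hx : PF x) :
    PF (fun a => okR (w a) (x a)) := by
  have h := PF.listGetD (d := fun _ => false)
    (pf_idxCap (PF.dY (PF.fst' (PF.snd' (PF.snd' hx)))) (PF.length hw)) hw (PF.const false)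
  refine (PF.beqBool h (PF.fst' (PF.snd' (PF.snd' (PF.snd' (PF.snd' hx)))))).congr ?_
  intro a
  unfold okR
  congr 1
  rcases le_total (idx (dY (rZ (x a)))) (w a).length with h1 | h1
  · rw [show (x a).2.2.1 = rZ (x a) from rfl, min_eq_left h1]
  · rw [show (x a).2.2.1 = rZ (x a) from rfl, min_eq_right h1,
      List.getD_eq_default _ _ (le_refl _), List.getD_eq_default _ _ h1]

theorem pf_dvalN {N r : α → ℕ} {b : α → Bool} {P : α → List Rec} {w : α → List Bool}
    (hN : PF N) (hr : PF r) (hb : PF b) (hP : PF P) (hw : PF w) :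
    PF (fun a => dvalN (N a) (r a) (b a) (P a) (w a)) := by
  have h1 := (pf_cexp (PF.mul (PF.const 2) hr.succ) hN).pred
  have h2 := pf_cexp (PF.length hP) hN
  exact PF.ite (PF.all (f := fun a x => okR (w a) x) hP (pf_okR (hw.comp PF.fst) PF.snd))
    (PF.pair (PF.ite hb h1 (PF.add h1 (PF.mul (PF.const 2) h2)))
      (PF.mul (PF.const 2) (PF.add h1 h2))) (PF.const (1, 2))

theorem pf_dFN {H : α → List Rec} {w : α → List Bool} (hH : PF H) (hw : PF w) :
    PF (fun a => dFN (H a) (w a)) := by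
  have hm := PF.length hw
  refine ((pf_findS hH hm).optCase (g := fun _ => ((1 : ℕ), (2 : ℕ)))
    (h := fun a x => dvalN (w a).length (rR x) (rB x)
      (priorW (rR x) (dE (rZ x)) (w a).length (H a)) (w a)) (PF.const _) ?_).congr ?_
  · have hx : PF (fun p : α × Rec => p.2) := PF.snd
    have hr : PF (fun p : α × Rec => rR p.2) := PF.fst' (PF.snd' hx)
    exact pf_dvalN (hm.comp PF.fst) hr (PF.fst' (PF.snd' (PF.snd' (PF.snd' (PF.snd' hx)))))
      (pf_priorW hr (PF.dE (PF.fst' (PF.snd' (PF.snd' hx)))) (hm.comp PF.fst) (hH.comp PF.fst))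
      (hw.comp PF.fst)
  · intro a
    unfold dFN
    rcases findS (H a) (w a).length with _ | p <;> rfl

/-- the strategy is computable in polynomial time -/
theorem pf_dF : PF (fun w : List Bool => encPair (dF w)) := by
  have h := pf_dFN (pf_infoN (PF.length (PF.id (α := List Bool)))) PF.id
  refine (PF.encPair (PF.fst' h) (PF.snd' h)).congr ?_
  intro w
  rw [← dFN_eq w]

end

end Pool.Agent.H583R2
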