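import Pool.Agent.H583R2.Lib

/-!
From typed stack programs to Mathlib's Turing machines on raw bit strings.
-/

namespace Pool.Agent.H583R2

open Turing

/-- raw input to tree -/
def inP : Prog :=
  .seq (.whil .m (fun o => o.isSome) (.pop .m .skip (.push .t false) (.push .t true)))
    (.seq (.push .m false)
      (.whil .t (fun o => o.isSome) (.pop .t .skip (.seq (.push .m false) (.push .m true))
        (.seq (.push .m false) (.seq (.push .m false) (.seq (.push .m true) (.push .m true)))))))

theorem inP_aux1 (x : List Bool) : ∀ t : List Bool,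
    EvL (.whil .m (fun o => o.isSome) (.pop .m .skip (.push .t false) (.push .t true)))
      ⟨x, [], [], t, []⟩ ⟨[], [], [], x.reverse ++ t, []⟩ (3 * x.length + 1) := by
  induction x with
  | nil => intro t; exact EvL.whilDone rfl
  | cons z x ih =>
    intro t
    have e : (z :: x).reverse ++ t = x.reverse ++ (z :: t) := by simp
    rw [e]
    refine EvL.mono (EvL.whilStep (i := 2) (S' := ⟨x, [], [], z :: t, []⟩) rfl ?_ (ih (z :: t))) ?_
    · cases z <;> exact EvL.pop (EvL.push _ _ _)
    · simp only [List.length_cons]; omega

theorem ser_enc_cons (b : Bool) (y : List Bool) :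
    ser (enc (b :: y)) = true :: (ser (enc b) ++ ser (enc y)) := rfl

theorem inP_aux2 (x : List Bool) : ∀ y : List Bool,
    EvL (.whil .t (fun o => o.isSome) (.pop .t .skip (.seq (.push .m false) (.push .m true))
        (.seq (.push .m false) (.seq (.push .m false) (.seq (.push .m true) (.push .m true))))))
      ⟨ser (enc y), [], [], x, []⟩ ⟨ser (enc (x.reverse ++ y)), [], [], [], []⟩
      (6 * x.length + 1) := by
  induction x with
  | nil => intro t; exact EvL.whilDone rfl
  | cons z x ih =>
    intro y
    have e : (z :: x).reverse ++ y = x.reverse ++ (z :: y) := by simp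
    rw [e]
    refine EvL.mono (EvL.whilStep (i := 5) (S' := ⟨ser (enc (z :: y)), [], [], x, []⟩) rfl ?_
      (ih (z :: y))) ?_
    · cases z
      · exact EvL.mono (EvL.pop (EvL.seq (EvL.push _ _ _) (EvL.push _ _ _))) (by omega)
      · exact EvL.mono (EvL.pop (EvL.seq (EvL.push _ _ _) (EvL.seq (EvL.push _ _ _)
          (EvL.seq (EvL.push _ _ _) (EvL.push _ _ _))))) (by omega)
    · simp only [List.length_cons]; omega

theorem inP_spec (x : List Bool) :
    EvL inP ⟨x, [], [], [], []⟩ ⟨ser (enc x), [], [], [], []⟩ (9 * x.length + 3) := by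
  have h1 := inP_aux1 x []
  have h2 := inP_aux2 (x.reverse ++ []) []
  have e : (x.reverse ++ []).reverse ++ [] = x := by simp
  rw [e] at h2
  have h3 : EvL (.push .m false) ⟨[], [], [], x.reverse ++ [], []⟩
    ⟨ser (enc ([] : List Bool)), [], [], x.reverse ++ [], []⟩ 1 := EvL.push _ _ _
  refine EvL.mono (h1.seq (h3.seq h2)) ?_
  simp; omega

/-- tree to raw output -/
def outP : Prog :=
  .seq (.whil .m (fun o => o == some true) (.seq (.pop .m .skip .skip .skip)
    (.pop .m .skip (.push .t false) (.seq (.pop .m .skip .skip .skip)
      (.seq (.pop .m .skip .skip .skip) (.push .t true))))))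
    (.seq (.pop .m .skip .skip .skip) (flush .m))

theorem outP_aux (y : List Bool) : ∀ t : List Bool,
    EvL (.whil .m (fun o => o == some true) (.seq (.pop .m .skip .skip .skip)
    (.pop .m .skip (.push .t false) (.seq (.pop .m .skip .skip .skip)
      (.seq (.pop .m .skip .skip .skip) (.push .t true))))))
      ⟨ser (enc y), [], [], t, []⟩ ⟨[false], [], [], y.reverse ++ t, []⟩ (9 * y.length + 1) := by
  induction y with
  | nil => intro t; exact EvL.whilDone rfl
  | cons z y ih =>
    intro t
    have e : (z :: y).reverse ++ t = y.reverse ++ (z :: t) := by simp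
    rw [e]
    refine EvL.mono (EvL.whilStep (i := 8) (S' := ⟨ser (enc y), [], [], z :: t, []⟩) rfl ?_
      (ih (z :: t))) ?_
    · cases z
      · exact EvL.mono (EvL.seq (EvL.pop (EvL.skip _)) (EvL.pop (EvL.push _ _ _))) (by omega)
      · exact EvL.mono (EvL.seq (EvL.pop (EvL.skip _)) (EvL.pop (EvL.seq (EvL.pop (EvL.skip _))
          (EvL.seq (EvL.pop (EvL.skip _)) (EvL.push _ _ _))))) (by omega)
    · simp only [List.length_cons]; omega

theorem outP_spec (y : List Bool) :
    EvL outP ⟨ser (enc y), [], [], [], []⟩ ⟨y, [], [], [], []⟩ (12 * y.length + 4) := by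
  have h1 := outP_aux y []
  have h2 : EvL (.pop .m .skip .skip .skip) ⟨[false], [], [], y.reverse ++ [], []⟩
    ⟨[], [], [], y.reverse ++ [], []⟩ 2 := EvL.pop (EvL.skip _)
  have h3 := flush_spec .m (Or.inl rfl) (y.reverse ++ []) [] [] []
  have e : (y.reverse ++ []).reverse ++ [] = y := by simp
  rw [e] at h3
  refine EvL.mono (h1.seq (h2.seq h3)) ?_
  simp; omega

theorem sz_str_le (x : List Bool) : sz x ≤ 4 * x.length + 1 := by
  have := sz_list_le x 3 (fun b _ => sz_bool b)
  omega

theorem len_le_sz (x : List Bool) : x.length ≤ sz x := (length_lt_sz x).le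

/-- a typed program for `f` on strings gives a Turing machine -/
theorem hasTM {f : List Bool → List Bool} {c : List Bool → ℕ} (h : Has f c) (T : ℕ → ℕ)
    (hT : ∀ x, 60 * x.length + 13 * c x + 40 ≤ T x.length) :
    ∃ M : TM2ComputableInTime (id : List Bool → List Bool) (id : List Bool → List Bool) f,
      M.time = T := by
  have hs := h.size
  obtain ⟨p, hp⟩ := h
  have key : ∀ x : List Bool, Nonempty (TM2OutputsInTime (finTM (.seq inP (.seq p outP))) x
      (some (f x)) (T x.length)) := by
    intro x
    have h1 := inP_spec x
    have h2 := hp x [] [] []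
    rw [List.append_nil, List.append_nil] at h2
    have h3 := outP_spec (f x)
    obtain ⟨i, hi, h4⟩ := h1.seq (h2.seq h3)
    obtain ⟨h5⟩ := finTM_outputs _ _ _ _ h4
    refine ⟨⟨h5.toEvalsTo, h5.steps_le_m.trans ?_⟩⟩
    have h6 := hT x
    have h7 := hs x
    have h8 := sz_str_le x
    have h9 := len_le_sz (f x)
    omega
  exact ⟨{ tm := finTM (.seq inP (.seq p outP))
           inputAlphabet := Equiv.refl _
           outputAlphabet := Equiv.refl _
           time := T
           outputsFun := fun x => by
             have := (key x).some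
             have e1 : List.map (Equiv.refl Bool).invFun (id x) = x := by
               change List.map id x = x
               simp
             have e2 : List.map (Equiv.refl Bool).invFun (id (f x)) = f x := by
               change List.map id (f x) = f x
               simp
             have e : ∀ (u v : List Bool), u = x → v = f x →
                 TM2OutputsInTime (finTM (.seq inP (.seq p outP))) u (some v) (T x.length) := by
               intro u v hu hv
               rw [hu, hv]
               exact this
             exact e _ _ e1 e2 }, rfl⟩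

/-- same, with a different output encoding -/
theorem hasTM' {β : Type} {f : List Bool → β} (eb : β → List Bool) {c : List Bool → ℕ}
    (h : Has (fun x => eb (f x)) c) (T : ℕ → ℕ)
    (hT : ∀ x, 60 * x.length + 13 * c x + 40 ≤ T x.length) :
    ∃ M : TM2ComputableInTime (id : List Bool → List Bool) eb f, M.time = T := by
  obtain ⟨M, hM⟩ := hasTM h T hT
  exact ⟨{ toTM2ComputableAux := M.toTM2ComputableAux
           time := M.time
           outputsFun := M.outputsFun }, hM⟩

end Pool.Agent.H583R2
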