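import Pool.Agent.H583R2.Typed

/-!
Library of polynomial-time functions.
-/

namespace Pool.Agent.H583R2

section lib
variable {α β γ δ σ : Type} [TEnc α] [TEnc β] [TEnc γ] [TEnc δ] [TEnc σ]

theorem foldl_size_aux (f : σ → β → σ) (inc bnd : ℕ) (l : List β)
    (h : ∀ x ∈ l, ∀ st, sz (f st x) ≤ max (sz st + inc) bnd) (s : σ) :
    sz (l.foldl f s) ≤ sz s + bnd + l.length * inc := by
  have h4 : ∀ (l : List β) (s : σ), (∀ x ∈ l, ∀ st, sz (f st x) ≤ max (sz st + inc) bnd) →
      sz (l.foldl f s) ≤ max (sz s) bnd + l.length * inc := by
    intro l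
    induction l with
    | nil => intro s _; simp
    | cons y l ih =>
      intro s hl
      have h5 := ih (f s y) (fun z hz => hl z (List.mem_cons_of_mem _ hz))
      have h6 := hl y List.mem_cons_self s
      rw [List.foldl_cons, List.length_cons, Nat.add_mul]
      have h7 : max (sz (f s y)) bnd ≤ max (sz s) bnd + inc := by
        rcases le_total (sz s) bnd with h8 | h8
        · rw [max_eq_right h8]
          refine max_le (h6.trans (max_le (by omega) (by omega))) (by omega)
        · rw [max_eq_left h8]
          refine max_le (h6.trans (max_le (by omega) (by omega))) (by omega)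
      omega
  have := h4 l s h
  have h5 : max (sz s) bnd ≤ sz s + bnd := max_le (by omega) (by omega)
  omega

/-- fold with additive growth of the state -/
theorem PF.foldlAdd {l : α → List β} {s : α → σ} {f : α → σ → β → σ} (hl : PF l) (hs : PF s)
    (hf : PF (fun p : α × σ × β => f p.1 p.2.1 p.2.2)) {inc bnd : α → ℕ} (hi : PB inc)
    (hb : PB bnd)
    (h : ∀ a, ∀ x ∈ l a, ∀ st, sz (f a st x) ≤ max (sz st + inc a) (bnd a)) :
    PF (fun a => (l a).foldl (f a) (s a)) := by
  refine PF.foldl hl hs hf (b := fun a => sz (s a) + bnd a + sz (l a) * inc a)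
    ((hs.size.add hb).add (hl.size.mul hi)) ?_
  intro a j hj
  refine (foldl_size_aux (f a) (inc a) (bnd a) ((l a).take j)
    (fun x hx st => h a x (List.mem_of_mem_take hx) st) (s a)).trans ?_
  have h1 : ((l a).take j).length ≤ sz (l a) := by
    rw [List.length_take]
    have := length_lt_sz (l a)
    omega
  have h2 := Nat.mul_le_mul_right (inc a) h1
  omega

theorem PF.toList : PF (fun n : ℕ => List.replicate n ()) := by
  refine PF.cast _ ?_
  intro n
  induction n with
  | zero => rfl
  | succ n ih =>
    change Tr.node .leaf (encList (List.replicate n ())) = Tr.node .leaf (encNat n)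
    congr 1

theorem replicate_foldl (f : σ → σ) (n : ℕ) (s : σ) :
    (List.replicate n ()).foldl (fun s _ => f s) s = f^[n] s := by
  induction n generalizing s with
  | zero => rfl
  | succ n ih => rw [List.replicate_succ, List.foldl_cons, ih, Function.iterate_succ_apply]

/-- iteration with an explicit polynomial bound on the states -/
theorem PF.iterate {n : α → ℕ} {s : α → σ} {f : α → σ → σ} (hn : PF n) (hs : PF s)
    (hf : PF (fun p : α × σ => f p.1 p.2)) {b : α → ℕ} (hb : PB b)
    (h : ∀ a, ∀ j ≤ n a, sz ((f a)^[j] (s a)) ≤ b a) :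
    PF (fun a => (f a)^[n a] (s a)) := by
  have h1 := PF.foldl (l := fun a => List.replicate (n a) ()) (s := s)
    (f := fun a s _ => f a s) (PF.toList.comp hn) hs
    (hf.comp (PF.fst.pair (PF.fst.comp PF.snd))) hb (by
      intro a j hj
      rw [List.length_replicate] at hj
      rw [List.take_replicate, Nat.min_eq_left hj, replicate_foldl]
      exact h a j hj)
  refine h1.congr ?_
  intro a
  rw [replicate_foldl]

/-- iteration with additive growth -/
theorem PF.iterateAdd {n : α → ℕ} {s : α → σ} {f : α → σ → σ} (hn : PF n) (hs : PF s)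
    (hf : PF (fun p : α × σ => f p.1 p.2)) {inc bnd : α → ℕ} (hi : PB inc) (hb : PB bnd)
    (h : ∀ a st, sz (f a st) ≤ max (sz st + inc a) (bnd a)) :
    PF (fun a => (f a)^[n a] (s a)) := by
  have h1 := PF.foldlAdd (l := fun a => List.replicate (n a) ()) (s := s)
    (f := fun a s _ => f a s) (PF.toList.comp hn) hs
    (hf.comp (PF.fst.pair (PF.fst.comp PF.snd))) hi hb (by
      intro a x _ st
      exact h a st)
  refine h1.congr ?_
  intro a
  rw [replicate_foldl]

/-! constructors -/

theorem PF.cons {x : α → β} {l : α → List β} (hx : PF x) (hl : PF l) :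
    PF (fun a => x a :: l a) := by
  have h : PF (fun p : β × List β => p.1 :: p.2) := PF.cast _ (fun p => rfl)
  exact h.comp (hx.pair hl)

theorem PF.succ {n : α → ℕ} (hn : PF n) : PF (fun a => n a + 1) := by
  have h : PF (fun p : Unit × ℕ => p.2 + 1) := PF.cast _ (fun p => rfl)
  exact h.comp ((PF.const ()).pair hn)

theorem PF.mkSome {x : α → β} (hx : PF x) : PF (fun a => some (x a)) := by
  have h : PF (fun p : Unit × β => some p.2) := PF.cast _ (fun p => rfl)
  exact h.comp ((PF.const ()).pair hx)

theorem PF.fst' {f : α → β × γ} (hf : PF f) : PF (fun a => (f a).1) := PF.fst.comp hf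
theorem PF.snd' {f : α → β × γ} (hf : PF f) : PF (fun a => (f a).2) := PF.snd.comp hf

/-! booleans -/

theorem PF.not {b : α → Bool} (hb : PF b) : PF (fun a => !(b a)) :=
  (hb.ite (PF.const false) (PF.const true)).congr (fun a => by cases b a <;> rfl)

theorem PF.and {b c : α → Bool} (hb : PF b) (hc : PF c) : PF (fun a => b a && c a) :=
  (hb.ite hc (PF.const false)).congr (fun a => by cases b a <;> rfl)

theorem PF.or {b c : α → Bool} (hb : PF b) (hc : PF c) : PF (fun a => b a || c a) :=
  (hb.ite (PF.const true) hc).congr (fun a => by cases b a <;> rfl)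

theorem PF.beqBool {b c : α → Bool} (hb : PF b) (hc : PF c) : PF (fun a => b a == c a) :=
  (hb.ite hc hc.not).congr (fun a => by cases b a <;> cases c a <;> rfl)

theorem PF.isSome {o : α → Option β} (ho : PF o) : PF (fun a => (o a).isSome) :=
  (ho.optCase (g := fun _ => false) (h := fun _ _ => true) (PF.const false)
    (PF.const true)).congr (fun a => by cases o a <;> rfl)

theorem PF.getD {o : α → Option β} {d : α → β} (ho : PF o) (hd : PF d) :
    PF (fun a => (o a).getD (d a)) :=
  (ho.optCase (g := d) (h := fun _ x => x) hd PF.snd).congr (fun a => by cases o a <;> rfl)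

/-! lists -/

theorem PF.reverse {l : α → List β} (hl : PF l) : PF (fun a => (l a).reverse) := by
  have h := PF.foldlAdd (l := l) (s := fun _ => ([] : List β)) (f := fun _ s x => x :: s) hl
    (PF.const []) (PF.cons (PF.snd.comp PF.snd) (PF.fst.comp PF.snd))
    (inc := fun a => sz (l a) + 1) (bnd := fun _ => 0) (hl.size.add (PB.const 1)) (PB.const 0)
    (by
      intro a x hx st
      have := sz_mem hx
      rw [sz_cons]; omega)
  refine h.congr ?_
  intro a
  have : ∀ (l s : List β), l.foldl (fun s x => x :: s) s = l.reverse ++ s := by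
    intro l
    induction l with
    | nil => intro s; rfl
    | cons x l ih => intro s; rw [List.foldl_cons, ih]; simp
  rw [this, List.append_nil]

theorem foldr_size_aux (f : β → σ → σ) (inc bnd : ℕ) (l : List β)
    (h : ∀ x ∈ l, ∀ st, sz (f x st) ≤ max (sz st + inc) bnd) (s : σ) :
    sz (l.foldr f s) ≤ sz s + bnd + l.length * inc := by
  have := foldl_size_aux (fun s x => f x s) inc bnd l.reverse
    (fun x hx st => h x (List.mem_reverse.1 hx) st) s
  rwa [List.foldl_reverse, List.length_reverse] at this

/-- right fold with additive growth -/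
theorem PF.foldrAdd {l : α → List β} {s : α → σ} {f : α → β → σ → σ} (hl : PF l) (hs : PF s)
    (hf : PF (fun p : α × β × σ => f p.1 p.2.1 p.2.2)) {inc bnd : α → ℕ} (hi : PB inc)
    (hb : PB bnd)
    (h : ∀ a, ∀ x ∈ l a, ∀ st, sz (f a x st) ≤ max (sz st + inc a) (bnd a)) :
    PF (fun a => (l a).foldr (f a) (s a)) := by
  have h1 := PF.foldlAdd (l := fun a => (l a).reverse) (s := s) (f := fun a s x => f a x s)
    hl.reverse hs (hf.comp (PF.fst.pair ((PF.snd.comp PF.snd).pair (PF.fst.comp PF.snd)))) hi hb
    (fun a x hx st => h a x (List.mem_reverse.1 hx) st)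
  refine h1.congr ?_
  intro a
  rw [List.foldl_reverse]

/-- polynomial bound for values on elements of a list -/
theorem PB.mem {l : α → List β} {g : α → β → ℕ} (hl : PF l) (hg : PB (fun p : α × β => g p.1 p.2)) :
    ∃ b : α → ℕ, PB b ∧ ∀ a, ∀ x ∈ l a, g a x ≤ b a := by
  obtain ⟨k, hk⟩ := hg
  refine ⟨fun a => (sz a + sz (l a) + 3) ^ k, ((PB.szId.add hl.size).add (PB.const 3)).pow k, ?_⟩
  intro a x hx
  refine (hk (a, x)).trans (Nat.pow_le_pow_left ?_ _)
  have := sz_mem hx
  rw [sz_pair]; omega

theorem PF.map {l : α → List β} {f : α → β → γ} (hl : PF l)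
    (hf : PF (fun p : α × β => f p.1 p.2)) : PF (fun a => (l a).map (f a)) := by
  obtain ⟨b, hb, hbm⟩ := PB.mem (g := fun a x => sz (f a x)) hl hf.size
  have h := PF.foldrAdd (l := l) (s := fun _ => ([] : List γ)) (f := fun a x s => f a x :: s) hl
    (PF.const []) (PF.cons (hf.comp (PF.fst.pair (PF.fst.comp PF.snd))) (PF.snd.comp PF.snd))
    (inc := fun a => b a + 1) (bnd := fun _ => 0) (hb.add (PB.const 1)) (PB.const 0)
    (by
      intro a x hx st
      have := hbm a x hx
      rw [sz_cons]; omega)
  refine h.congr ?_
  intro a
  induction l a with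
  | nil => rfl
  | cons x l ih => rw [List.foldr_cons, ih]; rfl

theorem PF.append {l l' : α → List β} (hl : PF l) (hl' : PF l') : PF (fun a => l a ++ l' a) := by
  have h := PF.foldrAdd (l := l) (s := l') (f := fun _ x s => x :: s) hl
    hl' (PF.cons (PF.fst.comp PF.snd) (PF.snd.comp PF.snd))
    (inc := fun a => sz (l a) + 1) (bnd := fun _ => 0) (hl.size.add (PB.const 1)) (PB.const 0)
    (by
      intro a x hx st
      have := sz_mem hx
      rw [sz_cons]; omega)
  refine h.congr ?_
  intro a
  induction l a with
  | nil => rfl
  | cons x l ih => rw [List.foldr_cons, ih]; rfl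

theorem PF.filter {l : α → List β} {f : α → β → Bool} (hl : PF l)
    (hf : PF (fun p : α × β => f p.1 p.2)) : PF (fun a => (l a).filter (f a)) := by
  have h := PF.foldrAdd (l := l) (s := fun _ => ([] : List β))
    (f := fun a x s => if f a x then x :: s else s) hl
    (PF.const []) (PF.ite (hf.comp (PF.fst.pair (PF.fst.comp PF.snd)))
      (PF.cons (PF.fst.comp PF.snd) (PF.snd.comp PF.snd)) (PF.snd.comp PF.snd))
    (inc := fun a => sz (l a) + 1) (bnd := fun _ => 0) (hl.size.add (PB.const 1)) (PB.const 0)
    (by
      intro a x hx st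
      have := sz_mem hx
      split
      · rw [sz_cons]; omega
      · omega)
  refine h.congr ?_
  intro a
  induction l a with
  | nil => rfl
  | cons x l ih =>
    rw [List.foldr_cons, ih]
    by_cases hx : f a x = true
    · rw [if_pos hx, List.filter_cons_of_pos hx]
    · rw [if_neg hx, List.filter_cons_of_neg hx]

theorem PF.find {l : α → List β} {f : α → β → Bool} (hl : PF l)
    (hf : PF (fun p : α × β => f p.1 p.2)) : PF (fun a => (l a).find? (f a)) := by
  have h := PF.foldrAdd (l := l) (s := fun _ => (none : Option β))
    (f := fun a x s => if f a x then some x else s) hl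
    (PF.const none) (PF.ite (hf.comp (PF.fst.pair (PF.fst.comp PF.snd)))
      (PF.mkSome (PF.fst.comp PF.snd)) (PF.snd.comp PF.snd))
    (inc := fun a => 0) (bnd := fun a => sz (l a) + 2) (PB.const 0) (hl.size.add (PB.const 2))
    (by
      intro a x hx st
      have := sz_mem hx
      split
      · rw [sz_some]; omega
      · omega)
  refine h.congr ?_
  intro a
  induction l a with
  | nil => rfl
  | cons x l ih =>
    rw [List.foldr_cons, ih]
    by_cases hx : f a x = true
    · rw [if_pos hx, List.find?_cons_of_pos hx]
    · rw [if_neg hx, List.find?_cons_of_neg hx]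

theorem PF.all {l : α → List β} {f : α → β → Bool} (hl : PF l)
    (hf : PF (fun p : α × β => f p.1 p.2)) : PF (fun a => (l a).all (f a)) := by
  have h := PF.foldrAdd (l := l) (s := fun _ => true)
    (f := fun a x s => f a x && s) hl
    (PF.const true) (PF.and (hf.comp (PF.fst.pair (PF.fst.comp PF.snd)))
      (PF.snd.comp PF.snd))
    (inc := fun a => 0) (bnd := fun a => 3) (PB.const 0) (PB.const 3)
    (by
      intro a x hx st
      exact (sz_bool _).trans (le_max_right _ _))
  refine h.congr ?_
  intro a
  induction l a with
  | nil => rfl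
  | cons x l ih => rw [List.foldr_cons, ih, List.all_cons]

theorem PF.any {l : α → List β} {f : α → β → Bool} (hl : PF l)
    (hf : PF (fun p : α × β => f p.1 p.2)) : PF (fun a => (l a).any (f a)) := by
  have h := PF.foldrAdd (l := l) (s := fun _ => false)
    (f := fun a x s => f a x || s) hl
    (PF.const false) (PF.or (hf.comp (PF.fst.pair (PF.fst.comp PF.snd)))
      (PF.snd.comp PF.snd))
    (inc := fun a => 0) (bnd := fun a => 3) (PB.const 0) (PB.const 3)
    (by
      intro a x hx st
      exact (sz_bool _).trans (le_max_right _ _))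
  refine h.congr ?_
  intro a
  induction l a with
  | nil => rfl
  | cons x l ih => rw [List.foldr_cons, ih, List.any_cons]

theorem PF.tail {l : α → List β} (hl : PF l) : PF (fun a => (l a).tail) :=
  (hl.listCase (g := fun _ => ([] : List β)) (h := fun _ _ t => t) (PF.const [])
    (PF.snd.comp PF.snd)).congr (fun a => by cases l a <;> rfl)

theorem PF.head? {l : α → List β} (hl : PF l) : PF (fun a => (l a).head?) :=
  (hl.listCase (g := fun _ => (none : Option β)) (h := fun _ x _ => some x) (PF.const none)
    (PF.mkSome (PF.fst.comp PF.snd))).congr (fun a => by cases l a <;> rfl)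

theorem PF.isEmpty {l : α → List β} (hl : PF l) : PF (fun a => (l a).isEmpty) :=
  (hl.listCase (g := fun _ => true) (h := fun _ _ _ => false) (PF.const true)
    (PF.const false)).congr (fun a => by cases l a <;> rfl)

theorem PF.headD {l : α → List β} {d : α → β} (hl : PF l) (hd : PF d) :
    PF (fun a => (l a).headD (d a)) :=
  (hl.listCase (g := d) (h := fun _ x _ => x) hd
    (PF.fst.comp PF.snd)).congr (fun a => by cases l a <;> rfl)

theorem sz_tail (l : List β) : sz l.tail ≤ sz l := by
  cases l with
  | nil => simp
  | cons x l => rw [sz_cons, List.tail_cons]; omega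

theorem PF.drop {n : α → ℕ} {l : α → List β} (hn : PF n) (hl : PF l) :
    PF (fun a => (l a).drop (n a)) := by
  have h := PF.iterateAdd (n := n) (s := l) (f := fun _ s => s.tail) hn hl
    (PF.tail PF.snd) (PB.const 0) (PB.const 0) (by
      intro a st
      have := sz_tail st
      omega)
  refine h.congr ?_
  intro a
  generalize n a = n
  generalize l a = l
  induction n generalizing l with
  | zero => rfl
  | succ n ih =>
    rw [Function.iterate_succ_apply, ih, List.drop_tail]

theorem PF.listGetD {n : α → ℕ} {l : α → List β} {d : α → β} (hn : PF n) (hl : PF l) (hd : PF d) :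
    PF (fun a => (l a).getD (n a) (d a)) := by
  refine ((PF.drop hn hl).headD hd).congr ?_
  intro a
  rw [List.headD_eq_head?_getD, List.head?_drop, List.getD_eq_getElem?_getD]

theorem PF.listGet? {n : α → ℕ} {l : α → List β} (hn : PF n) (hl : PF l) :
    PF (fun a => (l a)[n a]?) := by
  refine ((PF.drop hn hl).head?).congr ?_
  intro a
  rw [List.head?_drop]

theorem PF.length {l : α → List β} (hl : PF l) : PF (fun a => (l a).length) := by
  have h := PF.foldlAdd (l := l) (s := fun _ => 0) (f := fun _ s _ => s + 1) hl
    (PF.const 0) (PF.succ (PF.fst.comp PF.snd)) (inc := fun a => 2) (bnd := fun _ => 0)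
    (PB.const 2) (PB.const 0)
    (by
      intro a x hx st
      rw [sz_succ]; omega)
  refine h.congr ?_
  intro a
  have : ∀ (l : List β) (s : ℕ), l.foldl (fun s _ => s + 1) s = s + l.length := by
    intro l
    induction l with
    | nil => intro s; rfl
    | cons x l ih => intro s; rw [List.foldl_cons, ih, List.length_cons]; omega
  rw [this]; omega

theorem PF.replicate {n : α → ℕ} {x : α → β} (hn : PF n) (hx : PF x) :
    PF (fun a => List.replicate (n a) (x a)) := by
  have h := PF.map (l := fun a => List.replicate (n a) ()) (f := fun a _ => x a)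
    (PF.toList.comp hn) (hx.comp PF.fst)
  refine h.congr ?_
  intro a
  simp

/-! natural numbers (unary) -/

theorem PF.add {m n : α → ℕ} (hm : PF m) (hn : PF n) : PF (fun a => m a + n a) := by
  have h := PF.iterateAdd (n := m) (s := n) (f := fun _ s => s + 1) hm hn
    (PF.succ PF.snd) (PB.const 2) (PB.const 0) (by
      intro a st
      rw [sz_succ]; omega)
  refine h.congr ?_
  intro a
  generalize m a = m
  generalize n a = n
  induction m generalizing n with
  | zero => simp
  | succ m ih => rw [Function.iterate_succ_apply, ih]; omega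

theorem PF.pred {m : α → ℕ} (hm : PF m) : PF (fun a => m a - 1) :=
  (hm.natCase (g := fun _ => 0) (h := fun _ n => n) (PF.const 0) PF.snd).congr
    (fun a => by cases m a <;> rfl)

theorem PF.sub {m n : α → ℕ} (hm : PF m) (hn : PF n) : PF (fun a => m a - n a) := by
  have h := PF.iterateAdd (n := n) (s := m) (f := fun _ s => s - 1) hn hm
    (PF.pred PF.snd) (PB.const 0) (PB.const 0) (by
      intro a st
      rw [sz_nat, sz_nat]; omega)
  refine h.congr ?_
  intro a
  generalize m a = m
  generalize n a = n
  induction n generalizing m with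
  | zero => simp
  | succ n ih => rw [Function.iterate_succ_apply, ih]; omega

theorem PF.mul {m n : α → ℕ} (hm : PF m) (hn : PF n) : PF (fun a => m a * n a) := by
  have h := PF.iterateAdd (n := m) (s := fun _ => 0) (f := fun a s => s + n a) hm (PF.const 0)
    (PF.add PF.snd (hn.comp PF.fst)) (inc := fun a => sz (n a)) hn.size (PB.const 0) (by
      intro a st
      rw [sz_nat, sz_nat, sz_nat]; omega)
  refine h.congr ?_
  intro a
  generalize m a = m
  generalize n a = n
  have : ∀ s, (fun s => s + n)^[m] s = s + m * n := by
    induction m with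
    | zero => simp
    | succ m ih => intro s; rw [Function.iterate_succ_apply, ih, Nat.add_mul]; omega
  rw [this]; omega

theorem PF.isZero {m : α → ℕ} (hm : PF m) : PF (fun a => decide (m a = 0)) :=
  (hm.natCase (g := fun _ => true) (h := fun _ _ => false) (PF.const true)
    (PF.const false)).congr (fun a => by cases m a <;> simp)

theorem PF.le {m n : α → ℕ} (hm : PF m) (hn : PF n) : PF (fun a => decide (m a ≤ n a)) :=
  (PF.isZero (hm.sub hn)).congr (fun a => by
    by_cases h : m a ≤ n a
    · simp [h, Nat.sub_eq_zero_of_le h]
    · simp [h]; omega)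

theorem PF.lt {m n : α → ℕ} (hm : PF m) (hn : PF n) : PF (fun a => decide (m a < n a)) :=
  (PF.le hm.succ hn).congr (fun _ => rfl)

theorem PF.natEq {m n : α → ℕ} (hm : PF m) (hn : PF n) : PF (fun a => decide (m a = n a)) :=
  ((hm.le hn).and (hn.le hm)).congr (fun a => by
    by_cases h : m a = n a
    · simp [h]
    · by_cases h2 : m a ≤ n a
      · have : ¬ n a ≤ m a := by omega
        simp [h, this]
      · simp [h, h2])

theorem PF.min {m n : α → ℕ} (hm : PF m) (hn : PF n) : PF (fun a => min (m a) (n a)) :=
  (PF.ite (hm.le hn) hm hn).congr (fun a => by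
    by_cases h : m a ≤ n a
    · simp [h]
    · simp [h]; omega)

theorem range_eq_iterate (n : ℕ) : (fun l : List ℕ => l ++ [l.length])^[n] [] = List.range n := by
  induction n with
  | zero => rfl
  | succ n ih =>
    rw [Function.iterate_succ_apply', ih, List.range_succ, List.length_range]

theorem sz_range (n : ℕ) : sz (List.range n) ≤ (n + 1) * (2 * n + 2) := by
  have := sz_list_le (List.range n) (2 * n + 1) (by
    intro x hx
    have := List.mem_range.1 hx
    rw [sz_nat]; omega)
  rw [List.length_range] at this
  nlinarith

theorem PF.range {n : α → ℕ} (hn : PF n) : PF (fun a => List.range (n a)) := by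
  have h := PF.iterate (n := n) (s := fun _ => ([] : List ℕ))
    (f := fun _ l => l ++ [l.length]) hn (PF.const [])
    (PF.append PF.snd (PF.cons (PF.length PF.snd) (PF.const [])))
    (b := fun a => (n a + 1) * (2 * n a + 2))
    (((hn.size.mono (c := n) (fun a => by rw [sz_nat]; omega)).add (PB.const 1)).mul
      (((PB.const 2).mul (hn.size.mono (c := n) (fun a => by rw [sz_nat]; omega))).add
        (PB.const 2))) (by
      intro a j hj
      rw [range_eq_iterate]
      refine (sz_range j).trans ?_
      exact Nat.mul_le_mul (by omega) (by omega))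
  exact h.congr (fun a => range_eq_iterate (n a))

/-- list of booleans equality -/
theorem PF.beqStr {x y : α → List Bool} (hx : PF x) (hy : PF y) : PF (fun a => x a == y a) := by
  have h := PF.foldlAdd (l := x) (s := fun a => (y a, true))
    (f := fun _ s b => (s.1.tail, s.2 && (s.1.head? == some b))) hx
    (hy.pair (PF.const true))
    (PF.pair (PF.tail (PF.fst.comp (PF.fst.comp PF.snd)))
      (PF.and (PF.snd.comp (PF.fst.comp PF.snd))
        ((PF.optCase (g := fun _ => false) (h := fun p c => c == p.2.2)
          (PF.head? (PF.fst.comp (PF.fst.comp PF.snd))) (PF.const false)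
          (PF.beqBool PF.snd (PF.snd.comp (PF.snd.comp PF.fst)))).congr
            (g := fun p : α × (List Bool × Bool) × Bool => p.2.1.1.head? == some p.2.2) (by
              rintro ⟨a, ⟨l, c⟩, b⟩
              cases l with
              | nil => rfl
              | cons z l => simp only [List.head?_cons]; rfl))))
    (PB.const 3) (PB.const 0) (by
      intro a b _ st
      have h1 := sz_tail st.1
      have h2 := sz_bool (st.2 && (st.1.head? == some b))
      have h3 := sz_pos st.2
      rw [sz_pair, sz_prod st]
      omega)
  refine (PF.and (PF.snd.comp h) (PF.isEmpty (PF.fst.comp h))).congr ?_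
  intro a
  generalize x a = x
  generalize y a = y
  have key : ∀ (x y : List Bool) (c : Bool),
      ((List.foldl (fun (s : List Bool × Bool) b => (s.1.tail, s.2 && (s.1.head? == some b)))
        (y, c) x).2 &&
      (List.foldl (fun (s : List Bool × Bool) b => (s.1.tail, s.2 && (s.1.head? == some b)))
        (y, c) x).1.isEmpty) = (c && (x == y)) := by
    intro x
    induction x with
    | nil => intro y c; cases y <;> rfl
    | cons b x ih =>
      intro y c
      rw [List.foldl_cons, ih]
      cases y with
      | nil => cases c <;> cases x <;> rfl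
      | cons d y =>
        simp only [List.tail_cons, List.head?_cons]
        cases c <;> cases d <;> cases b <;> simp
  rw [key]; rfl

end lib

end Pool.Agent.H583R2
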