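import Pool.Agent.H583R2.Play

/-!
Martingales: the capital of a betting strategy on the adversarial language stays bounded.
-/

namespace Pool.Agent.H583R2

open Computability

def bq (b : Bool) : ℚ := if b then 1 else 0

/-- first `n` bits of the characteristic sequence -/
def pre (A : List Bool → Bool) (n : ℕ) : List Bool := (List.range n).map (fun j => A (str j))

/-- capital of the strategy `S` along `A` -/
def capi (S : List Bool → ℚ) (A : List Bool → Bool) : ℕ → ℚ
  | 0 => 1
  | n + 1 => 2 * |bq (A (str n)) - S (pre A n)| * capi S A n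

theorem capi_nonneg (S : List Bool → ℚ) (A : List Bool → Bool) (n : ℕ) : 0 ≤ capi S A n := by
  induction n with
  | zero => exact zero_le_one
  | succ n ih => exact mul_nonneg (by positivity) ih

theorem length_pre (A : List Bool → Bool) (n : ℕ) : (pre A n).length = n := by
  unfold pre; rw [List.length_map, List.length_range]

/-- `F` represents the strategy `S` by fractions -/
def Rep (F : List Bool → ℕ × ℕ) (S : List Bool → ℚ) : Prop :=
  ∀ w, 0 < (F w).2 ∧ (F w).1 ≤ (F w).2 ∧ S w = ((F w).1 : ℚ) / ((F w).2 : ℚ)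

section
variable {F : List Bool → ℕ × ℕ} {S : List Bool → ℚ} {k : ℕ}

theorem Rep.mul (h : Rep F S) (w : List Bool) : S w * ((F w).2 : ℚ) = ((F w).1 : ℚ) := by
  obtain ⟨h1, _, h3⟩ := h w
  rw [h3]
  have : ((F w).2 : ℚ) ≠ 0 := by exact_mod_cast h1.ne'
  field_simp

theorem Rep.bounds (h : Rep F S) (w : List Bool) : 0 ≤ S w ∧ S w ≤ 1 := by
  obtain ⟨h1, h2, h3⟩ := h w
  have h4 : (0 : ℚ) < ((F w).2 : ℚ) := by exact_mod_cast h1
  have h5 : ((F w).1 : ℚ) ≤ ((F w).2 : ℚ) := by exact_mod_cast h2
  rw [h3]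
  refine ⟨by positivity, ?_⟩
  rw [div_le_one h4]
  exact h5

theorem step_le (a : ℚ) (b : Bool) (s : ℚ) (hb : b = true → 2 * (1 - s) ≤ a)
    (hf : b = false → 2 * s ≤ a) (h0 : 0 ≤ s) (h1 : s ≤ 1) : 2 * |bq b - s| ≤ a := by
  cases b with
  | true =>
    have e : bq true - s = 1 - s := rfl
    rw [e, abs_of_nonneg (by linarith)]
    exact hb rfl
  | false =>
    have e : bq false - s = -s := by unfold bq; simp
    rw [e, abs_neg, abs_of_nonneg h0]
    exact hf rfl

theorem capi_step (A : List Bool → Bool) (L : ℕ) (a : ℚ)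
    (h : 2 * |bq (A (str L)) - S (pre A L)| ≤ a) : capi S A (L + 1) ≤ a * capi S A L :=
  mul_le_mul_of_nonneg_right h (capi_nonneg _ _ _)

theorem two_step (h : Rep F S) (A : List Bool → Bool) (L : ℕ) :
    capi S A (L + 1) ≤ 2 * capi S A L := by
  obtain ⟨h1, h2⟩ := h.bounds (pre A L)
  exact capi_step A L 2 (step_le _ _ _ (fun _ => by linarith) (fun _ => by linarith) h1 h2)

theorem pre_RR (L : ℕ) : pre (RR F k) L = Rpre F k L := (Rpre_eq F k L).symm

theorem RR_none {L : ℕ} (he : exT k L = none) :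
    RR F k (str L) = advB (encPair (F (Rpre F k L))) := by
  unfold RR
  rw [idx_str, he]
  rfl

theorem adv_le (h : Rep F S) (w : List Bool) :
    (advB (encPair (F w)) = true → 1 ≤ 2 * S w) ∧
      (advB (encPair (F w)) = false → 2 * S w ≤ 1) := by
  have h1 := h.mul w
  have h2 : (0 : ℚ) < ((F w).2 : ℚ) := by exact_mod_cast (h w).1
  have h3 := advB_iff (F w).1 (F w).2
  rw [show ((F w).1, (F w).2) = F w from rfl] at h3
  constructor
  · intro ht
    have h4 : ((F w).2 : ℚ) ≤ 2 * ((F w).1 : ℚ) := by exact_mod_cast h3.1 ht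
    rw [← h1] at h4
    by_contra hc
    nlinarith
  · intro hf
    have h5 : ¬ (F w).2 ≤ 2 * (F w).1 := by
      intro h6
      rw [h3.2 h6] at hf
      exact absurd hf (by decide)
    have h4 : 2 * ((F w).1 : ℚ) ≤ ((F w).2 : ℚ) := by
      have : 2 * (F w).1 ≤ (F w).2 := by omega
      exact_mod_cast this
    rw [← h1] at h4
    by_contra hc
    nlinarith

theorem adv_step (h : Rep F S) {L : ℕ} (he : exT k L = none) :
    capi S (RR F k) (L + 1) ≤ capi S (RR F k) L := by
  have := capi_step (S := S) (RR F k) L 1 ?_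
  · simpa using this
  obtain ⟨h1, h2⟩ := h.bounds (pre (RR F k) L)
  rw [pre_RR] at h1 h2 ⊢
  rw [RR_none he]
  obtain ⟨h3, h4⟩ := adv_le h (Rpre F k L)
  exact step_le _ _ _ (fun hb => by linarith [h3 hb]) (fun hb => by linarith [h4 hb]) h1 h2

theorem low_iff (h : Rep F S) {n : ℕ} (hn : 1 ≤ n) (w : List Bool) :
    lowB n (encPair (F w)) = true ↔
      2 * S w ≤ 1 + 1 / (n : ℚ) ∧ 1 - 1 / (n : ℚ) ≤ 2 * S w := by
  have h1 := h.mul w
  have h2 : (0 : ℚ) < ((F w).2 : ℚ) := by exact_mod_cast (h w).1
  have h3 := lowB_iff n (F w).1 (F w).2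
  rw [show ((F w).1, (F w).2) = F w from rfl] at h3
  rw [h3]
  have hn' : (0 : ℚ) < (n : ℚ) := by exact_mod_cast hn
  have e1 : n * (2 * (F w).1) ≤ (n + 1) * (F w).2 ↔ 2 * S w ≤ 1 + 1 / (n : ℚ) := by
    rw [← Nat.cast_le (α := ℚ)]
    push_cast
    rw [← h1]
    have e : (1 : ℚ) + 1 / n = (n + 1) / n := by field_simp
    rw [e, le_div_iff₀ hn']
    constructor
    · intro h5
      by_contra hc
      nlinarith
    · intro h5
      nlinarith
  have e2 : (n - 1) * (F w).2 ≤ n * (2 * (F w).1) ↔ 1 - 1 / (n : ℚ) ≤ 2 * S w := by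
    rw [← Nat.cast_le (α := ℚ)]
    push_cast
    rw [Nat.cast_sub hn, ← h1]
    have e : (1 : ℚ) - 1 / n = (n - 1) / n := by field_simp
    rw [e, div_le_iff₀ hn']
    push_cast
    constructor
    · intro h5
      by_contra hc
      nlinarith
    · intro h5
      nlinarith
  rw [e1, e2]

theorem low_step (h : Rep F S) {n L : ℕ} (hn : 1 ≤ n)
    (hl : lowB n (encPair (F (Rpre F k L))) = true) :
    capi S (RR F k) (L + 1) ≤ (1 + 1 / (n : ℚ)) * capi S (RR F k) L := by
  obtain ⟨h3, h4⟩ := (low_iff h hn _).1 hl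
  obtain ⟨h1, h2⟩ := h.bounds (pre (RR F k) L)
  refine capi_step _ _ _ ?_
  rw [pre_RR] at h1 h2 ⊢
  exact step_le _ _ _ (fun hb => by linarith) (fun hb => by linarith) h1 h2

theorem notlow_step (h : Rep F S) {n L : ℕ} (hn : 1 ≤ n)
    (hl : ¬ lowB n (encPair (F (Rpre F k L))) = true) (he : exT k L = none) :
    capi S (RR F k) (L + 1) ≤ (1 - 1 / (n : ℚ)) * capi S (RR F k) L := by
  rw [low_iff h hn, not_and_or, not_le, not_le] at hl
  obtain ⟨h1, h2⟩ := h.bounds (pre (RR F k) L)
  refine capi_step _ _ _ ?_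
  rw [pre_RR] at h1 h2 ⊢
  rw [RR_none he]
  obtain ⟨h3, h4⟩ := adv_le h (Rpre F k L)
  have hn' : (0 : ℚ) < 1 / (n : ℚ) := by
    have : (0 : ℚ) < (n : ℚ) := by exact_mod_cast hn
    positivity
  refine step_le _ _ _ (fun hb => ?_) (fun hb => ?_) h1 h2
  · have := h3 hb
    rcases hl with hl | hl <;> linarith
  · have := h4 hb
    rcases hl with hl | hl <;> linarith

theorem mono_range (h : Rep F S) (a : ℕ) (b : ℕ) (hab : a ≤ b)
    (he : ∀ j, a ≤ j → j < b → exT k j = none) :
    capi S (RR F k) b ≤ capi S (RR F k) a := by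
  induction b, hab using Nat.le_induction with
  | base => exact le_refl _
  | succ b hb ih =>
    exact (adv_step h (he b hb (Nat.lt_succ_self b))).trans
      (ih (fun j h1 h2 => he j h1 (by omega)))

theorem notlow_range (h : Rep F S) {n : ℕ} (hn : 1 ≤ n) (a : ℕ) (i : ℕ)
    (he : ∀ j, a ≤ j → j < a + i → exT k j = none)
    (hl : ∀ j, a ≤ j → j < a + i → ¬ lowB n (encPair (F (Rpre F k j))) = true) :
    capi S (RR F k) (a + i) ≤ (1 - 1 / (n : ℚ)) ^ i * capi S (RR F k) a := by
  have hn' : (0 : ℚ) ≤ 1 - 1 / (n : ℚ) := by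
    have h0 : (1 : ℚ) ≤ (n : ℚ) := by exact_mod_cast hn
    rw [sub_nonneg, div_le_one (by linarith)]
    exact h0
  induction i with
  | zero => simp
  | succ i ih =>
    have h1 := ih (fun j h1 h2 => he j h1 (by omega)) (fun j h1 h2 => hl j h1 (by omega))
    have h2 := notlow_step h hn (hl (a + i) (by omega) (by omega)) (he (a + i) (by omega) (by omega))
    rw [pow_succ]
    calc capi S (RR F k) (a + (i + 1)) ≤ (1 - 1 / (n : ℚ)) * capi S (RR F k) (a + i) := h2
      _ ≤ (1 - 1 / (n : ℚ)) * ((1 - 1 / (n : ℚ)) ^ i * capi S (RR F k) a) :=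
        mul_le_mul_of_nonneg_left h1 hn'
      _ = _ := by ring

theorem pow_half {n m : ℕ} (hn : 1 ≤ n) (hm : n ≤ m) : 2 * (1 - 1 / (n : ℚ)) ^ m ≤ 1 := by
  have h0 : (1 : ℚ) ≤ (n : ℚ) := by exact_mod_cast hn
  have h1 : (0 : ℚ) < (n : ℚ) := by linarith
  set x : ℚ := 1 / (n : ℚ) with hx
  have hx0 : 0 < x := by positivity
  have hx1 : x ≤ 1 := by rw [hx, div_le_one h1]; exact h0
  have h2 : (1 - x) ^ m * (1 + x) ^ m ≤ 1 := by
    rw [← mul_pow]
    refine pow_le_one₀ ?_ ?_
    · nlinarith
    · nlinarith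
  have h3 : 2 ≤ (1 + x) ^ m := by
    have h4 := one_add_mul_le_pow (a := x) (by linarith) m
    have h5 : (n : ℚ) ≤ (m : ℚ) := by exact_mod_cast hm
    have h6 : (n : ℚ) * x = 1 := by rw [hx]; field_simp
    nlinarith
  have h4 : 0 ≤ (1 - x) ^ m := pow_nonneg (by linarith) m
  nlinarith

theorem look_stage {s p q : ℕ} (hp : p ≤ rP (recS s)) (hc : rC (recS s) = false)
    (hq : q < p) : lookE (exs k (hist s)) q = exT k q := by
  refine look_eq ?_
  intro s' b hs' he
  have h1 := rP_mem hc
  rw [mem_posM] at h1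
  rcases Nat.eq_or_lt_of_le hs' with h | h
  · subst h
    have := he.2.2.1
    omega
  · have h2 := he.bounds
    have h3 := pow_nn_le h
    rw [pow_succ] at h3
    omega

theorem low_agree (hF : GoodD (mD k).1 (mD k).2 F) {s p : ℕ} (hs : (mR (blk s)).1 = k)
    (hc : rC (recS s) = false) (hp : p ≤ rP (recS s)) :
    gv (cD (blk s)) (play (cD (blk s)) (exs (mR (blk s)).1 (hist s)) (cap s) p) (cap s) =
      encPair (F (Rpre F k p)) := by
  have h1 := rP_mem hc
  rw [mem_posM] at h1
  have h2 : p ≤ 2 ^ (nn s + 1) := by rw [pow_succ]; omega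
  rw [hs, play_eq (F := F) (k := k) p]
  · exact hF.stage hs (by rw [length_Rpre]; exact h2)
  · intro w hw
    exact hF.stage hs (by omega)
  · intro q hq
    exact look_stage hp hc hq

theorem bound_aux (hF : GoodD (mD k).1 (mD k).2 F) (h : Rep F S) (s : ℕ) :
    ∀ L, L + 1 ≤ 2 ^ nn s → capi S (RR F k) L ≤ 2 - (1 / 2) ^ s := by
  induction s with
  | zero =>
    intro L hL
    have := mono_range h (k := k) 0 L (Nat.zero_le _) (by
      intro j _ hj
      rcases he : exT k j with _ | b
      · rfl
      · obtain ⟨s', hs'⟩ := exT_some.1 he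
        have h1 := hs'.bounds.1
        have h2 : 2 ^ nn 0 ≤ 2 ^ nn s' :=
          Nat.pow_le_pow_right (by norm_num) (nn_strictMono.monotone (Nat.zero_le _))
        omega)
    refine this.trans ?_
    change (1 : ℚ) ≤ _
    norm_num
  | succ s ih =>
    intro L hL
    have hpos : (0 : ℚ) < (1 / 2) ^ s := by positivity
    have hps : ((1 : ℚ) / 2) ^ (s + 1) = (1 / 2) ^ s / 2 := by rw [pow_succ]; ring
    have hone : 1 ≤ 2 ^ nn s := Nat.one_le_two_pow
    have hn1 : 1 ≤ nn s := by have := lt_nn s; omega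
    by_cases hL2 : L + 1 ≤ 2 ^ nn s
    · have := ih L hL2
      rw [hps]; linarith
    -- generic absence of exceptions
    have hno : ∀ j, 2 ^ nn s ≤ j + 1 → j + 1 < 2 ^ nn (s + 1) →
        (∀ b, ¬ ExS k s j b) → exT k j = none := by
      intro j h1 h2 h3
      rcases he : exT k j with _ | b
      · rfl
      · obtain ⟨s', hs'⟩ := exT_some.1 he
        have h4 := hs'.bounds
        rcases lt_trichotomy s' s with hl | hl | hl
        · have := pow_nn_le hl
          omega
        · subst hl
          exact absurd hs' (h3 b)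
        · have h5 : 2 ^ nn (s + 1) ≤ 2 ^ nn s' :=
            Nat.pow_le_pow_right (by norm_num) (nn_strictMono.monotone hl)
          omega
    have hKa := ih (2 ^ nn s - 1) (by omega)
    by_cases hex : ∃ p b, ExS k s p b
    · obtain ⟨p, b, he⟩ := hex
      have hb := he.bounds
      have huniq : ∀ j b', ExS k s j b' → j = p := by
        intro j b' h'
        rw [← h'.2.2.1, ← he.2.2.1]
      have hno2 : ∀ j, 2 ^ nn s ≤ j + 1 → j + 1 < 2 ^ nn (s + 1) → j ≠ p → exT k j = none :=
        fun j h1 h2 h3 => hno j h1 h2 (fun b' hh => h3 (huniq j b' hh))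
      by_cases hLp : L ≤ p
      · have := mono_range h (k := k) (2 ^ nn s - 1) L (by omega)
          (fun j h1 h2 => hno2 j (by omega) (by omega) (by omega))
        rw [hps]; linarith
      · have h1 := mono_range h (k := k) (p + 1) L (by omega)
          (fun j h1 h2 => hno2 j (by omega) (by omega) (by omega))
        have hpn : 2 ^ (nn s + 1) ≤ 2 ^ nn (s + 1) := pow_nn_le (Nat.lt_succ_self s)
        -- bound at p + 1
        have hs1 : srch (blk s) (2 ^ nn s) (cap s) (th s) = none := by
          rcases hh : srch (blk s) (2 ^ nn s) (cap s) (th s) with _ | p'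
          · rfl
          · have h2 := (rC_recS s).2 ⟨p', hh⟩
            rw [he.1] at h2
            exact absurd h2 (by decide)
        have hP : rP (recS s) = exPos (blk s) (nn s) (2 ^ nn s) (cap s) (hist s) := by
          rw [recS_case1 hs1]; rfl
        have hagree : ∀ j, j ≤ rP (recS s) → gv (cD (blk s)) (play (cD (blk s))
            (exs (mR (blk s)).1 (hist s)) (cap s) j) (cap s) = encPair (F (Rpre F k j)) :=
          fun j hj => low_agree hF he.2.1 he.1 hj
        have hk2 : capi S (RR F k) (p + 1) ≤ (1 + 1 / (nn s : ℚ)) *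
            capi S (RR F k) (2 ^ nn s - 1) := by
          rcases hfind : (posM (2 ^ nn s)).find? (fun p => lowB (nn s) (gv (cD (blk s))
            (play (cD (blk s)) (exs (mR (blk s)).1 (hist s)) (cap s) p) (cap s))) with _ | p'
          · -- no low bet
            have hp2 : rP (recS s) = 2 * 2 ^ nn s - 2 := by
              rw [hP]; unfold exPos; rw [hfind]; rfl
            have hp3 : p = (2 ^ nn s - 1) + (2 ^ nn s - 1) := by
              rw [← he.2.2.1, hp2]; omega
            have h3 := notlow_range h (k := k) hn1 (2 ^ nn s - 1) (2 ^ nn s - 1)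
              (fun j h1 h2 => hno2 j (by omega) (by rw [pow_succ] at hpn; omega) (by omega))
              (fun j h1 h2 => by
                have h4 := List.find?_eq_none.1 hfind j (mem_posM.2 ⟨by omega, by omega⟩)
                rwa [hagree j (by rw [hp2]; omega)] at h4)
            have h4 := two_step h (RR F k) p
            rw [← hp3] at h3
            have h5 := pow_half (n := nn s) (m := 2 ^ nn s - 1) hn1 (by
              have := Nat.lt_two_pow_self (n := nn s); omega)
            have h6 := capi_nonneg S (RR F k) (2 ^ nn s - 1)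
            have h7 : capi S (RR F k) (p + 1) ≤ 1 * capi S (RR F k) (2 ^ nn s - 1) :=
              calc capi S (RR F k) (p + 1) ≤ 2 * capi S (RR F k) p := h4
                _ ≤ 2 * ((1 - 1 / (nn s : ℚ)) ^ (2 ^ nn s - 1) *
                    capi S (RR F k) (2 ^ nn s - 1)) := by linarith
                _ = (2 * (1 - 1 / (nn s : ℚ)) ^ (2 ^ nn s - 1)) *
                    capi S (RR F k) (2 ^ nn s - 1) := by ring
                _ ≤ 1 * capi S (RR F k) (2 ^ nn s - 1) := mul_le_mul_of_nonneg_right h5 h6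
            refine h7.trans (mul_le_mul_of_nonneg_right ?_ h6)
            have : (0 : ℚ) ≤ 1 / (nn s : ℚ) := by positivity
            linarith
          · -- low bet at p'
            have hp2 : rP (recS s) = p' := by
              rw [hP]; unfold exPos; rw [hfind]; rfl
            have hpp : p = p' := by rw [← he.2.2.1, hp2]
            have h3 := List.find?_some hfind
            rw [← hpp, hagree p (by rw [hp2, hpp])] at h3
            have h4 := low_step h hn1 h3
            have h5 := mono_range h (k := k) (2 ^ nn s - 1) p (by omega)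
              (fun j h1 h2 => hno2 j (by omega) (by omega) (by omega))
            refine h4.trans (mul_le_mul_of_nonneg_left h5 (by positivity))
        have hbig : (2 : ℚ) ^ (s + 2) ≤ (nn s : ℚ) := by
          have h2 := two_pow_le_nn s
          have h3 : 2 ^ (s + 2) ≤ 2 ^ (s + 16) := Nat.pow_le_pow_right (by norm_num) (by omega)
          exact_mod_cast h3.trans h2
        have hinv : 1 / (nn s : ℚ) ≤ (1 / 2) ^ s / 4 := by
          have h2 : (0 : ℚ) < 2 ^ (s + 2) := by positivity
          calc 1 / (nn s : ℚ) ≤ 1 / 2 ^ (s + 2) := one_div_le_one_div_of_le h2 hbig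
            _ = (1 / 2) ^ s / 4 := by rw [pow_add, div_pow]; norm_num; ring
        have h6 := capi_nonneg S (RR F k) (2 ^ nn s - 1)
        rw [hps]
        have h7 : 1 / (nn s : ℚ) * capi S (RR F k) (2 ^ nn s - 1) ≤
            ((1 / 2) ^ s / 4) * 2 := by
          refine mul_le_mul hinv (by linarith) h6 (by positivity)
        nlinarith
    · push_neg at hex
      have := mono_range h (k := k) (2 ^ nn s - 1) L (by omega)
        (fun j h1 h2 => hno j (by omega) (by omega) (fun b => hex j b))
      rw [hps]; linarith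

/-- the capital of the strategy on the adversarial language is bounded -/
theorem capi_bounded (hF : GoodD (mD k).1 (mD k).2 F) (h : Rep F S) (L : ℕ) :
    capi S (RR F k) L ≤ 2 := by
  have h1 := bound_aux hF h L L (by
    have h1 := lt_nn L
    have h2 := Nat.lt_two_pow_self (n := nn L)
    omega)
  have : (0 : ℚ) < (1 / 2) ^ L := by positivity
  linarith

end

end Pool.Agent.H583R2
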