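import Pool.Agent.H583R2.Constr

/-!
The languages `RR F k`, and the requirement lemma.
-/

namespace Pool.Agent.H583R2

open Computability

theorem exPos_mem (r n M f : ℕ) (H : List Rec) (hM : 1 ≤ M) : exPos r n M f H ∈ posM M := by
  unfold exPos
  rcases h : (posM M).find? (fun p => lowB n (gv (cD r) (play (cD r) (exs (mR r).1 H) f p) f))
    with _ | p
  · rw [mem_posM, Option.getD_none]; omega
  · rw [Option.getD_some]; exact List.mem_of_find?_eq_some h

theorem rP_mem {s : ℕ} (h : rC (recS s) = false) : rP (recS s) ∈ posM (2 ^ nn s) := by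
  rcases hs : srch (blk s) (2 ^ nn s) (cap s) (th s) with _ | p
  · rw [recS_case1 hs]
    exact exPos_mem _ _ _ _ _ Nat.one_le_two_pow
  · have := (rC_recS s).2 ⟨p, hs⟩
    rw [this] at h
    exact absurd h (by decide)

/-- exception of `k` at stage `s` -/
def ExS (k s p : ℕ) (b : Bool) : Prop :=
  rC (recS s) = false ∧ (mR (blk s)).1 = k ∧ rP (recS s) = p ∧ rB (recS s) = b

theorem ExS.bounds {k s p : ℕ} {b : Bool} (h : ExS k s p b) :
    2 ^ nn s ≤ p + 1 ∧ p + 2 ≤ 2 ^ (nn s + 1) := by
  have h1 := rP_mem h.1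
  rw [h.2.2.1, mem_posM] at h1
  have : 1 ≤ 2 ^ nn s := Nat.one_le_two_pow
  rw [pow_succ]
  omega

theorem ExS.lt {k s p : ℕ} {b : Bool} (h : ExS k s p b) : s < p := by
  have h1 := h.bounds.1
  have h2 := lt_nn s
  have h3 := Nat.lt_two_pow_self (n := nn s)
  omega

theorem pow_nn_le {s S : ℕ} (h : s < S) : 2 ^ (nn s + 1) ≤ 2 ^ nn S :=
  Nat.pow_le_pow_right (by norm_num) (nn_strictMono h)

theorem ExS.unique {k k' s s' p : ℕ} {b b' : Bool} (h : ExS k s p b) (h' : ExS k' s' p b') :
    s = s' := by
  have h1 := h.bounds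
  have h2 := h'.bounds
  rcases lt_trichotomy s s' with hl | hl | hl
  · exfalso; have := pow_nn_le hl; omega
  · exact hl
  · exfalso; have := pow_nn_le hl; omega

theorem lookE_some {k S p : ℕ} {b : Bool} :
    lookE (exs k (hist S)) p = some b ↔ ∃ s, s < S ∧ ExS k s p b := by
  constructor
  · intro h
    unfold lookE at h
    rw [Option.map_eq_some_iff] at h
    obtain ⟨q, h1, h2⟩ := h
    have h3 := List.find?_some h1
    have h4 := List.mem_of_find?_eq_some h1
    unfold exs at h4
    rw [hist_eq] at h4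
    obtain ⟨x, h5, h6⟩ := List.mem_map.1 h4
    obtain ⟨h7, h8⟩ := List.mem_filter.1 h5
    obtain ⟨s, h9, rfl⟩ := List.mem_map.1 h7
    simp only [Bool.and_eq_true, Bool.not_eq_true', decide_eq_true_eq] at h8 h3
    refine ⟨s, List.mem_range.1 h9, h8.1, ?_, ?_, ?_⟩
    · rw [← rR_recS s]; exact h8.2
    · rw [← h6] at h3; exact h3
    · rw [← h6] at h2; exact h2
  · rintro ⟨s, h1, h2⟩
    have hmem : (p, b) ∈ exs k (hist S) := by
      unfold exs
      rw [hist_eq]
      refine List.mem_map.2 ⟨recS s, List.mem_filter.2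
        ⟨List.mem_map.2 ⟨s, List.mem_range.2 h1, rfl⟩, ?_⟩, ?_⟩
      · simp only [Bool.and_eq_true, Bool.not_eq_true', decide_eq_true_eq]
        rw [rR_recS s]
        exact ⟨h2.1, h2.2.1⟩
      · rw [h2.2.2.1, h2.2.2.2]
    unfold lookE
    rcases hf : (exs k (hist S)).find? (fun q => decide (q.1 = p)) with _ | q
    · exfalso
      have := List.find?_eq_none.1 hf (p, b) hmem
      simp at this
    · have h3 := List.find?_some hf
      have h4 := List.mem_of_find?_eq_some hf
      unfold exs at h4
      rw [hist_eq] at h4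
      obtain ⟨x, h5, h6⟩ := List.mem_map.1 h4
      obtain ⟨h7, h8⟩ := List.mem_filter.1 h5
      obtain ⟨s', h9, rfl⟩ := List.mem_map.1 h7
      simp only [Bool.and_eq_true, Bool.not_eq_true', decide_eq_true_eq] at h8 h3
      have h10 : ExS k s' p (rB (recS s')) :=
        ⟨h8.1, by rw [← rR_recS s']; exact h8.2, by rw [← h6] at h3; exact h3, rfl⟩
      have h11 := h2.unique h10
      subst h11
      rw [hf, ← h6]
      simp only [Option.map_some]
      rw [h2.2.2.2]

/-- the table of exceptions -/
def exT (k p : ℕ) : Option Bool := lookE (exs k (hist (p + 1))) p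

theorem exT_some {k p : ℕ} {b : Bool} : exT k p = some b ↔ ∃ s, ExS k s p b := by
  unfold exT
  rw [lookE_some]
  constructor
  · rintro ⟨s, _, h⟩; exact ⟨s, h⟩
  · rintro ⟨s, h⟩; exact ⟨s, by have := h.lt; omega, h⟩

/-- the history up to `S` knows the exception table at `p`
as soon as no later stage has its exception at `p` -/
theorem look_eq {k S p : ℕ} (h : ∀ s b, S ≤ s → ¬ ExS k s p b) :
    lookE (exs k (hist S)) p = exT k p := by
  ext b
  rw [lookE_some, exT_some]
  constructor
  · rintro ⟨s, _, h⟩; exact ⟨s, h⟩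
  · rintro ⟨s, h'⟩
    refine ⟨s, ?_, h'⟩
    by_contra hc
    exact h s b (by omega) h'

theorem look_lt {k S p : ℕ} (h : p + 1 < 2 ^ nn S) : lookE (exs k (hist S)) p = exT k p := by
  refine look_eq ?_
  intro s b hs he
  have h1 := he.bounds
  have h2 : 2 ^ nn S ≤ 2 ^ nn s :=
    Nat.pow_le_pow_right (by norm_num) (nn_strictMono.monotone hs)
  omega

/-- prefix of the characteristic sequence of the adversarial language -/
def Rpre (F : List Bool → ℕ × ℕ) (k : ℕ) (L : ℕ) : List Bool :=
  (fun w => w ++ [(exT k w.length).getD (advB (encPair (F w)))])^[L] []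

/-- the adversarial language -/
def RR (F : List Bool → ℕ × ℕ) (k : ℕ) (x : List Bool) : Bool :=
  (exT k (idx x)).getD (advB (encPair (F (Rpre F k (idx x)))))

theorem length_Rpre (F : List Bool → ℕ × ℕ) (k L : ℕ) : (Rpre F k L).length = L := by
  unfold Rpre
  induction L with
  | zero => rfl
  | succ L ih => rw [Function.iterate_succ_apply', List.length_append, ih]; rfl

theorem Rpre_succ (F : List Bool → ℕ × ℕ) (k L : ℕ) :
    Rpre F k (L + 1) = Rpre F k L ++ [RR F k (str L)] := by
  have h := length_Rpre F k L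
  unfold Rpre at h ⊢
  rw [Function.iterate_succ_apply']
  unfold RR
  rw [idx_str, h]
  rfl

theorem Rpre_eq (F : List Bool → ℕ × ℕ) (k L : ℕ) :
    Rpre F k L = (List.range L).map (fun j => RR F k (str j)) := by
  induction L with
  | zero => rfl
  | succ L ih => rw [Rpre_succ, List.range_succ, List.map_append, ih]; rfl

theorem length_play (c : Code) (ex : List (ℕ × Bool)) (f L : ℕ) : (play c ex f L).length = L := by
  unfold play
  induction L with
  | zero => rfl
  | succ L ih => rw [Function.iterate_succ_apply', List.length_append, ih]; rfl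

theorem play_eq {F : List Bool → ℕ × ℕ} {k : ℕ} {c : Code} {ex : List (ℕ × Bool)} {f : ℕ} (L : ℕ)
    (h1 : ∀ w : List Bool, w.length < L → gv c w f = encPair (F w))
    (h2 : ∀ p, p < L → lookE ex p = exT k p) : play c ex f L = Rpre F k L := by
  induction L with
  | zero => rfl
  | succ L ih =>
    have ih' := ih (fun w hw => h1 w (by omega)) (fun p hp => h2 p (by omega))
    have e1 : play c ex f (L + 1) = play c ex f L ++ [nextB c ex f (play c ex f L)] := by
      unfold play
      rw [Function.iterate_succ_apply']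
    have e2 : Rpre F k (L + 1) = Rpre F k L ++
        [(exT k (Rpre F k L).length).getD (advB (encPair (F (Rpre F k L))))] := by
      unfold Rpre
      rw [Function.iterate_succ_apply']
    rw [e1, e2, ih']
    unfold nextB
    rw [length_Rpre, h1 _ (by rw [length_Rpre]; omega), h2 L (by omega)]

theorem next_eq {F : List Bool → ℕ × ℕ} {k : ℕ} {c : Code} {ex : List (ℕ × Bool)} {f : ℕ} (L : ℕ)
    (h1 : ∀ w : List Bool, w.length ≤ L → gv c w f = encPair (F w))
    (h2 : ∀ p, p ≤ L → lookE ex p = exT k p) :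
    nextB c ex f (play c ex f L) = RR F k (str L) := by
  rw [play_eq L (fun w hw => h1 w hw.le) (fun p hp => h2 p hp.le)]
  unfold nextB RR
  rw [length_Rpre, h1 _ (by rw [length_Rpre]), h2 L le_rfl, idx_str]

/-- the code `c` with exponent `κ` computes the strategy `F` -/
def GoodD (c : Code) (κ : ℕ) (F : List Bool → ℕ × ℕ) : Prop :=
  ∀ n, 2 ≤ n → ∀ w : List Bool, w.length ≤ 2 ^ (n + 1) → ∀ f, 2 ^ (n ^ (κ + 1)) ≤ f →
    gv c w f = encPair (F w)

/-- the code `c` computes `g` on long inputs -/
def GoodG (c : Code) (g : List Bool → List Bool) : Prop :=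
  ∃ n0, ∀ x : List Bool, n0 ≤ x.length → ∀ f, 2 ^ x.length ≤ f → gv c x f = g x

theorem GoodD.stage {k : ℕ} {F : List Bool → ℕ × ℕ} (h : GoodD (mD k).1 (mD k).2 F) {s : ℕ}
    (hs : (mR (blk s)).1 = k) {w : List Bool} (hw : w.length ≤ 2 ^ (nn s + 1)) :
    gv (cD (blk s)) w (cap s) = encPair (F w) := by
  have h1 := lt_nn s
  have e : cD (blk s) = (mD k).1 := by unfold cD; rw [hs]
  rw [e]
  refine h (nn s) (by omega) w hw _ ?_
  unfold cap
  have : ka (blk s) = (mD k).2 := by unfold ka; rw [hs]
  rw [this]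

theorem th_lt_th {s s' : ℕ} (h : s < s') : th s < th s' := by
  have h1 := nn_le_of_lt h
  have h2 := master s
  have h3 := nn_le_th s'
  have h4 := Nat.lt_two_pow_self (n := 2 * th s + 1)
  omega

/-- a stage in case 1 diagonalizes -/
theorem case1_diag {k s : ℕ} {F : List Bool → ℕ × ℕ} {g : List Bool → List Bool}
    (hs : (mR (blk s)).1 = k) (hc : rC (recS s) = false)
    (hg : ∀ x : List Bool, x.length = nn s → gv (mR (blk s)).2 x (cap s) = g x) :
    ∃ x, RR F k x ≠ AA (g x) := by
  have hsr : srch (blk s) (2 ^ nn s) (cap s) (th s) = none := by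
    rcases h : srch (blk s) (2 ^ nn s) (cap s) (th s) with _ | p
    · rfl
    · have := (rC_recS s).2 ⟨p, h⟩
      rw [this] at hc; exact absurd hc (by decide)
  have hp := rP_mem hc
  have hl := length_str_posM hp
  set p := rP (recS s) with hpdef
  refine ⟨str p, ?_⟩
  have hshort : (g (str p)).length < th s := by
    unfold srch at hsr
    have := List.find?_eq_none.1 hsr p hp
    simp only [decide_eq_true_eq, not_le] at this
    rwa [hg _ hl] at this
  have hAv : Av Bv (hist s) (g (str p)) = AA (g (str p)) := by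
    refine Av_hist ?_
    intro s' hs' hm
    have h1 := (loc_bounds hm.1).1
    rw [hm.2.2] at h1
    rcases Nat.eq_or_lt_of_le hs' with h | h
    · rw [h] at hshort; omega
    · have := th_lt_th h; omega
  have hB : rB (recS s) = !(AA (g (str p))) := by
    rw [← hAv, ← hg _ hl, hpdef, recS_case1 hsr]
    rfl
  have hE : exT k p = some (!(AA (g (str p)))) := exT_some.2 ⟨s, hc, hs, rfl, hB⟩
  have hR : RR F k (str p) = !(AA (g (str p))) := by
    unfold RR
    rw [idx_str, hE]
    rfl
  rw [hR]
  cases AA (g (str p)) <;> decide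

/-- the data of a stage in case 2 -/
theorem case2_data {k s : ℕ} {F : List Bool → ℕ × ℕ} {g : List Bool → List Bool}
    (hF : GoodD (mD k).1 (mD k).2 F)
    (hs : (mR (blk s)).1 = k) (hc : rC (recS s) = true)
    (hg : ∀ x : List Bool, x.length = nn s → gv (mR (blk s)).2 x (cap s) = g x) :
    ∃ x, rZ (recS s) = g x ∧ rB (recS s) = RR F k x := by
  obtain ⟨p, hp⟩ := (rC_recS s).1 hc
  obtain ⟨h1, h2⟩ := srch_mem hp
  have hl := length_str_posM h1
  refine ⟨str p, ?_, ?_⟩
  · rw [recS_case2 hp]
    exact hg _ hl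
  · have hb : rB (recS s) = nextB (cD (blk s)) (exs k (hist s)) (cap s)
        (play (cD (blk s)) (exs k (hist s)) (cap s) p) := by
      rw [recS_case2 hp, ← hs]
      rfl
    rw [hb]
    have h3 : p + 2 ≤ 2 ^ (nn s + 1) := by
      rw [mem_posM] at h1
      rw [pow_succ]; omega
    refine next_eq p ?_ ?_
    · intro w hw
      exact hF.stage hs (by omega)
    · intro q hq
      refine look_eq ?_
      intro s' b hs' he
      rcases Nat.eq_or_lt_of_le hs' with h | h
      · subst h
        rw [he.1] at hc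
        exact absurd hc (by decide)
      · have := he.bounds
        have := pow_nn_le h
        omega

theorem mul_lt_two_pow {r : ℕ} (h : 8 ≤ r) : (r + 1) * (3 * r) < 2 ^ r := by
  induction r, h using Nat.le_induction with
  | base => norm_num
  | succ r hr ih => rw [pow_succ]; nlinarith

theorem length_prior (r e S : ℕ) : (prior r e (hist S)).length =
    ((Finset.range S).filter (fun s => rC (recS s) = true ∧ blk s = r ∧
      dE (rZ (recS s)) = e)).card := by
  unfold prior
  rw [hist_eq, List.filter_map, List.length_map]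
  rw [Finset.card_def, Finset.filter_val, Finset.range_val, ← Multiset.coe_range,
    Multiset.filter_coe, Multiset.coe_card]
  congr 1
  refine List.filter_congr ?_
  intro s _
  simp only [Function.comp_apply, rR_recS]
  by_cases h1 : rC (recS s) = true <;> by_cases h2 : blk s = r <;>
    by_cases h3 : dE (rZ (recS s)) = e <;> simp [h1, h2, h3]

theorem mem_prior {r e S : ℕ} {x : Rec} : x ∈ prior r e (hist S) ↔
    ∃ s, s < S ∧ x = recS s ∧ rC (recS s) = true ∧ blk s = r ∧ dE (rZ (recS s)) = e := by
  unfold prior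
  rw [hist_eq, List.mem_filter, List.mem_map]
  constructor
  · rintro ⟨⟨s, h1, rfl⟩, h2⟩
    simp only [Bool.and_eq_true, decide_eq_true_eq, rR_recS] at h2
    exact ⟨s, List.mem_range.1 h1, rfl, h2.1, h2.2.1, h2.2.2⟩
  · rintro ⟨s, h1, rfl, h2, h3, h4⟩
    refine ⟨⟨s, List.mem_range.2 h1, rfl⟩, ?_⟩
    simp only [Bool.and_eq_true, decide_eq_true_eq, rR_recS]
    exact ⟨h2, h3, h4⟩

theorem blk_eq {s r : ℕ} (h1 : 2 ^ r ≤ s + 1) (h2 : s + 1 < 2 ^ (r + 1)) : blk s = r :=
  (Nat.log_eq_iff (Or.inr ⟨by norm_num, by omega⟩)).2 ⟨h1, h2⟩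

theorem rA_case2 {s : ℕ} (hc : rC (recS s) = true) :
    rA (recS s) = actF Bv (blk s) (rZ (recS s)) (hist s) := by
  obtain ⟨p, hp⟩ := (rC_recS s).1 hc
  rw [recS_case2 hp]
  rfl

/-- the requirement lemma: `RR F k` is not reducible to `AA` via `g` -/
theorem requirement {k : ℕ} {F : List Bool → ℕ × ℕ} (hF : GoodD (mD k).1 (mD k).2 F)
    {g : List Bool → List Bool} {c : Code} (hg : GoodG c g) : ∃ x, RR F k x ≠ AA (g x) := by
  by_contra hcon
  push_neg at hcon
  obtain ⟨n0, hn0⟩ := hg
  obtain ⟨r, hr1, hr2⟩ := exists_mR (k, c) (n0 + 8)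
  have hgs : ∀ s, blk s = r → ∀ x : List Bool, x.length = nn s →
      gv (mR (blk s)).2 x (cap s) = g x := by
    intro s hs x hx
    rw [hs, hr2]
    have h1 := blk_le s
    have h2 := lt_nn s
    refine hn0 x (by omega) _ ?_
    rw [hx]
    exact two_pow_nn_le_cap s
  have hk : ∀ s, blk s = r → (mR (blk s)).1 = k := by
    intro s hs; rw [hs, hr2]
  -- all stages of the block are in case 2 and do not act
  have hall : ∀ s, blk s = r → rC (recS s) = true ∧ rA (recS s) = false ∧
      Bv (dE (rZ (recS s))) (dY (rZ (recS s))) = rB (recS s) := by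
    intro s hs
    have hc : rC (recS s) = true := by
      by_contra hc
      rw [Bool.not_eq_true] at hc
      obtain ⟨x, hx⟩ := case1_diag (F := F) (hk s hs) hc (hgs s hs)
      exact hx (hcon x)
    obtain ⟨x, hx1, hx2⟩ := case2_data hF (hk s hs) hc (hgs s hs)
    have ha : rA (recS s) = false := by
      by_contra ha
      rw [Bool.not_eq_false] at ha
      have h1 : AA (rZ (recS s)) = !rB (recS s) := AA_mod (s := s) ⟨hc, ha, rfl⟩
      rw [hx1, hx2, ← hcon x] at h1
      revert h1
      cases RR F k x <;> decide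
    refine ⟨hc, ha, ?_⟩
    have h1 : AA (rZ (recS s)) = Bv (dE (rZ (recS s))) (dY (rZ (recS s))) := by
      refine AA_cod ?_
      intro s' hm
      have := loc_inj hm.1 hc (by rw [hm.2.2])
      subst this
      have h2 := hm.2.1
      rw [ha] at h2
      exact absurd h2 (by decide)
    rw [← h1, hx1, hx2, hcon x]
  have hact : ∀ s, blk s = r → dE (rZ (recS s)) ≤ r ∧
      (prior r (dE (rZ (recS s))) (hist s)).length < 3 * r := by
    intro s hs
    obtain ⟨h1, h2, _⟩ := hall s hs
    rw [rA_case2 h1, hs] at h2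
    unfold actF at h2
    rw [Bool.or_eq_false_iff] at h2
    obtain ⟨h3, h4⟩ := h2
    rw [decide_eq_false_iff_not] at h3
    refine ⟨by omega, ?_⟩
    by_contra hc
    rw [Bool.and_eq_false_iff] at h4
    rcases h4 with h4 | h4
    · rw [decide_eq_false_iff_not] at h4; omega
    · rw [List.all_eq_false] at h4
      obtain ⟨x, hx, hx2⟩ := h4
      obtain ⟨s', h5, rfl, h6, h7, h8⟩ := mem_prior.1 hx
      apply hx2
      have := (hall s' h7).2.2
      rw [h8] at this
      rw [this]
      simp
  -- pigeonhole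
  have hblock : ∀ s, s ∈ Finset.Ico (2 ^ r - 1) (2 ^ (r + 1) - 1) → blk s = r := by
    intro s hs
    rw [Finset.mem_Ico] at hs
    exact blk_eq (by omega) (by omega)
  have hcard : (Finset.range (r + 1)).card * (3 * r) <
      (Finset.Ico (2 ^ r - 1) (2 ^ (r + 1) - 1)).card := by
    rw [Finset.card_range, Nat.card_Ico, pow_succ]
    have := mul_lt_two_pow (r := r) (by omega)
    omega
  obtain ⟨e, _, he2⟩ := Finset.exists_lt_card_fiber_of_mul_lt_card_of_maps_to
    (f := fun s => dE (rZ (recS s))) (fun s hs => Finset.mem_range.2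
      (Nat.lt_succ_of_le (hact s (hblock s hs)).1)) hcard
  set T := (Finset.Ico (2 ^ r - 1) (2 ^ (r + 1) - 1)).filter
    (fun s => dE (rZ (recS s)) = e) with hT
  have hne : T.Nonempty := Finset.card_pos.1 (by omega)
  have hmT := T.max'_mem hne
  set s := T.max' hne with hsdef
  have hmT' := hmT
  rw [hT, Finset.mem_filter] at hmT'
  have h1 := (hact s (hblock s hmT'.1)).2
  rw [hmT'.2, length_prior] at h1
  have h2 : T.erase s ⊆ (Finset.range s).filter (fun s => rC (recS s) = true ∧ blk s = r ∧
      dE (rZ (recS s)) = e) := by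
    intro s' hs'
    rw [Finset.mem_erase] at hs'
    have h3 := T.le_max' s' hs'.2
    have h4 := hs'.2
    rw [hT, Finset.mem_filter] at h4
    rw [Finset.mem_filter, Finset.mem_range]
    have h5 := hblock s' h4.1
    exact ⟨by omega, (hall s' h5).1, h5, h4.2⟩
  have h3 := Finset.card_le_card h2
  rw [Finset.card_erase_of_mem hmT] at h3
  omega

end Pool.Agent.H583R2
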