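import Pool.Agent.H583R2.Univ

/-!
Every Mathlib `FinTM2` is simulated by a code of the universal simulation with linear overhead.
-/

namespace Pool.Agent.H583R2

open Turing Classical

noncomputable section

attribute [local instance] FinTM2.kFin FinTM2.ΛFin FinTM2.σFin FinTM2.Γk₀Fin

variable (tm : FinTM2)

abbrev Stm := TM2.Stmt tm.Γ tm.Λ tm.σ

/-- all sub-statements -/
def sS : Finset (Stm tm) := Finset.univ.biUnion fun l => TM2.stmts₁ (tm.m l)

theorem sS_sub {q q' : Stm tm} (h : q' ∈ TM2.stmts₁ q) (hq : q ∈ sS tm) : q' ∈ sS tm := by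
  unfold sS at *
  rw [Finset.mem_biUnion] at *
  obtain ⟨l, hl, hq⟩ := hq
  exact ⟨l, hl, TM2.stmts₁_trans hq h⟩

theorem sS_main (l : tm.Λ) : (tm.m l : Stm tm) ∈ sS tm := by
  unfold sS
  rw [Finset.mem_biUnion]
  exact ⟨l, Finset.mem_univ _, TM2.stmts₁_self⟩

def sF : Finset (Stm tm × tm.σ) := sS tm ×ˢ Finset.univ

theorem mem_sF {q : Stm tm} (v : tm.σ) (h : q ∈ sS tm) : (q, v) ∈ sF tm :=
  Finset.mem_product.2 ⟨h, Finset.mem_univ _⟩

def numSt (p : Stm tm × tm.σ) : ℕ :=
  if h : p ∈ sF tm then ((sF tm).equivFin ⟨p, h⟩ : ℕ) else (sF tm).card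

abbrev Sy := Σ k, tm.Γ k

def symOf (p : Stm tm × tm.σ) : Finset (Sy tm) :=
  match p with
  | (.push k f _, v) => {⟨k, f v⟩}
  | _ => ∅

def sG : Finset (Sy tm) :=
  (sF tm).biUnion (symOf tm) ∪ Finset.univ.image (fun a : tm.Γ tm.k₀ => (⟨tm.k₀, a⟩ : Sy tm))

def numSy (s : Sy tm) : ℕ := if h : s ∈ sG tm then ((sG tm).equivFin ⟨s, h⟩ : ℕ) else 0

def tbl {β : Type} (T : Sy tm → β) : List β :=
  List.ofFn (fun j : Fin (sG tm).card => T ((sG tm).equivFin.symm j).1)

theorem tbl_getD {β : Type} (T : Sy tm → β) (d : β) {s : Sy tm} (h : s ∈ sG tm) :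
    (tbl tm T).getD (numSy tm s) d = T s := by
  unfold tbl numSy
  rw [dif_pos h, List.getD_eq_getElem?_getD, List.getElem?_ofFn]
  rw [dif_pos (Fin.is_lt _)]
  simp

def kNum (k : tm.K) : ℕ := (Fintype.equivFin tm.K k : ℕ)

def nK : ℕ := Fintype.card tm.K

theorem kNum_lt (k : tm.K) : kNum tm k < nK tm := Fin.is_lt _

def encMap (k : tm.K) (l : List (tm.Γ k)) : List ℕ := l.map (fun a => numSy tm ⟨k, a⟩)

def encStk (stk : ∀ k, List (tm.Γ k)) : List (List ℕ) :=
  List.ofFn (fun j : Fin (Fintype.card tm.K) =>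
    encMap tm ((Fintype.equivFin tm.K).symm j) (stk ((Fintype.equivFin tm.K).symm j)))

theorem encStk_length (stk : ∀ k, List (tm.Γ k)) : (encStk tm stk).length = nK tm := by
  simp [encStk, nK]

theorem encStk_get (stk : ∀ k, List (tm.Γ k)) (k : tm.K) :
    (encStk tm stk)[kNum tm k]? = some (encMap tm k (stk k)) := by
  unfold encStk kNum
  rw [List.getElem?_ofFn, dif_pos (Fin.is_lt _)]
  have h : ∀ k', k' = k → encMap tm k' (stk k') = encMap tm k (stk k) := by
    intro k' h; subst h; rfl
  rw [h _ (by simp)]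

theorem encStk_getD (stk : ∀ k, List (tm.Γ k)) (k : tm.K) :
    (encStk tm stk).getD (kNum tm k) [] = encMap tm k (stk k) := by
  rw [List.getD_eq_getElem?_getD, encStk_get]; rfl

theorem encStk_getD_nK (stk : ∀ k, List (tm.Γ k)) : (encStk tm stk).getD (nK tm) [] = [] := by
  rw [List.getD_eq_getElem?_getD, List.getElem?_eq_none (by rw [encStk_length])]; rfl

theorem encStk_set_nK (stk : ∀ k, List (tm.Γ k)) (x : List ℕ) :
    (encStk tm stk).set (nK tm) x = encStk tm stk :=
  List.set_eq_of_length_le (by rw [encStk_length])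

theorem exists_kNum {n : ℕ} (h : n < nK tm) : ∃ k, kNum tm k = n :=
  ⟨(Fintype.equivFin tm.K).symm ⟨n, h⟩, by simp [kNum]⟩

theorem kNum_inj {k k' : tm.K} (h : kNum tm k = kNum tm k') : k = k' :=
  (Fintype.equivFin tm.K).injective (Fin.ext h)

theorem encStk_set (stk : ∀ k, List (tm.Γ k)) (k : tm.K) (l : List (tm.Γ k)) :
    (encStk tm stk).set (kNum tm k) (encMap tm k l) = encStk tm (Function.update stk k l) := by
  apply List.ext_getElem?
  intro n
  rcases lt_or_ge n (nK tm) with h | h
  · obtain ⟨k', rfl⟩ := exists_kNum tm h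
    rw [encStk_get, List.getElem?_set, encStk_get]
    by_cases hk : kNum tm k = kNum tm k'
    · have := kNum_inj tm hk
      subst this
      rw [if_pos rfl, if_pos (by rw [encStk_length]; exact kNum_lt tm k), Function.update_self]
    · rw [if_neg hk, Function.update_of_ne (fun e => hk (by rw [e]))]
  · rw [List.getElem?_eq_none (by rw [List.length_set, encStk_length]; exact h),
      List.getElem?_eq_none (by rw [encStk_length]; exact h)]

/-- instruction of a control state -/
def insOf (p : Stm tm × tm.σ) : Ins :=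
  match p with
  | (.push k f q, v) => (nK tm, [(kNum tm k, numSy tm ⟨k, f v⟩, numSt tm (q, v))])
  | (.peek k f q, v) => (kNum tm k, (nK tm, 0, numSt tm (q, f v none)) ::
      tbl tm (fun s => if h : s.1 = k then
        (kNum tm k, numSy tm s, numSt tm (q, f v (some (h ▸ s.2)))) else (0, 0, 0)))
  | (.pop k f q, v) => (kNum tm k, (nK tm, 0, numSt tm (q, f v none)) ::
      tbl tm (fun s => if h : s.1 = k then
        (nK tm, 0, numSt tm (q, f v (some (h ▸ s.2)))) else (0, 0, 0)))
  | (.load a q, v) => (nK tm, [(nK tm, 0, numSt tm (q, a v))])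
  | (.branch c q₁ q₂, v) => (nK tm, [(nK tm, 0, numSt tm (cond (c v) q₁ q₂, v))])
  | (.goto l, v) => (nK tm, [(nK tm, 0, numSt tm (tm.m (l v), v))])
  | (.halt, _) => (nK tm, [(nK tm, 0, (sF tm).card)])

def codeL : List Ins :=
  List.ofFn (fun j : Fin (sF tm).card => insOf tm ((sF tm).equivFin.symm j).1)

theorem codeL_length : (codeL tm).length = (sF tm).card := by simp [codeL]

theorem codeL_get {p : Stm tm × tm.σ} (h : p ∈ sF tm) :
    (codeL tm)[numSt tm p]? = some (insOf tm p) := by
  unfold codeL numSt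
  rw [dif_pos h, List.getElem?_ofFn, dif_pos (Fin.is_lt _)]
  simp

theorem numSt_lt {p : Stm tm × tm.σ} (h : p ∈ sF tm) : numSt tm p < (codeL tm).length := by
  rw [codeL_length]
  unfold numSt
  rw [dif_pos h]
  exact Fin.is_lt _

def GoodStk (stk : ∀ k, List (tm.Γ k)) : Prop :=
  ∀ k, ∀ a ∈ stk k, (⟨k, a⟩ : Sy tm) ∈ sG tm

def encCfg (c : TM2.Cfg tm.Γ tm.Λ tm.σ) : UCfg :=
  match c with
  | ⟨some l, v, stk⟩ => (numSt tm (tm.m l, v), encStk tm stk)
  | ⟨none, _, stk⟩ => ((sF tm).card, encStk tm stk)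

theorem stepU_eq {I : List Ins} {c : UCfg} {ins : Ins} (h : I[c.1]? = some ins) :
    stepU I c = stepI ins c.2 := by
  unfold stepU
  rw [h]

theorem stepI_nop (stk : ∀ k, List (tm.Γ k)) (n : ℕ) :
    stepI (nK tm, [(nK tm, 0, n)]) (encStk tm stk) = (n, encStk tm stk) := by
  unfold stepI
  simp only [encStk_getD_nK, List.tail_nil, encStk_set_nK, List.head?_nil, symIx,
    List.getD_cons_zero]

theorem stepI_push (stk : ∀ k, List (tm.Γ k)) (k : tm.K) (a : tm.Γ k) (n : ℕ) :
    stepI (nK tm, [(kNum tm k, numSy tm ⟨k, a⟩, n)]) (encStk tm stk) =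
      (n, encStk tm (Function.update stk k (a :: stk k))) := by
  unfold stepI
  simp only [encStk_getD_nK, List.tail_nil, encStk_set_nK, List.head?_nil, symIx,
    List.getD_cons_zero, encStk_getD]
  rw [← encStk_set]
  rfl

theorem stepI_pop (stk : ∀ k, List (tm.Γ k)) (hg : GoodStk tm stk) (k : tm.K)
    (g : Option (tm.Γ k) → ℕ) :
    stepI (kNum tm k, (nK tm, 0, g none) ::
      tbl tm (fun s => if h : s.1 = k then (nK tm, 0, g (some (h ▸ s.2))) else (0, 0, 0)))
      (encStk tm stk) =
      (g (stk k).head?, encStk tm (Function.update stk k (stk k).tail)) := by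
  unfold stepI
  simp only [encStk_getD]
  rcases hs : stk k with _ | ⟨a, l⟩
  · have e : encMap tm k ([] : List (tm.Γ k)) = [] := rfl
    simp only [e, List.head?_nil, symIx, List.getD_cons_zero, List.tail_nil]
    have h1 : (encStk tm stk).set (kNum tm k) [] = encStk tm (Function.update stk k []) :=
      encStk_set tm stk k []
    rw [h1, encStk_set_nK]
  · have e : (encMap tm k (a :: l)).head? = some (numSy tm ⟨k, a⟩) := rfl
    have e2 : (encMap tm k (a :: l)).tail = encMap tm k l := rfl
    have hm : (⟨k, a⟩ : Sy tm) ∈ sG tm := hg k a (by rw [hs]; exact List.mem_cons_self)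
    simp only [e, e2, symIx, List.getD_cons_succ, tbl_getD tm _ _ hm, dif_pos]
    rw [encStk_set, encStk_set_nK]
    rfl

theorem stepI_peek (stk : ∀ k, List (tm.Γ k)) (hg : GoodStk tm stk) (k : tm.K)
    (g : Option (tm.Γ k) → ℕ) :
    stepI (kNum tm k, (nK tm, 0, g none) ::
      tbl tm (fun s => if h : s.1 = k then (kNum tm k, numSy tm s, g (some (h ▸ s.2)))
        else (0, 0, 0)))
      (encStk tm stk) = (g (stk k).head?, encStk tm stk) := by
  unfold stepI
  simp only [encStk_getD]
  rcases hs : stk k with _ | ⟨a, l⟩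
  · have e : encMap tm k ([] : List (tm.Γ k)) = [] := rfl
    simp only [e, List.head?_nil, symIx, List.getD_cons_zero, List.tail_nil]
    have h1 : (encStk tm stk).set (kNum tm k) [] = encStk tm (Function.update stk k []) :=
      encStk_set tm stk k []
    rw [h1, encStk_set_nK]
    rw [← hs, Function.update_eq_self]
  · have e : (encMap tm k (a :: l)).head? = some (numSy tm ⟨k, a⟩) := rfl
    have e2 : (encMap tm k (a :: l)).tail = encMap tm k l := rfl
    have hm : (⟨k, a⟩ : Sy tm) ∈ sG tm := hg k a (by rw [hs]; exact List.mem_cons_self)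
    simp only [e, e2, symIx, List.getD_cons_succ, tbl_getD tm _ _ hm, dif_pos]
    rw [encStk_set, encStk_getD, Function.update_self]
    have e3 : numSy tm ⟨k, a⟩ :: encMap tm k l = encMap tm k (a :: l) := rfl
    rw [e3, encStk_set, Function.update_idem, ← hs, Function.update_eq_self, hs]
    rfl

theorem GoodStk.update {stk : ∀ k, List (tm.Γ k)} (hg : GoodStk tm stk) (k : tm.K)
    (l : List (tm.Γ k)) (hl : ∀ a ∈ l, (⟨k, a⟩ : Sy tm) ∈ sG tm) :
    GoodStk tm (Function.update stk k l) := by
  intro k' a ha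
  by_cases h : k' = k
  · subst h
    rw [Function.update_self] at ha
    exact hl a ha
  · rw [Function.update_of_ne h] at ha
    exact hg k' a ha

/-- depth of a statement -/
def dep : Stm tm → ℕ
  | .push _ _ q => dep q + 1
  | .peek _ _ q => dep q + 1
  | .pop _ _ q => dep q + 1
  | .load _ q => dep q + 1
  | .branch _ q₁ q₂ => dep q₁ + dep q₂ + 1
  | .goto _ => 1
  | .halt => 1

theorem sim_stmt (q : Stm tm) : q ∈ sS tm → ∀ (v : tm.σ) (stk : ∀ k, List (tm.Γ k)),
    GoodStk tm stk → ∃ j ≤ dep tm q, (stepU (codeL tm))^[j] (numSt tm (q, v), encStk tm stk) =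
      encCfg tm (TM2.stepAux q v stk) ∧ GoodStk tm (TM2.stepAux q v stk).stk := by
  induction q with
  | push k f q ih =>
    intro hq v stk hg
    have hq' : q ∈ sS tm := sS_sub tm (by
      rw [TM2.stmts₁]; exact Finset.mem_insert_of_mem TM2.stmts₁_self) hq
    have hsy : (⟨k, f v⟩ : Sy tm) ∈ sG tm := by
      refine Finset.mem_union_left _ (Finset.mem_biUnion.2 ⟨_, mem_sF tm v hq, ?_⟩)
      exact Finset.mem_singleton_self _
    obtain ⟨j, hj, h1, h2⟩ := ih hq' v (Function.update stk k (f v :: stk k))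
      (hg.update tm k _ (by
        intro a ha
        rcases List.mem_cons.1 ha with rfl | ha
        · exact hsy
        · exact hg k a ha))
    refine ⟨j + 1, Nat.succ_le_succ hj, ?_, h2⟩
    rw [Function.iterate_succ_apply, stepU_eq (codeL_get tm (mem_sF tm v hq))]
    change (stepU (codeL tm))^[j] (stepI (nK tm, [(kNum tm k, numSy tm ⟨k, f v⟩,
      numSt tm (q, v))]) (encStk tm stk)) = _
    rw [stepI_push, h1]
    rfl
  | peek k f q ih =>
    intro hq v stk hg
    have hq' : q ∈ sS tm := sS_sub tm (by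
      rw [TM2.stmts₁]; exact Finset.mem_insert_of_mem TM2.stmts₁_self) hq
    obtain ⟨j, hj, h1, h2⟩ := ih hq' (f v (stk k).head?) stk hg
    refine ⟨j + 1, Nat.succ_le_succ hj, ?_, h2⟩
    rw [Function.iterate_succ_apply, stepU_eq (codeL_get tm (mem_sF tm v hq))]
    have h3 := stepI_peek tm stk hg k (fun o => numSt tm (q, f v o))
    change (stepU (codeL tm))^[j] (stepI (insOf tm (.peek k f q, v)) (encStk tm stk)) = _
    refine Eq.trans ?_ h1
    congr 1
  | pop k f q ih =>
    intro hq v stk hg
    have hq' : q ∈ sS tm := sS_sub tm (by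
      rw [TM2.stmts₁]; exact Finset.mem_insert_of_mem TM2.stmts₁_self) hq
    obtain ⟨j, hj, h1, h2⟩ := ih hq' (f v (stk k).head?) (Function.update stk k (stk k).tail)
      (hg.update tm k _ (fun a ha => hg k a (List.mem_of_mem_tail ha)))
    refine ⟨j + 1, Nat.succ_le_succ hj, ?_, h2⟩
    rw [Function.iterate_succ_apply, stepU_eq (codeL_get tm (mem_sF tm v hq))]
    have h3 := stepI_pop tm stk hg k (fun o => numSt tm (q, f v o))
    refine Eq.trans ?_ h1
    congr 1
  | load a q ih =>
    intro hq v stk hg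
    have hq' : q ∈ sS tm := sS_sub tm (by
      rw [TM2.stmts₁]; exact Finset.mem_insert_of_mem TM2.stmts₁_self) hq
    obtain ⟨j, hj, h1, h2⟩ := ih hq' (a v) stk hg
    refine ⟨j + 1, Nat.succ_le_succ hj, ?_, h2⟩
    rw [Function.iterate_succ_apply, stepU_eq (codeL_get tm (mem_sF tm v hq))]
    have h3 := stepI_nop tm stk (numSt tm (q, a v))
    refine Eq.trans ?_ h1
    congr 1
  | branch c q₁ q₂ ih₁ ih₂ =>
    intro hq v stk hg
    have hq1 : q₁ ∈ sS tm := sS_sub tm (by
      rw [TM2.stmts₁]
      exact Finset.mem_insert_of_mem (Finset.mem_union_left _ TM2.stmts₁_self)) hq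
    have hq2 : q₂ ∈ sS tm := sS_sub tm (by
      rw [TM2.stmts₁]
      exact Finset.mem_insert_of_mem (Finset.mem_union_right _ TM2.stmts₁_self)) hq
    have h3 := stepI_nop tm stk (numSt tm (cond (c v) q₁ q₂, v))
    cases hc : c v with
    | true =>
      obtain ⟨j, hj, h1, h2⟩ := ih₁ hq1 v stk hg
      rw [hc] at h3
      refine ⟨j + 1, ?_, ?_, ?_⟩
      · change j + 1 ≤ dep tm q₁ + dep tm q₂ + 1
        omega
      · rw [Function.iterate_succ_apply, stepU_eq (codeL_get tm (mem_sF tm v hq))]
        have h4 : TM2.stepAux (.branch c q₁ q₂) v stk = TM2.stepAux q₁ v stk := by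
          rw [TM2.stepAux, hc]; rfl
        rw [h4]
        refine Eq.trans ?_ h1
        congr 1
        refine Eq.trans ?_ h3
        change stepI (nK tm, [(nK tm, 0, numSt tm (cond (c v) q₁ q₂, v))]) _ = _
        rw [hc]
      · have h4 : TM2.stepAux (.branch c q₁ q₂) v stk = TM2.stepAux q₁ v stk := by
          rw [TM2.stepAux, hc]; rfl
        rw [h4]; exact h2
    | false =>
      obtain ⟨j, hj, h1, h2⟩ := ih₂ hq2 v stk hg
      rw [hc] at h3
      refine ⟨j + 1, ?_, ?_, ?_⟩
      · change j + 1 ≤ dep tm q₁ + dep tm q₂ + 1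
        omega
      · rw [Function.iterate_succ_apply, stepU_eq (codeL_get tm (mem_sF tm v hq))]
        have h4 : TM2.stepAux (.branch c q₁ q₂) v stk = TM2.stepAux q₂ v stk := by
          rw [TM2.stepAux, hc]; rfl
        rw [h4]
        refine Eq.trans ?_ h1
        congr 1
        refine Eq.trans ?_ h3
        change stepI (nK tm, [(nK tm, 0, numSt tm (cond (c v) q₁ q₂, v))]) _ = _
        rw [hc]
      · have h4 : TM2.stepAux (.branch c q₁ q₂) v stk = TM2.stepAux q₂ v stk := by
          rw [TM2.stepAux, hc]; rfl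
        rw [h4]; exact h2
  | goto l =>
    intro hq v stk hg
    refine ⟨1, le_refl _, ?_, hg⟩
    rw [Function.iterate_one, stepU_eq (codeL_get tm (mem_sF tm v hq))]
    exact stepI_nop tm stk (numSt tm (tm.m (l v), v))
  | halt =>
    intro hq v stk hg
    refine ⟨1, le_refl _, ?_, hg⟩
    rw [Function.iterate_one, stepU_eq (codeL_get tm (mem_sF tm v hq))]
    exact stepI_nop tm stk ((sF tm).card)

/-- maximal depth -/
def maxDep : ℕ := Finset.univ.sup (fun l : tm.Λ => dep tm (tm.m l))

theorem stepU_halted (n : ℕ) (c : UCfg) (h : (codeL tm).length ≤ c.1) :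
    (stepU (codeL tm))^[n] c = c := by
  induction n with
  | zero => rfl
  | succ n ih =>
    rw [Function.iterate_succ_apply', ih]
    unfold stepU
    rw [List.getElem?_eq_none h]

/-- simulation of complete runs -/
theorem sim_run (n : ℕ) : ∀ (c c' : TM2.Cfg tm.Γ tm.Λ tm.σ), GoodStk tm c.stk →
    (flip bind (TM2.step tm.m))^[n] (some c) = some c' → c'.l = none →
    GoodStk tm c'.stk ∧
    ∀ t, maxDep tm * n ≤ t → (stepU (codeL tm))^[t] (encCfg tm c) = encCfg tm c' := by
  induction n with
  | zero =>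
    intro c c' hg h hl
    have h' : c = c' := by simpa using h
    subst h'
    refine ⟨hg, ?_⟩
    intro t _
    obtain ⟨l, v, stk⟩ := c
    cases hl
    exact stepU_halted tm t _ (by rw [codeL_length]; exact le_refl _)
  | succ n ih =>
    intro c c' hg h hl
    obtain ⟨l, v, stk⟩ := c
    cases l with
    | none =>
      exfalso
      rw [Function.iterate_succ_apply] at h
      have h1 : flip bind (TM2.step tm.m) (some ⟨none, v, stk⟩) = none := rfl
      rw [h1] at h
      have h2 : ∀ m : ℕ, (flip bind (TM2.step tm.m))^[m] none = none := by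
        intro m
        induction m with
        | zero => rfl
        | succ m ihm => rw [Function.iterate_succ_apply']; rw [ihm]; rfl
      rw [h2] at h
      cases h
    | some l =>
      rw [Function.iterate_succ_apply] at h
      have h1 : flip bind (TM2.step tm.m) (some ⟨some l, v, stk⟩) =
        some (TM2.stepAux (tm.m l) v stk) := rfl
      rw [h1] at h
      obtain ⟨j, hj, h2, h3⟩ := sim_stmt tm (tm.m l) (sS_main tm l) v stk hg
      have h4 : dep tm (tm.m l) ≤ maxDep tm :=
        Finset.le_sup (f := fun l : tm.Λ => dep tm (tm.m l)) (Finset.mem_univ l)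
      obtain ⟨h6, h7⟩ := ih _ _ h3 h hl
      refine ⟨h6, ?_⟩
      intro t ht
      rw [Nat.mul_succ] at ht
      have h5 := h7 (t - j) (by omega)
      rw [show t = (t - j) + j by omega, Function.iterate_add_apply]
      change (stepU (codeL tm))^[t - j] ((stepU (codeL tm))^[j]
        (numSt tm (tm.m l, v), encStk tm stk)) = _
      rw [h2, h5]

theorem encStk_nil : encStk tm (fun _ => []) = List.replicate (nK tm) [] := by
  apply List.ext_getElem?
  intro n
  rcases lt_or_ge n (nK tm) with h | h
  · obtain ⟨k', rfl⟩ := exists_kNum tm h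
    rw [encStk_get, List.getElem?_replicate, if_pos h]; rfl
  · rw [List.getElem?_eq_none (by rw [encStk_length]; exact h),
      List.getElem?_eq_none (by rw [List.length_replicate]; exact h)]

variable {tm}

/-- full code of a machine with given input and output alphabets -/
def codeOf (ein : tm.Γ tm.k₀ ≃ Bool) (eout : tm.Γ tm.k₁ ≃ Bool) : Code :=
  (codeL tm, numSt tm (tm.m tm.main, tm.initialState), nK tm, kNum tm tm.k₀,
    (numSy tm ⟨tm.k₀, ein.symm false⟩, numSy tm ⟨tm.k₀, ein.symm true⟩), kNum tm tm.k₁,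
    tbl tm (fun s => if h : s.1 = tm.k₁ then eout (h ▸ s.2) else false))

theorem U_codeOf (ein : tm.Γ tm.k₀ ≃ Bool) (eout : tm.Γ tm.k₁ ≃ Bool) (x y : List Bool) (n : ℕ)
    (h : TM2OutputsInTime tm (x.map ein.invFun) (some (y.map eout.invFun)) n) (t : ℕ)
    (ht : maxDep tm * n ≤ t) : U (codeOf ein eout) x t = some y := by
  obtain ⟨⟨i, hi⟩, hin⟩ := h
  simp only at hin
  have hgood : GoodStk tm (initList tm (x.map ein.invFun)).stk := by
    intro k a ha
    by_cases hk : k = tm.k₀
    · subst hk
      exact Finset.mem_union_right _ (Finset.mem_image.2 ⟨a, Finset.mem_univ _, rfl⟩)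
    · exfalso
      simp only [initList] at ha
      rw [dif_neg hk] at ha
      simp at ha
  obtain ⟨h0, h1⟩ := sim_run tm i (initList tm (x.map ein.invFun))
    (haltList tm (y.map eout.invFun)) hgood hi rfl
  replace h1 := h1 t ((Nat.mul_le_mul_left _ hin).trans ht)
  have h2 : initU (codeOf ein eout) x = encCfg tm (initList tm (x.map ein.invFun)) := by
    have h3 : (initList tm (x.map ein.invFun)).stk =
        Function.update (fun _ => []) tm.k₀ (x.map ein.invFun) := by
      funext k
      by_cases hk : k = tm.k₀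
      · subst hk
        rw [Function.update_self]
        simp [initList]
      · rw [Function.update_of_ne hk]
        simp only [initList]
        rw [dif_neg hk]
    have h4 : encCfg tm (initList tm (x.map ein.invFun)) =
        (numSt tm (tm.m tm.main, tm.initialState),
          encStk tm (initList tm (x.map ein.invFun)).stk) := rfl
    rw [h4, h3, ← encStk_set, encStk_nil]
    unfold initU codeOf
    simp only
    congr 2
    unfold encMap
    rw [List.map_map]
    apply List.map_congr_left
    intro b _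
    cases b <;> rfl
  have h5 : runU (codeOf ein eout) x t = ((sF tm).card,
      encStk tm (haltList tm (y.map eout.invFun)).stk) := by
    unfold runU
    rw [h2]
    exact h1
  have h6 : (haltList tm (y.map eout.invFun)).stk tm.k₁ = y.map eout.invFun := by
    simp [haltList]
  have hgood2 : ∀ a ∈ (haltList tm (y.map eout.invFun)).stk tm.k₁,
      (⟨tm.k₁, a⟩ : Sy tm) ∈ sG tm := fun a ha => h0 tm.k₁ a ha
  unfold U
  rw [h5]
  have h7 : (codeOf ein eout).1 = codeL tm := rfl
  rw [h7, codeL_length]
  simp only [lt_irrefl, decide_false]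
  have h8 : (codeOf ein eout).2.2.2.2.2.1 = kNum tm tm.k₁ := rfl
  have h9 : (codeOf ein eout).2.2.2.2.2.2 =
    tbl tm (fun s => if h : s.1 = tm.k₁ then eout (h ▸ s.2) else false) := rfl
  rw [h8, h9, encStk_getD]
  rw [if_neg (by simp)]
  congr 1
  unfold encMap
  rw [List.map_map]
  rw [h6] at hgood2 ⊢
  rw [List.map_map]
  conv_rhs => rw [← List.map_id y]
  apply List.map_congr_left
  intro b hb
  have hb' := hgood2 (eout.invFun b) (List.mem_map.2 ⟨b, hb, rfl⟩)
  simp only [Function.comp_apply]
  rw [tbl_getD tm _ _ hb']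
  simp

end

end Pool.Agent.H583R2
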