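import Pool.Agent.H583R2.Sim

/-!
Enumeration of strings, pairing of indices and strings, enumeration of codes.
-/

namespace Pool.Agent.H583R2

/-! ### the length-lexicographic enumeration -/

/-- successor in the length-lexicographic order, least significant bit first -/
def incS : List Bool → List Bool
  | [] => [false]
  | false :: l => true :: l
  | true :: l => false :: incS l

/-- the `n`-th string -/
def str (n : ℕ) : List Bool := (incS^[n] []).reverse

/-- position of a string (least significant bit first) -/
def idxR : List Bool → ℕ
  | [] => 0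
  | b :: l => 2 * idxR l + (if b then 2 else 1)

/-- position of a string -/
def idx (x : List Bool) : ℕ := idxR x.reverse

theorem idxR_incS (l : List Bool) : idxR (incS l) = idxR l + 1 := by
  induction l with
  | nil => rfl
  | cons b l ih =>
    cases b
    · simp [incS, idxR]
    · simp only [incS, idxR, ih]; simp; ring

theorem idxR_iter (n : ℕ) : idxR (incS^[n] []) = n := by
  induction n with
  | zero => rfl
  | succ n ih => rw [Function.iterate_succ_apply', idxR_incS, ih]

theorem idx_str (n : ℕ) : idx (str n) = n := by
  unfold idx str
  rw [List.reverse_reverse, idxR_iter]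

theorem idxR_inj : ∀ l l' : List Bool, idxR l = idxR l' → l = l' := by
  intro l
  induction l with
  | nil =>
    intro l' h
    cases l' with
    | nil => rfl
    | cons b l' => exfalso; simp only [idxR] at h; split at h <;> omega
  | cons a l ih =>
    intro l' h
    cases l' with
    | nil => exfalso; simp only [idxR] at h; split at h <;> omega
    | cons b l' =>
      simp only [idxR] at h
      cases a <;> cases b <;> simp at h
      · rw [ih l' (by omega)]
      · omega
      · omega
      · rw [ih l' (by omega)]

theorem idx_inj {x y : List Bool} (h : idx x = idx y) : x = y := by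
  have := idxR_inj _ _ h
  exact List.reverse_injective this

theorem str_idx (x : List Bool) : str (idx x) = x := idx_inj (idx_str _)

theorem idxR_bounds (l : List Bool) : 2 ^ l.length ≤ idxR l + 1 ∧ idxR l + 2 ≤ 2 ^ (l.length + 1) := by
  induction l with
  | nil => simp [idxR]
  | cons b l ih =>
    obtain ⟨h1, h2⟩ := ih
    simp only [idxR, List.length_cons]
    rw [pow_succ] at h2 ⊢
    rw [pow_succ, pow_succ]
    split <;> omega

theorem le_idx (x : List Bool) : 2 ^ x.length ≤ idx x + 1 := by
  have := (idxR_bounds x.reverse).1
  rwa [List.length_reverse] at this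

theorem idx_lt (x : List Bool) : idx x + 2 ≤ 2 ^ (x.length + 1) := by
  have := (idxR_bounds x.reverse).2
  rwa [List.length_reverse] at this

theorem length_str_eq {p n : ℕ} (h1 : 2 ^ n ≤ p + 1) (h2 : p + 2 ≤ 2 ^ (n + 1)) :
    (str p).length = n := by
  have h3 := le_idx (str p)
  have h4 := idx_lt (str p)
  rw [idx_str] at h3 h4
  have h5 : n < (str p).length + 1 := (Nat.pow_lt_pow_iff_right (a := 2) (by norm_num)).1 (by omega)
  have h6 : (str p).length < n + 1 := (Nat.pow_lt_pow_iff_right (a := 2) (by norm_num)).1 (by omega)
  omega

theorem length_str_le (p : ℕ) : (str p).length ≤ p := by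
  have h3 := le_idx (str p)
  rw [idx_str] at h3
  have := Nat.lt_two_pow_self (n := (str p).length)
  omega

/-! ### pairing an index with a string -/

def stripT : List Bool → ℕ × List Bool
  | [] => (0, [])
  | false :: l => (0, l)
  | true :: l => ((stripT l).1 + 1, (stripT l).2)

/-- the index coded by `z` -/
def dE (z : List Bool) : ℕ := (stripT z).1

def chunkStep (e : ℕ) (s : ℕ × List Bool) (b : Bool) : ℕ × List Bool :=
  if decide (s.1 = 0) then (e, b :: s.2) else (s.1 - 1, s.2)

/-- the string coded by `z` -/
def dY (z : List Bool) : List Bool := ((stripT z).2.foldl (chunkStep (dE z)) (0, [])).2.reverse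

/-- the code of a pair -/
def encZ (e : ℕ) (y : List Bool) : List Bool :=
  List.replicate e true ++ false :: y.flatMap (fun b => b :: List.replicate e false)

theorem stripT_rep (e : ℕ) (l : List Bool) :
    stripT (List.replicate e true ++ false :: l) = (e, l) := by
  induction e with
  | zero => rfl
  | succ e ih => rw [List.replicate_succ, List.cons_append, stripT, ih]

theorem chunk_rep (e : ℕ) (j : ℕ) (out : List Bool) (x : Bool) :
    (List.replicate j x).foldl (chunkStep e) (j, out) = (0, out) := by
  induction j generalizing out with
  | zero => rfl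
  | succ j ih =>
    rw [List.replicate_succ, List.foldl_cons]
    have : chunkStep e (j + 1, out) x = (j, out) := by simp [chunkStep]
    rw [this, ih]

theorem chunk_flat (e : ℕ) (y out : List Bool) :
    (y.flatMap (fun b => b :: List.replicate e false)).foldl (chunkStep e) (0, out) =
      (0, y.reverse ++ out) := by
  induction y generalizing out with
  | nil => rfl
  | cons b y ih =>
    rw [List.flatMap_cons, List.foldl_append, List.foldl_cons]
    have : chunkStep e (0, out) b = (e, b :: out) := by simp [chunkStep]
    rw [this, chunk_rep, ih]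
    simp

theorem dE_encZ (e : ℕ) (y : List Bool) : dE (encZ e y) = e := by
  unfold dE encZ
  rw [stripT_rep]

theorem dY_encZ (e : ℕ) (y : List Bool) : dY (encZ e y) = y := by
  unfold dY
  rw [dE_encZ]
  unfold encZ
  rw [stripT_rep]
  simp only
  rw [chunk_flat]
  simp

theorem chunk_len (e : ℕ) (l : List Bool) : ∀ (j : ℕ) (out : List Bool), j ≤ e →
    (e + 1) * (l.foldl (chunkStep e) (j, out)).2.length + j =
      (e + 1) * out.length + l.length + (l.foldl (chunkStep e) (j, out)).1 ∧
    (l.foldl (chunkStep e) (j, out)).1 ≤ e := by
  induction l with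
  | nil => intro j out hj; simp [hj]
  | cons b l ih =>
    intro j out hj
    rw [List.foldl_cons]
    by_cases h0 : j = 0
    · have e1 : chunkStep e (j, out) b = (e, b :: out) := by simp [chunkStep, h0]
      rw [e1]
      obtain ⟨h1, h2⟩ := ih e (b :: out) le_rfl
      refine ⟨?_, h2⟩
      rw [List.length_cons, Nat.mul_add] at h1
      rw [List.length_cons]
      omega
    · have e1 : chunkStep e (j, out) b = (j - 1, out) := by simp [chunkStep, h0]
      rw [e1]
      obtain ⟨h1, h2⟩ := ih (j - 1) out (by omega)
      refine ⟨?_, h2⟩
      rw [List.length_cons]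
      omega

theorem dY_len (z : List Bool) : (stripT z).2.length ≤ (dE z + 1) * (dY z).length ∧
    (dE z + 1) * (dY z).length ≤ (stripT z).2.length + dE z := by
  unfold dY
  rw [List.length_reverse]
  obtain ⟨h1, h2⟩ := chunk_len (dE z) (stripT z).2 0 [] (Nat.zero_le _)
  simp only [List.length_nil, Nat.mul_zero, Nat.add_zero, Nat.zero_add] at h1
  omega

theorem stripT_len (z : List Bool) :
    (z.length = dE z + 1 + (stripT z).2.length) ∨ (z.length = dE z ∧ (stripT z).2 = []) := by
  unfold dE
  induction z with
  | nil => right; exact ⟨rfl, rfl⟩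
  | cons b z ih =>
    cases b
    · left
      simp only [stripT, List.length_cons]
      omega
    · rcases ih with h | ⟨h, h2⟩
      · left
        simp only [stripT, List.length_cons]
        omega
      · right
        simp only [stripT, List.length_cons]
        exact ⟨by omega, h2⟩

theorem length_le_dd (z : List Bool) : z.length ≤ (dE z + 1) * ((dY z).length + 1) := by
  have h1 := dY_len z
  rw [Nat.mul_add]
  rcases stripT_len z with h | ⟨h, h2⟩ <;> omega

theorem dd_le_length (z : List Bool) : (dE z + 1) * ((dY z).length + 1) ≤ 2 * z.length + 1 := by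
  have h1 := dY_len z
  rw [Nat.mul_add]
  rcases stripT_len z with h | ⟨h, h2⟩
  · omega
  · rw [h2, List.length_nil] at h1
    have h3 : (dY z).length = 0 := by
      by_contra hne
      have : dE z + 1 ≤ (dE z + 1) * (dY z).length := Nat.le_mul_of_pos_right _ (by omega)
      omega
    rw [h3]; omega

/-! ### decoding data from trees -/

def parseStep (b : Bool) (st : List Tr) : List Tr :=
  if b then (match st with
    | [] => []
    | x :: t => match t with
      | [] => x :: t
      | y :: r => .node x y :: r)
  else .leaf :: st

def parseStk (l : List Bool) : List Tr := l.foldr parseStep []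

theorem parseStk_ser (t : Tr) (rest : List Bool) :
    parseStk (ser t ++ rest) = t :: parseStk rest := by
  induction t generalizing rest with
  | leaf => rfl
  | node x y ihx ihy =>
    have e : ser (.node x y) ++ rest = true :: (ser x ++ (ser y ++ rest)) := by simp [ser]
    rw [e]
    have e2 : parseStk (true :: (ser x ++ (ser y ++ rest))) =
        parseStep true (parseStk (ser x ++ (ser y ++ rest))) := rfl
    rw [e2, ihx, ihy]
    rfl

/-- first tree of a bit string -/
def parse (l : List Bool) : Tr := (parseStk l).headD .leaf

theorem parse_ser (t : Tr) (rest : List Bool) : parse (ser t ++ rest) = t := by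
  unfold parse
  rw [parseStk_ser]
  rfl

def trList : Tr → List Tr
  | .leaf => []
  | .node x y => x :: trList y

def trFst (t : Tr) : Tr := match t with | .leaf => .leaf | .node x _ => x
def trSnd (t : Tr) : Tr := match t with | .leaf => .leaf | .node _ y => y
def decB (t : Tr) : Bool := match t with | .leaf => false | .node _ _ => true
def decN (t : Tr) : ℕ := (trList t).length

theorem decN_enc (n : ℕ) : decN (enc n) = n := by
  unfold decN
  induction n with
  | zero => rfl
  | succ n ih =>
    change (trList (.node .leaf (enc n))).length = _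
    rw [trList, List.length_cons, ih]

theorem trList_enc {α : Type} [TEnc α] (l : List α) : trList (enc l) = l.map enc := by
  induction l with
  | nil => rfl
  | cons x l ih =>
    change trList (.node (enc x) (enc l)) = _
    rw [trList, ih, List.map_cons]

def decL {α : Type} (d : Tr → α) (t : Tr) : List α := (trList t).map d

theorem decL_enc {α : Type} [TEnc α] {d : Tr → α} (h : ∀ a, d (enc a) = a) (l : List α) :
    decL d (enc l) = l := by
  unfold decL
  rw [trList_enc, List.map_map]
  conv_rhs => rw [← List.map_id l]
  apply List.map_congr_left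
  intro a _
  exact h a

def decP {α β : Type} (d : Tr → α) (d' : Tr → β) (t : Tr) : α × β := (d (trFst t), d' (trSnd t))

theorem decP_enc {α β : Type} [TEnc α] [TEnc β] {d : Tr → α} {d' : Tr → β}
    (h : ∀ a, d (enc a) = a) (h' : ∀ a, d' (enc a) = a) (p : α × β) :
    decP d d' (enc p) = p := by
  change (d (enc p.1), d' (enc p.2)) = p
  rw [h, h']

theorem decB_enc (b : Bool) : decB (enc b) = b := by cases b <;> rfl

def decCode : Tr → Code :=
  decP (decL (decP decN (decL (decP decN (decP decN decN)))))
    (decP decN (decP decN (decP decN (decP (decP decN decN) (decP decN (decL decB))))))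

theorem decCode_enc (c : Code) : decCode (enc c) = c :=
  decP_enc (decL_enc (decP_enc decN_enc (decL_enc (decP_enc decN_enc
    (decP_enc decN_enc decN_enc)))))
    (decP_enc decN_enc (decP_enc decN_enc (decP_enc decN_enc (decP_enc
      (decP_enc decN_enc decN_enc) (decP_enc decN_enc (decL_enc decB_enc)))))) c

/-- the code of the `e`-th language machine -/
def mE (e : ℕ) : Code := decCode (parse (str e))
/-- code and exponent of the `k`-th betting strategy -/
def mD (k : ℕ) : Code × ℕ := decP decCode decN (parse (str k))
/-- strategy index and reduction code of the `r`-th requirement -/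
def mR (r : ℕ) : ℕ × Code := decP decN decCode (parse (str r))

theorem exists_index (t : Tr) (n : ℕ) : ∃ e, n ≤ e ∧ parse (str e) = t := by
  refine ⟨idx (ser t ++ List.replicate n false), ?_, ?_⟩
  · have h1 := le_idx (ser t ++ List.replicate n false)
    have h2 := Nat.lt_two_pow_self (n := (ser t ++ List.replicate n false).length)
    rw [List.length_append, List.length_replicate] at h1 h2
    omega
  · rw [str_idx, parse_ser]

theorem exists_mE (c : Code) (n : ℕ) : ∃ e, n ≤ e ∧ mE e = c := by
  obtain ⟨e, h1, h2⟩ := exists_index (enc c) n
  exact ⟨e, h1, by unfold mE; rw [h2, decCode_enc]⟩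

theorem exists_mD (c : Code × ℕ) (n : ℕ) : ∃ e, n ≤ e ∧ mD e = c := by
  obtain ⟨e, h1, h2⟩ := exists_index (enc c) n
  exact ⟨e, h1, by unfold mD; rw [h2, decP_enc decCode_enc decN_enc]⟩

theorem exists_mR (c : ℕ × Code) (n : ℕ) : ∃ e, n ≤ e ∧ mR e = c := by
  obtain ⟨e, h1, h2⟩ := exists_index (enc c) n
  exact ⟨e, h1, by unfold mR; rw [h2, decP_enc decN_enc decCode_enc]⟩

/-- the decoded exponent is bounded by the index -/
theorem tsz_parse_le (l : List Bool) : tsz (parse l) ≤ l.length + 1 := by
  have h : ∀ l : List Bool, ((parseStk l).map tsz).sum ≤ l.length := by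
    intro l
    induction l with
    | nil => simp [parseStk]
    | cons b l ih =>
      have e : parseStk (b :: l) = parseStep b (parseStk l) := rfl
      rw [e, List.length_cons]
      cases b with
      | false =>
        simp only [parseStep, Bool.false_eq_true, if_false, List.map_cons, List.sum_cons, tsz_leaf]
        omega
      | true =>
        simp only [parseStep, if_true]
        rcases hp : parseStk l with _ | ⟨x, _ | ⟨y, r⟩⟩ <;> rw [hp] at ih
        · simp
        · simp only [List.map_cons, List.map_nil, List.sum_cons, List.sum_nil] at ih ⊢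
          omega
        · simp only [List.map_cons, List.sum_cons, tsz_node] at ih ⊢
          omega
  have h1 := h l
  unfold parse
  rcases h2 : parseStk l with _ | ⟨x, t⟩
  · simp [tsz_leaf]
  · rw [h2] at h1
    simp only [List.map_cons, List.sum_cons] at h1
    simp only [List.headD_cons]
    omega

theorem decN_le (t : Tr) : decN t ≤ tsz t := by
  unfold decN
  induction t with
  | leaf => simp [trList]
  | node x y _ ih =>
    rw [trList, List.length_cons, tsz_node]
    have := tsz_pos x
    omega

theorem trFst_le (t : Tr) : tsz (trFst t) ≤ tsz t := by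
  cases t with
  | leaf => exact le_refl _
  | node x y => simp only [trFst, tsz_node]; omega

theorem trSnd_le (t : Tr) : tsz (trSnd t) ≤ tsz t := by
  cases t with
  | leaf => exact le_refl _
  | node x y => simp only [trSnd, tsz_node]; omega

theorem mD_le (k : ℕ) : (mD k).2 ≤ k + 1 := by
  have h1 := tsz_parse_le (str k)
  have h2 := length_str_le k
  have h3 := trSnd_le (parse (str k))
  have h4 := decN_le (trSnd (parse (str k)))
  change decN (trSnd (parse (str k))) ≤ _
  omega

theorem mR_le (r : ℕ) : (mR r).1 ≤ r + 1 := by
  have h1 := tsz_parse_le (str r)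
  have h2 := length_str_le r
  have h3 := trFst_le (parse (str r))
  have h4 := decN_le (trFst (parse (str r)))
  change decN (trFst (parse (str r))) ≤ _
  omega

/-! ### polynomial-time computability -/

section
variable {α β γ δ σ : Type} [TEnc α] [TEnc β] [TEnc γ] [TEnc δ] [TEnc σ]

theorem PF.incS {l : α → List Bool} (hl : PF l) : PF (fun a => incS (l a)) := by
  -- state: (carry, output reversed)
  have h := PF.foldlAdd (l := l) (s := fun _ => (true, ([] : List Bool)))
    (f := fun _ s b => if s.1 then (b, (!b) :: s.2) else (false, b :: s.2)) hl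
    (PF.const _)
    (PF.ite (PF.fst' (PF.fst' PF.snd))
      (PF.pair (PF.snd' PF.snd) (PF.cons (PF.not (PF.snd' PF.snd)) (PF.snd' (PF.fst' PF.snd))))
      (PF.pair (PF.const false) (PF.cons (PF.snd' PF.snd) (PF.snd' (PF.fst' PF.snd)))))
    (PB.const 7) (PB.const 0) (by
      intro a b _ st
      have h1 := sz_bool b
      have h2 := sz_bool (!b)
      have h3 := sz_pos st.1
      rw [sz_prod st]
      split
      · rw [sz_pair, sz_cons]; omega
      · rw [sz_pair, sz_cons, sz_false]; omega)
  have h2 := PF.ite (PF.fst' h) (PF.reverse (PF.cons (PF.const false) (PF.snd' h)))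
    (PF.reverse (PF.snd' h))
  refine h2.congr ?_
  intro a
  generalize l a = l
  have key : ∀ (l : List Bool) (out : List Bool),
      ((fun r : Bool × List Bool => if r.1 = true then (false :: r.2).reverse else r.2.reverse)
        (l.foldl (fun (s : Bool × List Bool) b => if s.1 = true then (b, (!b) :: s.2)
          else (false, b :: s.2)) (true, out)) = out.reverse ++ H583R2.incS l) ∧
      ((fun r : Bool × List Bool => if r.1 = true then (false :: r.2).reverse else r.2.reverse)
        (l.foldl (fun (s : Bool × List Bool) b => if s.1 = true then (b, (!b) :: s.2)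
          else (false, b :: s.2)) (false, out)) = out.reverse ++ l) := by
    intro l
    induction l with
    | nil => intro out; simp [H583R2.incS]
    | cons b l ih =>
      intro out
      refine ⟨?_, ?_⟩
      · cases b
        · have := (ih (true :: out)).2
          simp only [List.foldl_cons, if_true, Bool.not_false]
          simpa [H583R2.incS] using this
        · have := (ih (false :: out)).1
          simp only [List.foldl_cons, if_true, Bool.not_true]
          simpa [H583R2.incS] using this
      · have := (ih (b :: out)).2
        simp only [List.foldl_cons]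
        simpa using this
  simpa using (key l []).1

theorem sz_incS (l : List Bool) : sz (incS l) ≤ sz l + 2 := by
  induction l with
  | nil => simp [incS, sz_cons, sz_nil, sz_false]
  | cons b l ih =>
    cases b
    · simp only [incS, sz_cons, sz_false, sz_true]; omega
    · simp only [incS, sz_cons, sz_false, sz_true]; omega

theorem PF.str {n : α → ℕ} (hn : PF n) : PF (fun a => str (n a)) := by
  refine PF.reverse (PF.iterateAdd (n := n) (s := fun _ => []) (f := fun _ l => H583R2.incS l) hn
    (PF.const []) (PF.incS PF.snd) (PB.const 2) (PB.const 0) ?_)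
  intro a st
  exact (sz_incS st).trans (le_max_left _ _)

theorem min_step (v N c : ℕ) : min (2 * min v N + c) N = min (2 * v + c) N := by
  rcases le_total v N with h | h
  · rw [min_eq_left h]
  · rw [min_eq_right h, min_eq_right (by omega), min_eq_right (by omega)]

/-- capped position -/
theorem pf_idxCap {x : α → List Bool} {N : α → ℕ} (hx : PF x) (hN : PF N) :
    PF (fun a => min (idx (x a)) (N a)) := by
  have h := PF.foldlAdd (l := x) (s := fun _ => 0)
    (f := fun a v b => min (2 * v + (if b then 2 else 1)) (N a)) hx
    (PF.const 0)
    (PF.min (PF.add (PF.mul (PF.const 2) (PF.fst' PF.snd))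
      (PF.ite (PF.snd' PF.snd) (PF.const 2) (PF.const 1))) (hN.comp PF.fst))
    (inc := fun _ => 0) (bnd := fun a => sz (N a)) (PB.const 0) hN.size (by
      intro a b _ st
      refine le_trans ?_ (le_max_right _ _)
      rw [sz_nat, sz_nat]
      omega)
  refine h.congr ?_
  intro a
  generalize N a = N
  unfold idx
  have key : ∀ l : List Bool,
      l.reverse.foldl (fun v (b : Bool) => min (2 * v + (if b then 2 else 1)) N) 0 =
        min (idxR l) N := by
    intro l
    induction l with
    | nil => simp [idxR]
    | cons b l ih =>
      rw [List.reverse_cons, List.foldl_append, ih]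
      simp only [List.foldl_cons, List.foldl_nil, idxR]
      exact min_step _ _ _
  have := key (x a).reverse
  rwa [List.reverse_reverse] at this

theorem stripT_snd (z : List Bool) : (stripT z).2 = z.drop ((stripT z).1 + 1) := by
  induction z with
  | nil => rfl
  | cons b z ih =>
    cases b
    · rfl
    · simp only [stripT, List.drop_succ_cons]; exact ih

theorem PF.dE {x : α → List Bool} (hx : PF x) : PF (fun a => dE (x a)) := by
  have h := PF.foldlAdd (l := x) (s := fun _ => (true, (0 : ℕ)))
    (f := fun _ s b => if s.1 && b then (true, s.2 + 1) else (false, s.2)) hx (PF.const _)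
    (PF.ite (PF.and (PF.fst' (PF.fst' PF.snd)) (PF.snd' PF.snd))
      (PF.pair (PF.const true) (PF.succ (PF.snd' (PF.fst' PF.snd))))
      (PF.pair (PF.const false) (PF.snd' (PF.fst' PF.snd))))
    (PB.const 4) (PB.const 0) (by
      intro a b _ st
      have h3 := sz_pos st.1
      rw [sz_prod st]
      split
      · rw [sz_pair, sz_succ, sz_true]; omega
      · rw [sz_pair, sz_false]; omega)
  refine (PF.snd' h).congr ?_
  intro a
  generalize x a = x
  have key2 : ∀ (l : List Bool) (n : ℕ),
      (l.foldl (fun (s : Bool × ℕ) b => if (s.1 && b) = true then (true, s.2 + 1)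
        else (false, s.2)) (false, n)) = (false, n) := by
    intro l
    induction l with
    | nil => intro n; rfl
    | cons b l ih => intro n; rw [List.foldl_cons]; exact ih n
  have key : ∀ (l : List Bool) (n : ℕ),
      (l.foldl (fun (s : Bool × ℕ) b => if (s.1 && b) = true then (true, s.2 + 1)
        else (false, s.2)) (true, n)).2 = n + (H583R2.stripT l).1 := by
    intro l
    induction l with
    | nil => intro n; rfl
    | cons b l ih =>
      intro n
      cases b
      · rw [List.foldl_cons]
        have e : (if ((true, n).1 && false) = true then (true, (true, n).2 + 1)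
          else (false, (true, n).2)) = (false, n) := rfl
        rw [e, key2]; rfl
      · rw [List.foldl_cons]
        have e : (if ((true, n).1 && true) = true then (true, (true, n).2 + 1)
          else (false, (true, n).2)) = (true, n + 1) := rfl
        rw [e, ih]
        simp only [H583R2.stripT]; omega
  rw [key]
  unfold H583R2.dE
  omega

theorem PF.dY {x : α → List Bool} (hx : PF x) : PF (fun a => dY (x a)) := by
  have he := PF.dE hx
  have h := PF.foldlAdd (l := fun a => (x a).drop (H583R2.dE (x a) + 1))
    (s := fun _ => ((0 : ℕ), ([] : List Bool)))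
    (f := fun a s b => chunkStep (H583R2.dE (x a)) s b) (PF.drop he.succ hx) (PF.const _)
    (PF.ite (PF.isZero (PF.fst' (PF.fst' PF.snd)))
      (PF.pair (he.comp PF.fst) (PF.cons (PF.snd' PF.snd) (PF.snd' (PF.fst' PF.snd))))
      (PF.pair (PF.pred (PF.fst' (PF.fst' PF.snd))) (PF.snd' (PF.fst' PF.snd))))
    (inc := fun a => sz (H583R2.dE (x a)) + 6) (bnd := fun _ => 0)
    (he.size.add (PB.const 6)) (PB.const 0) (by
      intro a b _ st
      have h1 := sz_bool b
      rw [sz_prod st]
      unfold chunkStep
      split
      · rw [sz_pair, sz_cons]; omega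
      · rw [sz_pair, sz_nat (st.1 - 1), sz_nat st.1]; omega)
  refine (PF.reverse (PF.snd' h)).congr ?_
  intro a
  unfold H583R2.dY
  rw [stripT_snd]
  rfl

theorem PF.encZ (e : ℕ) {y : α → List Bool} (hy : PF y) : PF (fun a => encZ e (y a)) := by
  have h := PF.foldrAdd (l := y) (s := fun _ => ([] : List Bool))
    (f := fun _ b s => b :: (List.replicate e false ++ s)) hy (PF.const _)
    (PF.cons (PF.fst' PF.snd) (PF.append (PF.const _) (PF.snd' PF.snd)))
    (inc := fun a => 6 + sz (List.replicate e false)) (bnd := fun _ => 0)
    (PB.const _) (PB.const 0) (by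
      intro a b _ st
      have h1 := sz_bool b
      have h2 := sz_append (List.replicate e false) st
      rw [sz_cons]
      omega)
  refine (PF.append (PF.const (List.replicate e true)) (PF.cons (PF.const false) h)).congr ?_
  intro a
  unfold H583R2.encZ
  congr 2
  induction y a with
  | nil => rfl
  | cons b l ih => rw [List.foldr_cons, ih]; simp

/-! trees -/

theorem PF.mkNode {x y : α → Tr} (hx : PF x) (hy : PF y) : PF (fun a => Tr.node (x a) (y a)) := by
  have h : PF (fun p : Tr × Tr => Tr.node p.1 p.2) := PF.cast _ (fun p => rfl)
  exact h.comp (hx.pair hy)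

theorem PF.trList {x : α → Tr} (hx : PF x) : PF (fun a => trList (x a)) := by
  have h : PF (fun t : Tr => H583R2.trList t) := by
    refine PF.cast _ ?_
    intro t
    induction t with
    | leaf => rfl
    | node x y _ ih =>
      change Tr.node x (encList (H583R2.trList y)) = Tr.node x y
      have ih' : encList (H583R2.trList y) = y := ih
      rw [ih']
  exact h.comp hx

theorem PF.trFst {x : α → Tr} (hx : PF x) : PF (fun a => trFst (x a)) :=
  (PF.headD (PF.trList hx) (PF.const Tr.leaf)).congr (fun a => by cases x a <;> rfl)

theorem PF.trSnd {x : α → Tr} (hx : PF x) : PF (fun a => trSnd (x a)) := by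
  have h : PF (fun l : List Tr => (enc l : Tr)) := PF.cast _ (fun l => rfl)
  refine (h.comp (PF.tail (PF.trList hx))).congr ?_
  intro a
  have key : ∀ t : Tr, enc (H583R2.trList t) = t := by
    intro t
    induction t with
    | leaf => rfl
    | node x y _ ih =>
      change Tr.node x (encList (H583R2.trList y)) = Tr.node x y
      have ih' : encList (H583R2.trList y) = y := ih
      rw [ih']
  rcases x a with _ | ⟨u, v⟩
  · rfl
  · exact key v

theorem PF.decB {x : α → Tr} (hx : PF x) : PF (fun a => decB (x a)) :=
  (PF.not (PF.isEmpty (PF.trList hx))).congr (fun a => by cases x a <;> rfl)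

theorem PF.decN {x : α → Tr} (hx : PF x) : PF (fun a => decN (x a)) :=
  PF.length (PF.trList hx)

theorem PF.decL {d : Tr → β} (hd : PF d) {x : α → Tr} (hx : PF x) :
    PF (fun a => decL d (x a)) :=
  PF.map (f := fun _ t => d t) (PF.trList hx) (hd.comp PF.snd)

theorem PF.decP {d : Tr → β} {d' : Tr → γ} (hd : PF d) (hd' : PF d') {x : α → Tr} (hx : PF x) :
    PF (fun a => decP d d' (x a)) :=
  PF.pair (hd.comp (PF.trFst hx)) (hd'.comp (PF.trSnd hx))

theorem PF.decCode {x : α → Tr} (hx : PF x) : PF (fun a => decCode (x a)) := by
  have hn : PF (fun t : Tr => H583R2.decN t) := PF.decN PF.id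
  have hb : PF (fun t : Tr => H583R2.decB t) := PF.decB PF.id
  have hb' : PF (fun t : Tr => H583R2.decL H583R2.decB t) := PF.decL hb PF.id
  have h2 : PF (fun t : Tr => H583R2.decP H583R2.decN H583R2.decN t) := PF.decP hn hn PF.id
  have h3 : PF (fun t : Tr => H583R2.decP H583R2.decN
    (H583R2.decP H583R2.decN H583R2.decN) t) := PF.decP hn h2 PF.id
  have h4 : PF (fun t : Tr => H583R2.decL (H583R2.decP H583R2.decN
    (H583R2.decP H583R2.decN H583R2.decN)) t) := PF.decL h3 PF.id
  have h5 : PF (fun t : Tr => H583R2.decP H583R2.decN (H583R2.decL (H583R2.decP H583R2.decN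
    (H583R2.decP H583R2.decN H583R2.decN))) t) := PF.decP hn h4 PF.id
  have h6 := PF.decL h5 (PF.id (α := Tr))
  have h7 := PF.decP hn hb' (PF.id (α := Tr))
  have h8 := PF.decP h2 h7 (PF.id (α := Tr))
  have h9 := PF.decP hn h8 (PF.id (α := Tr))
  have h10 := PF.decP hn h9 (PF.id (α := Tr))
  have h11 := PF.decP hn h10 (PF.id (α := Tr))
  exact PF.decP h6 h11 hx

theorem PF.parse {x : α → List Bool} (hx : PF x) : PF (fun a => parse (x a)) := by
  have h1 : PF (fun p : (α × Bool × List Tr) × Tr × List Tr => match p.2.2 with
      | [] => p.2.1 :: p.2.2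
      | y :: r => Tr.node p.2.1 y :: r) :=
    (PF.listCase (l := fun p : (α × Bool × List Tr) × Tr × List Tr => p.2.2)
      (g := fun p => p.2.1 :: p.2.2) (h := fun p y r => Tr.node p.2.1 y :: r)
      (PF.snd' PF.snd) (PF.cons (PF.fst' PF.snd) (PF.snd' PF.snd))
      (PF.cons (PF.mkNode (PF.fst' (PF.snd' PF.fst)) (PF.fst' PF.snd)) (PF.snd' PF.snd))).congr
      (by rintro ⟨a, x, t⟩; cases t <;> rfl)
  have h2 : PF (fun p : α × Bool × List Tr => match p.2.2 with
      | [] => []
      | x :: t => match t with
        | [] => x :: t
        | y :: r => Tr.node x y :: r) :=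
    (PF.listCase (l := fun p : α × Bool × List Tr => p.2.2) (g := fun _ => [])
        (h := fun _ x t => match t with
          | [] => x :: t
          | y :: r => Tr.node x y :: r) (PF.snd' PF.snd) (PF.const [])
        (h1.congr (by rintro ⟨a, x, t⟩; cases t <;> rfl))).congr
      (by rintro ⟨a, b, t⟩; cases t <;> rfl)
  have h := PF.foldrAdd (l := x) (s := fun _ => ([] : List Tr))
    (f := fun _ b s => parseStep b s) hx (PF.const _)
    ((PF.ite (PF.fst' PF.snd) h2 (PF.cons (PF.const Tr.leaf) (PF.snd' PF.snd))).congr
      (by rintro ⟨a, b, t⟩; cases b <;> rcases t with _ | ⟨x, _ | ⟨y, r⟩⟩ <;> rfl))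
    (PB.const 2) (PB.const 0) (by
      intro a b _ st
      refine le_trans ?_ (le_max_left _ _)
      unfold parseStep
      split
      · rcases st with _ | ⟨x, _ | ⟨y, r⟩⟩
        · simp
        · simp
        · simp only [sz_cons]
          have : sz (Tr.node x y) = 1 + sz x + sz y := tsz_node x y
          omega
      · rw [sz_cons]
        have : sz Tr.leaf = 1 := rfl
        omega)
  exact PF.headD h (PF.const Tr.leaf)

theorem PF.mE {e : α → ℕ} (he : PF e) : PF (fun a => mE (e a)) :=
  PF.decCode (PF.parse (PF.str he))

theorem PF.mD {e : α → ℕ} (he : PF e) : PF (fun a => mD (e a)) :=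
  PF.decP (PF.decCode PF.id) (PF.decN PF.id) (PF.parse (PF.str he))

theorem PF.mR {e : α → ℕ} (he : PF e) : PF (fun a => mR (e a)) :=
  PF.decP (PF.decN PF.id) (PF.decCode PF.id) (PF.parse (PF.str he))

end

end Pool.Agent.H583R2
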