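import Pool.Agent.H583R2.Mart

/-!
The betting strategy against the languages coded into `AA` infinitely often.
-/

namespace Pool.Agent.H583R2

open Computability

/-- relevant stages -/
def Rl (s : ℕ) : Prop := rC (recS s) = true ∧ dE (rZ (recS s)) ≤ blk s

/-- position at which stage `s` is used -/
def qq (s : ℕ) : ℕ := idx (dY (rZ (recS s)))

instance (s : ℕ) : Decidable (Rl s) := inferInstanceAs (Decidable (_ ∧ _))

theorem y_lower {s : ℕ} (h : Rl s) :
    2 * nn s ^ (ka (blk s) + 1) ≤ (dY (rZ (recS s))).length + 1 := by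
  have h1 := (loc_bounds h.1).1
  have h2 := length_le_dd (rZ (recS s))
  have h3 := blk_le s
  have h4 := expo_mul_le s
  have h5 := two_pow_le_nn s
  have h6 : 2 * (s + 1) ≤ nn s := by
    have := Nat.lt_two_pow_self (n := s)
    rw [pow_add] at h5
    omega
  have h7 : dE (rZ (recS s)) + 1 ≤ s + 1 := by have := h.2; omega
  set E := nn s ^ (ka (blk s) + 1) with hE
  set e := dE (rZ (recS s)) with he
  set y := (dY (rZ (recS s))).length with hy
  have h8 : E * (2 * (s + 1)) ≤ th s := by rw [← h4]; exact Nat.mul_le_mul_left _ h6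
  have h9 : (e + 1) * (2 * E) ≤ (e + 1) * (y + 1) := by
    calc (e + 1) * (2 * E) ≤ (s + 1) * (2 * E) := Nat.mul_le_mul_right _ h7
      _ = E * (2 * (s + 1)) := by ring
      _ ≤ th s := h8
      _ ≤ (rZ (recS s)).length := h1
      _ ≤ _ := h2
  exact Nat.le_of_mul_le_mul_left h9 (by omega)

theorem y_upper {s : ℕ} (h : rC (recS s) = true) :
    (dE (rZ (recS s)) + 1) * ((dY (rZ (recS s))).length + 1) ≤ nn (s + 1) := by
  have h1 := (loc_bounds h).2
  have h2 := dd_le_length (rZ (recS s))
  have h3 := loc_lt s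
  omega

theorem cap_le_qq {s : ℕ} (h : Rl s) : cap s < qq s := by
  have h1 := y_lower h
  have h2 := le_idx (dY (rZ (recS s)))
  have h3 := nn_le_pow s (ka (blk s))
  have h4 := lt_nn s
  unfold qq cap
  set E := nn s ^ (ka (blk s) + 1) with hE
  have h5 : 2 ^ (E + 1) ≤ 2 ^ (dY (rZ (recS s))).length :=
    Nat.pow_le_pow_right (by norm_num) (by omega)
  rw [pow_succ] at h5
  have h6 := Nat.lt_two_pow_self (n := E)
  omega

theorem lt_qq {s : ℕ} (h : Rl s) : s < qq s := by
  have h1 := cap_le_qq h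
  have h2 := nn_lt_cap s
  have h3 := lt_nn s
  omega

theorem qq_lt {s s' : ℕ} (h : Rl s) (h' : Rl s') (hl : s < s') : qq s < qq s' := by
  have h1 := y_upper h.1
  have h2 := y_lower h'
  have h3 := nn_le_of_lt hl
  have h4 := nn_le_pow s' (ka (blk s'))
  have h5 := lt_nn (s + 1)
  have h6 : (dY (rZ (recS s))).length + 1 ≤
      (dE (rZ (recS s)) + 1) * ((dY (rZ (recS s))).length + 1) :=
    Nat.le_mul_of_pos_left _ (Nat.succ_pos _)
  have h7 : (dY (rZ (recS s))).length + 1 ≤ (dY (rZ (recS s'))).length := by omega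
  have h8 : 2 ^ ((dY (rZ (recS s))).length + 1) ≤ 2 ^ (dY (rZ (recS s'))).length :=
    Nat.pow_le_pow_right (by norm_num) h7
  have h9 := idx_lt (dY (rZ (recS s)))
  have h10 := le_idx (dY (rZ (recS s')))
  unfold qq
  omega

theorem qq_inj {s s' : ℕ} (h : Rl s) (h' : Rl s') (e : qq s = qq s') : s = s' := by
  rcases lt_trichotomy s s' with hl | hl | hl
  · have := qq_lt h h' hl; omega
  · exact hl
  · have := qq_lt h' h hl; omega

/-- the stage used at position `m` -/
def findS (H : List Rec) (m : ℕ) : Option Rec :=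
  H.find? (fun x => rC x && (decide (dE (rZ x) ≤ rR x) && decide (idx (dY (rZ x)) = m)))

/-- is the record consistent with the word `w`? -/
def okR (w : List Bool) (x : Rec) : Bool := w.getD (idx (dY (rZ x))) false == rB x

/-- bet as a fraction -/
def dval (r : ℕ) (b : Bool) (P : List Rec) (w : List Bool) : ℕ × ℕ :=
  if P.all (okR w) then
    ((if b then 4 ^ (r + 1) - 1 else 4 ^ (r + 1) - 1 + 2 ^ (P.length + 1)),
      2 * (4 ^ (r + 1) - 1 + 2 ^ P.length))
  else (1, 2)

def priorW (r e m : ℕ) (H : List Rec) : List Rec :=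
  (prior r e H).filter (fun x => decide (idx (dY (rZ x)) < m))

def dFH (H : List Rec) (w : List Bool) : ℕ × ℕ :=
  match findS H w.length with
  | none => (1, 2)
  | some x => dval (rR x) (rB x) (priorW (rR x) (dE (rZ x)) w.length H) w

/-- the betting strategy -/
def dF (w : List Bool) : ℕ × ℕ := dFH (hist w.length) w

theorem findS_none {S m : ℕ} (h : ∀ s, s < S → Rl s → qq s ≠ m) : findS (hist S) m = none := by
  unfold findS
  rw [List.find?_eq_none]
  intro x hx
  rw [hist_eq] at hx
  obtain ⟨s, hs, rfl⟩ := List.mem_map.1 hx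
  simp only [Bool.and_eq_true, decide_eq_true_eq, rR_recS]
  rintro ⟨h1, h2, h3⟩
  exact h s (List.mem_range.1 hs) ⟨h1, h2⟩ h3

theorem findS_some {S s m : ℕ} (hs : s < S) (h : Rl s) (hm : qq s = m) :
    findS (hist S) m = some (recS s) := by
  unfold findS
  rcases hf : (hist S).find? (fun x => rC x && (decide (dE (rZ x) ≤ rR x) &&
    decide (idx (dY (rZ x)) = m))) with _ | x
  · exfalso
    have := List.find?_eq_none.1 hf (recS s) (by
      rw [hist_eq]; exact List.mem_map.2 ⟨s, List.mem_range.2 hs, rfl⟩)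
    apply this
    simp only [Bool.and_eq_true, decide_eq_true_eq, rR_recS]
    exact ⟨h.1, h.2, hm⟩
  · have h1 := List.find?_some hf
    have h2 := List.mem_of_find?_eq_some hf
    rw [hist_eq] at h2
    obtain ⟨s', hs', rfl⟩ := List.mem_map.1 h2
    simp only [Bool.and_eq_true, decide_eq_true_eq, rR_recS] at h1
    have : s = s' := qq_inj h ⟨h1.1, h1.2.1⟩ (by rw [hm]; exact h1.2.2.symm)
    rw [this]

theorem priorW_self {s : ℕ} (h : Rl s) :
    priorW (blk s) (dE (rZ (recS s))) (qq s) (hist s) =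
      prior (blk s) (dE (rZ (recS s))) (hist s) := by
  unfold priorW
  rw [List.filter_eq_self]
  intro x hx
  obtain ⟨s', h1, rfl, h2, h3, h4⟩ := mem_prior.1 hx
  rw [decide_eq_true_eq]
  exact qq_lt ⟨h2, by rw [h4, h3]; exact h.2⟩ h h1

theorem priorW_hist {S s : ℕ} (hs : s ≤ S) (h : Rl s) :
    priorW (blk s) (dE (rZ (recS s))) (qq s) (hist S) =
      prior (blk s) (dE (rZ (recS s))) (hist s) := by
  induction S, hs using Nat.le_induction with
  | base => exact priorW_self h
  | succ S hS ih =>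
    rw [← ih]
    have e : hist (S + 1) = hist S ++ [recS S] := rfl
    unfold priorW prior
    rw [e, List.filter_append, List.filter_append]
    have : (([recS S].filter (fun x => rC x && (decide (rR x = blk s) &&
        decide (dE (rZ x) = dE (rZ (recS s)))))).filter
        (fun x => decide (idx (dY (rZ x)) < qq s))) = [] := by
      rw [List.filter_filter, List.filter_eq_nil_iff]
      intro x hx
      rw [List.mem_singleton] at hx
      subst hx
      simp only [Bool.and_eq_true, decide_eq_true_eq, rR_recS]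
      rintro ⟨h1, h2, h3, h4⟩
      have h5 : Rl S := ⟨h2, by rw [h4, h3]; exact h.2⟩
      rcases Nat.eq_or_lt_of_le hS with h6 | h6
      · subst h6; exact absurd h1 (lt_irrefl _)
      · have := qq_lt h h5 h6
        unfold qq at h1 this
        omega
    rw [this, List.append_nil]

theorem dFH_some {S s : ℕ} {w : List Bool} (hs : s < S) (h : Rl s) (hm : qq s = w.length) :
    dFH (hist S) w = dval (blk s) (rB (recS s))
      (prior (blk s) (dE (rZ (recS s))) (hist s)) w := by
  unfold dFH
  rw [findS_some hs h hm]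
  simp only
  rw [rR_recS, ← hm, priorW_hist hs.le h]

theorem dFH_none {S : ℕ} {w : List Bool} (h : ∀ s, s < S → Rl s → qq s ≠ w.length) :
    dFH (hist S) w = (1, 2) := by
  unfold dFH
  rw [findS_none h]

/-- the value of the strategy only depends on a sufficiently long history -/
theorem dFH_eq {S : ℕ} {w : List Bool} (h : ∀ s, Rl s → qq s = w.length → s < S) :
    dFH (hist S) w = dF w := by
  unfold dF
  by_cases hex : ∃ s, Rl s ∧ qq s = w.length
  · obtain ⟨s, h1, h2⟩ := hex
    rw [dFH_some (h s h1 h2) h1 h2, dFH_some (S := w.length) (by rw [← h2]; exact lt_qq h1) h1 h2]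
  · push_neg at hex
    rw [dFH_none (fun s _ h1 => hex s h1), dFH_none (fun s _ h1 => hex s h1)]

/-- the strategy as a rational-valued function -/
def dS (w : List Bool) : ℚ := ((dF w).1 : ℚ) / ((dF w).2 : ℚ)

theorem dval_rep (r : ℕ) (b : Bool) (P : List Rec) (w : List Bool) :
    0 < (dval r b P w).2 ∧ (dval r b P w).1 ≤ (dval r b P w).2 := by
  unfold dval
  have h1 : 1 ≤ 4 ^ (r + 1) := Nat.one_le_pow _ _ (by norm_num)
  have h2 : 1 ≤ 2 ^ P.length := Nat.one_le_two_pow
  have h3 : 2 ^ (P.length + 1) = 2 ^ P.length * 2 := pow_succ _ _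
  split
  · simp only
    split <;> omega
  · norm_num

theorem dS_rep : Rep dF dS := by
  intro w
  refine ⟨?_, ?_, rfl⟩
  · unfold dF dFH
    split
    · norm_num
    · exact (dval_rep _ _ _ _).1
  · unfold dF dFH
    split
    · norm_num
    · exact (dval_rep _ _ _ _).2

/-! the capital as a product -/

def cc (r : ℕ) : ℚ := 1 / 4 ^ (r + 1)

def beta (B : List Bool → Bool) (s : ℕ) : ℚ :=
  if B (dY (rZ (recS s))) = rB (recS s) then 2 else 0

def XX (B : List Bool → Bool) (T L r e : ℕ) : ℚ :=
  ∏ s ∈ Finset.range T,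
    (if Rl s ∧ blk s = r ∧ dE (rZ (recS s)) = e ∧ qq s < L then beta B s else 1)

def PT (T : ℕ) : Finset (Σ _ : ℕ, ℕ) := (Finset.range T).sigma (fun r => Finset.range (r + 1))

def fac (B : List Bool → Bool) (T L : ℕ) (p : Σ _ : ℕ, ℕ) : ℚ :=
  1 + cc p.1 * (XX B T L p.1 p.2 - 1)

theorem XX_zero (B : List Bool → Bool) (T r e : ℕ) : XX B T 0 r e = 1 := by
  unfold XX
  refine Finset.prod_eq_one ?_
  intro s _
  rw [if_neg]
  rintro ⟨_, _, _, h⟩
  omega

theorem XX_none {B : List Bool → Bool} {T L r e : ℕ} (h : ∀ s, Rl s → qq s ≠ L) :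
    XX B T (L + 1) r e = XX B T L r e := by
  unfold XX
  refine Finset.prod_congr rfl ?_
  intro s _
  have : (Rl s ∧ blk s = r ∧ dE (rZ (recS s)) = e ∧ qq s < L + 1) ↔
      (Rl s ∧ blk s = r ∧ dE (rZ (recS s)) = e ∧ qq s < L) := by
    constructor
    · rintro ⟨h1, h2, h3, h4⟩
      have := h s h1
      exact ⟨h1, h2, h3, by omega⟩
    · rintro ⟨h1, h2, h3, h4⟩
      exact ⟨h1, h2, h3, by omega⟩
  simp only [this]

theorem XX_other {B : List Bool → Bool} {T L r e s0 : ℕ} (h : Rl s0) (hq : qq s0 = L)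
    (hne : ¬ (blk s0 = r ∧ dE (rZ (recS s0)) = e)) :
    XX B T (L + 1) r e = XX B T L r e := by
  unfold XX
  refine Finset.prod_congr rfl ?_
  intro s _
  have : (Rl s ∧ blk s = r ∧ dE (rZ (recS s)) = e ∧ qq s < L + 1) ↔
      (Rl s ∧ blk s = r ∧ dE (rZ (recS s)) = e ∧ qq s < L) := by
    constructor
    · rintro ⟨h1, h2, h3, h4⟩
      refine ⟨h1, h2, h3, ?_⟩
      rcases Nat.lt_succ_iff_lt_or_eq.1 h4 with h5 | h5
      · exact h5
      · exfalso
        have := qq_inj h1 h (by rw [h5, hq])
        subst this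
        exact hne ⟨h2, h3⟩
    · rintro ⟨h1, h2, h3, h4⟩
      exact ⟨h1, h2, h3, by omega⟩
  simp only [this]

theorem XX_self {B : List Bool → Bool} {T L s0 : ℕ} (h : Rl s0) (hq : qq s0 = L) (hT : s0 < T) :
    XX B T (L + 1) (blk s0) (dE (rZ (recS s0))) =
      XX B T L (blk s0) (dE (rZ (recS s0))) * beta B s0 := by
  unfold XX
  rw [← Finset.mul_prod_erase _ _ (Finset.mem_range.2 hT),
    ← Finset.mul_prod_erase _ _ (Finset.mem_range.2 hT), if_pos ⟨h, rfl, rfl, by omega⟩,
    if_neg (by rintro ⟨_, _, _, h1⟩; omega), one_mul, mul_comm]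
  congr 1
  refine Finset.prod_congr rfl ?_
  intro s hs
  have : (Rl s ∧ blk s = blk s0 ∧ dE (rZ (recS s)) = dE (rZ (recS s0)) ∧ qq s < L + 1) ↔
      (Rl s ∧ blk s = blk s0 ∧ dE (rZ (recS s)) = dE (rZ (recS s0)) ∧ qq s < L) := by
    constructor
    · rintro ⟨h1, h2, h3, h4⟩
      refine ⟨h1, h2, h3, ?_⟩
      rcases Nat.lt_succ_iff_lt_or_eq.1 h4 with h5 | h5
      · exact h5
      · exfalso
        have := qq_inj h1 h (by rw [h5, hq])
        exact (Finset.mem_erase.1 hs).1 this
    · rintro ⟨h1, h2, h3, h4⟩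
      exact ⟨h1, h2, h3, by omega⟩
  simp only [this]

/-- all records of `P` are correct for `B` -/
def okB (B : List Bool → Bool) (x : Rec) : Bool := B (dY (rZ x)) == rB x

theorem XX_val {B : List Bool → Bool} {T s0 : ℕ} (h : Rl s0) (hT : s0 < T) :
    XX B T (qq s0) (blk s0) (dE (rZ (recS s0))) =
      if (prior (blk s0) (dE (rZ (recS s0))) (hist s0)).all (okB B) = true
        then 2 ^ (prior (blk s0) (dE (rZ (recS s0))) (hist s0)).length else 0 := by
  unfold XX
  rw [length_prior]
  set r := blk s0 with hr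
  set e := dE (rZ (recS s0)) with he
  set Q := (Finset.range s0).filter (fun s => rC (recS s) = true ∧ blk s = r ∧
      dE (rZ (recS s)) = e) with hQ
  have h1 : (∏ s ∈ Finset.range T, (if Rl s ∧ blk s = r ∧ dE (rZ (recS s)) = e ∧ qq s < qq s0
      then beta B s else 1)) = ∏ s ∈ Q, beta B s := by
    rw [← Finset.prod_filter]
    refine Finset.prod_congr ?_ (fun _ _ => rfl)
    ext s
    rw [hQ, Finset.mem_filter, Finset.mem_filter, Finset.mem_range, Finset.mem_range]
    constructor
    · rintro ⟨h2, h3, h4, h5, h6⟩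
      refine ⟨?_, h3.1, h4, h5⟩
      rcases lt_trichotomy s s0 with hl | hl | hl
      · exact hl
      · subst hl; omega
      · have := qq_lt h h3 hl; omega
    · rintro ⟨h2, h3, h4, h5⟩
      have h6 : Rl s := ⟨h3, by rw [h5, h4]; exact h.2⟩
      exact ⟨by omega, h6, h4, h5, qq_lt h6 h h2⟩
  rw [h1]
  split
  · rename_i hall
    rw [List.all_eq_true] at hall
    rw [← Finset.prod_const]
    refine Finset.prod_congr rfl ?_
    intro s hs
    rw [hQ, Finset.mem_filter, Finset.mem_range] at hs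
    have := hall (recS s) (mem_prior.2 ⟨s, hs.1, rfl, hs.2.1, hs.2.2.1, hs.2.2.2⟩)
    unfold okB at this
    rw [beq_iff_eq] at this
    unfold beta
    rw [if_pos this]
  · rename_i hall
    rw [Bool.not_eq_true, List.all_eq_false] at hall
    obtain ⟨x, hx, hx2⟩ := hall
    obtain ⟨s, h2, rfl, h3, h4, h5⟩ := mem_prior.1 hx
    refine Finset.prod_eq_zero (i := s) ?_ ?_
    · rw [hQ, Finset.mem_filter, Finset.mem_range]
      exact ⟨h2, h3, h4, h5⟩
    · unfold okB at hx2
      rw [beq_iff_eq] at hx2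
      unfold beta
      rw [if_neg hx2]

theorem okR_pre {B : List Bool → Bool} {s0 : ℕ} (h : Rl s0) :
    (prior (blk s0) (dE (rZ (recS s0))) (hist s0)).all (okR (pre B (qq s0))) =
      (prior (blk s0) (dE (rZ (recS s0))) (hist s0)).all (okB B) := by
  have key : ∀ x ∈ prior (blk s0) (dE (rZ (recS s0))) (hist s0),
      okR (pre B (qq s0)) x = okB B x := by
    intro x hx
    obtain ⟨s, h2, rfl, h3, h4, h5⟩ := mem_prior.1 hx
    have h6 : Rl s := ⟨h3, by rw [h5, h4]; exact h.2⟩
    have h7 : idx (dY (rZ (recS s))) < qq s0 := qq_lt h6 h h2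
    unfold okR okB pre
    rw [List.getD_eq_getElem?_getD, List.getElem?_map, List.getElem?_range h7]
    simp only [Option.map_some, Option.getD_some]
    rw [str_idx]
  rw [Bool.eq_iff_iff, List.all_eq_true, List.all_eq_true]
  constructor
  · intro h1 x hx; rw [← key x hx]; exact h1 x hx
  · intro h1 x hx; rw [key x hx]; exact h1 x hx

theorem bet_step (Q Y : ℚ) (hQ : 1 ≤ Q) (hY : 1 ≤ Y) (b bit : Bool) :
    2 * |bq bit - (if b then Q - 1 else Q - 1 + 2 * Y) / (2 * (Q - 1 + Y))| *
      (1 + 1 / Q * (Y - 1)) = 1 + 1 / Q * (Y * (if bit = b then 2 else 0) - 1) := by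
  have h1 : 0 < Q := by linarith
  have h2 : 0 < Q - 1 + Y := by linarith
  have e1 : 1 + 1 / Q * (Y - 1) = (Q - 1 + Y) / Q := by field_simp; ring
  rw [e1]
  cases b <;> cases bit
  · have e : bq false - (if false = true then Q - 1 else Q - 1 + 2 * Y) / (2 * (Q - 1 + Y)) =
        -((Q - 1 + 2 * Y) / (2 * (Q - 1 + Y))) := by unfold bq; simp
    rw [e, abs_neg, abs_of_nonneg (div_nonneg (by linarith) (by linarith))]
    simp only [if_true]
    field_simp
    ring
  · have e : bq true - (if false = true then Q - 1 else Q - 1 + 2 * Y) / (2 * (Q - 1 + Y)) =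
        (Q - 1) / (2 * (Q - 1 + Y)) := by
      unfold bq; simp only [Bool.false_eq_true, if_false, if_true]; field_simp; ring
    rw [e, abs_of_nonneg (div_nonneg (by linarith) (by linarith))]
    simp only [Bool.true_eq_false, if_false]
    field_simp
    ring
  · have e : bq false - (if true = true then Q - 1 else Q - 1 + 2 * Y) / (2 * (Q - 1 + Y)) =
        -((Q - 1) / (2 * (Q - 1 + Y))) := by unfold bq; simp
    rw [e, abs_neg, abs_of_nonneg (div_nonneg (by linarith) (by linarith))]
    simp only [Bool.false_eq_true, if_false]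
    field_simp
    ring
  · have e : bq true - (if true = true then Q - 1 else Q - 1 + 2 * Y) / (2 * (Q - 1 + Y)) =
        (Q - 1 + 2 * Y) / (2 * (Q - 1 + Y)) := by
      unfold bq; simp only [if_true]; field_simp; ring
    rw [e, abs_of_nonneg (div_nonneg (by linarith) (by linarith))]
    simp only [if_true]
    field_simp
    ring

theorem capi_prod (B : List Bool → Bool) (T L : ℕ) (hL : L ≤ T) :
    capi dS B L = ∏ p ∈ PT T, fac B T L p := by
  induction L with
  | zero =>
    symm
    refine Finset.prod_eq_one ?_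
    intro p _
    unfold fac
    rw [XX_zero]
    ring
  | succ L ih =>
    have ih' := ih (by omega)
    change 2 * |bq (B (str L)) - dS (pre B L)| * capi dS B L = _
    by_cases hex : ∃ s, Rl s ∧ qq s = L
    · obtain ⟨s0, h1, h2⟩ := hex
      have hs0 := lt_qq h1
      have hb := blk_le s0
      have hmem : (⟨blk s0, dE (rZ (recS s0))⟩ : Σ _ : ℕ, ℕ) ∈ PT T := by
        unfold PT
        rw [Finset.mem_sigma]
        refine ⟨Finset.mem_range.2 (show blk s0 < T by omega), Finset.mem_range.2 ?_⟩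
        exact Nat.lt_succ_of_le h1.2
      rw [ih', ← Finset.mul_prod_erase _ _ hmem, ← Finset.mul_prod_erase _ _ hmem, ← mul_assoc]
      congr 1
      · unfold fac
        rw [XX_self h1 h2 (by omega), ← h2, XX_val h1 (by omega)]
        have hd : dF (pre B (qq s0)) = dval (blk s0) (rB (recS s0))
            (prior (blk s0) (dE (rZ (recS s0))) (hist s0)) (pre B (qq s0)) := by
          unfold dF
          rw [length_pre]
          exact dFH_some hs0 h1 (length_pre _ _).symm
        have hy : str (qq s0) = dY (rZ (recS s0)) := str_idx _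
        unfold dS
        rw [hd, hy]
        unfold dval
        rw [okR_pre h1]
        split
        · have h4 : (1 : ℚ) ≤ 4 ^ (blk s0 + 1) := one_le_pow₀ (by norm_num)
          have h5 : (1 : ℚ) ≤ 2 ^ (prior (blk s0) (dE (rZ (recS s0))) (hist s0)).length :=
            one_le_pow₀ (by norm_num)
          have h6 := bet_step _ _ h4 h5 (rB (recS s0)) (B (dY (rZ (recS s0))))
          have h7 : 1 ≤ 4 ^ (blk s0 + 1) := Nat.one_le_pow _ _ (by norm_num)
          unfold cc beta
          rw [← h6]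
          congr 4
          simp only
          push_cast [Nat.cast_sub h7]
          split
          · rfl
          · rw [pow_succ 2, mul_comm (2 ^ _) (2 : ℚ)]
        · simp only [zero_mul]
          have : 2 * |bq (B (dY (rZ (recS s0)))) - ((1 : ℕ) : ℚ) / ((2 : ℕ) : ℚ)| = 1 := by
            cases B (dY (rZ (recS s0)))
            · unfold bq; norm_num [abs_of_nonneg, abs_of_nonpos]
            · unfold bq; norm_num [abs_of_nonneg]
          rw [this, one_mul]
      · refine Finset.prod_congr rfl ?_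
        intro p hp
        unfold fac
        rw [XX_other h1 h2]
        rintro ⟨h3, h4⟩
        apply (Finset.mem_erase.1 hp).1
        obtain ⟨r, e⟩ := p
        subst h3 h4
        rfl
    · push_neg at hex
      have hd : dF (pre B L) = (1, 2) := by
        unfold dF
        exact dFH_none (fun s _ h1 => by rw [length_pre]; exact hex s h1)
      have : 2 * |bq (B (str L)) - dS (pre B L)| = 1 := by
        unfold dS
        rw [hd]
        cases B (str L)
        · unfold bq; norm_num [abs_of_nonneg, abs_of_nonpos]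
        · unfold bq; norm_num [abs_of_nonneg]
      rw [this, one_mul, ih']
      refine Finset.prod_congr rfl ?_
      intro p _
      unfold fac
      rw [XX_none hex]

theorem prod_ge {ι : Type} [DecidableEq ι] (P : Finset ι) (f c : ι → ℚ) (h0 : ∀ p ∈ P, 0 ≤ c p)
    (h1 : ∀ p ∈ P, c p ≤ 1) (h2 : ∀ p ∈ P, 1 - c p ≤ f p) : 1 - ∑ p ∈ P, c p ≤ ∏ p ∈ P, f p := by
  induction P using Finset.induction_on with
  | empty => simp
  | insert a P ha ih =>
    rw [Finset.sum_insert ha, Finset.prod_insert ha]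
    have ih' := ih (fun p hp => h0 p (Finset.mem_insert_of_mem hp))
      (fun p hp => h1 p (Finset.mem_insert_of_mem hp))
      (fun p hp => h2 p (Finset.mem_insert_of_mem hp))
    have h3 := h0 a (Finset.mem_insert_self _ _)
    have h4 := h1 a (Finset.mem_insert_self _ _)
    have h5 := h2 a (Finset.mem_insert_self _ _)
    have h6 : 0 ≤ ∏ p ∈ P, f p := by
      refine Finset.prod_nonneg ?_
      intro p hp
      have := h1 p (Finset.mem_insert_of_mem hp)
      have := h2 p (Finset.mem_insert_of_mem hp)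
      linarith
    have h7 : 0 ≤ ∑ p ∈ P, c p := Finset.sum_nonneg
      (fun p hp => h0 p (Finset.mem_insert_of_mem hp))
    have h8 : (1 - c a) * (∏ p ∈ P, f p) ≤ f a * ∏ p ∈ P, f p :=
      mul_le_mul_of_nonneg_right h5 h6
    have h9 : (1 - c a) * (1 - ∑ p ∈ P, c p) ≤ (1 - c a) * ∏ p ∈ P, f p :=
      mul_le_mul_of_nonneg_left ih' (by linarith)
    nlinarith

theorem sum_cc (T : ℕ) : ∑ p ∈ PT T, cc p.1 = 4 / 9 - (3 * T + 4) / (9 * 4 ^ T) := by
  unfold PT
  rw [Finset.sum_sigma]
  simp only [Finset.sum_const, Finset.card_range, nsmul_eq_mul]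
  induction T with
  | zero => norm_num
  | succ T ih =>
    rw [Finset.sum_range_succ, ih]
    unfold cc
    push_cast
    rw [pow_succ]
    field_simp
    ring

theorem XX_nonneg (B : List Bool → Bool) (T L r e : ℕ) : 0 ≤ XX B T L r e := by
  unfold XX
  refine Finset.prod_nonneg ?_
  intro s _
  unfold beta
  split
  · split <;> norm_num
  · norm_num

theorem cc_pos (r : ℕ) : 0 < cc r := by unfold cc; positivity

theorem cc_le (r : ℕ) : cc r ≤ 1 := by
  unfold cc
  rw [div_le_one (by positivity)]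
  exact one_le_pow₀ (by norm_num)

theorem gain {B : List Bool → Bool} {s0 : ℕ} (h : Rl s0)
    (hall : (prior (blk s0) (dE (rZ (recS s0))) (hist s0)).all (okB B) = true)
    (hlen : 3 * blk s0 ≤ (prior (blk s0) (dE (rZ (recS s0))) (hist s0)).length) :
    (5 / 36 : ℚ) * 2 ^ blk s0 ≤ capi dS B (qq s0) := by
  have hs0 := lt_qq h
  have hb := blk_le s0
  rw [capi_prod B (qq s0) (qq s0) (le_refl _)]
  have hmem : (⟨blk s0, dE (rZ (recS s0))⟩ : Σ _ : ℕ, ℕ) ∈ PT (qq s0) := by
    unfold PT
    rw [Finset.mem_sigma]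
    refine ⟨Finset.mem_range.2 (show blk s0 < qq s0 by omega), Finset.mem_range.2 ?_⟩
    exact Nat.lt_succ_of_le h.2
  rw [← Finset.mul_prod_erase _ _ hmem]
  have h1 : (5 / 9 : ℚ) ≤ ∏ p ∈ (PT (qq s0)).erase ⟨blk s0, dE (rZ (recS s0))⟩,
      fac B (qq s0) (qq s0) p := by
    have h2 := prod_ge ((PT (qq s0)).erase ⟨blk s0, dE (rZ (recS s0))⟩)
      (fac B (qq s0) (qq s0)) (fun p => cc p.1) (fun p _ => (cc_pos _).le)
      (fun p _ => cc_le _) (fun p _ => by
        unfold fac
        have h3 := XX_nonneg B (qq s0) (qq s0) p.1 p.2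
        have h4 := (cc_pos p.1).le
        nlinarith [mul_nonneg h4 h3])
    have h3 : ∑ p ∈ (PT (qq s0)).erase ⟨blk s0, dE (rZ (recS s0))⟩, cc p.1 ≤
        ∑ p ∈ PT (qq s0), cc p.1 :=
      Finset.sum_le_sum_of_subset_of_nonneg (Finset.erase_subset _ _)
        (fun p _ _ => (cc_pos _).le)
    have h4 : (0 : ℚ) ≤ (3 * (qq s0 : ℚ) + 4) / (9 * 4 ^ (qq s0)) := by positivity
    rw [sum_cc] at h3
    linarith
  have h2 : cc (blk s0) * 2 ^ (3 * blk s0) ≤
      fac B (qq s0) (qq s0) ⟨blk s0, dE (rZ (recS s0))⟩ := by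
    unfold fac
    simp only
    rw [XX_val h hs0, if_pos hall]
    have h3 : (2 : ℚ) ^ (3 * blk s0) ≤
        2 ^ (prior (blk s0) (dE (rZ (recS s0))) (hist s0)).length :=
      pow_le_pow_right₀ (by norm_num) hlen
    have h4 := cc_le (blk s0)
    have h5 := cc_pos (blk s0)
    nlinarith [mul_le_mul_of_nonneg_left h3 h5.le]
  have h3 : cc (blk s0) * 2 ^ (3 * blk s0) = 2 ^ blk s0 / 4 := by
    unfold cc
    have e1 : (2 : ℚ) ^ (3 * blk s0) = 2 ^ blk s0 * 4 ^ blk s0 := by
      rw [show (4 : ℚ) = 2 ^ 2 by norm_num, ← pow_mul, ← pow_add]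
      congr 1; ring
    rw [e1, pow_succ]
    field_simp
  rw [h3] at h2
  have h4 : (0 : ℚ) < 2 ^ blk s0 := by positivity
  calc (5 / 36 : ℚ) * 2 ^ blk s0 = 2 ^ blk s0 / 4 * (5 / 9) := by ring
    _ ≤ _ := mul_le_mul h2 h1 (by norm_num) (by linarith [h2])

/-- either almost nothing of `Bv e` is destroyed, or the strategy wins on `Bv e` -/
theorem dichotomy (e : ℕ) : (∃ s0, ∀ s z, s0 ≤ s → Md s z → dE z ≠ e) ∨
    (∀ K : ℚ, ∃ L, K < capi dS (Bv e) L) := by
  by_cases hfin : ∃ s0, ∀ s z, s0 ≤ s → Md s z → dE z ≠ e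
  · exact Or.inl hfin
  · right
    push_neg at hfin
    intro K
    obtain ⟨r, hr⟩ := pow_unbounded_of_one_lt (36 / 5 * K) (by norm_num : (1 : ℚ) < 2)
    obtain ⟨s, z, hs, hm, hz⟩ := hfin (2 ^ (r + e))
    have hblk : r + e ≤ blk s := by
      unfold blk
      exact Nat.le_log_of_pow_le (by norm_num) (by omega)
    have hR : Rl s := ⟨hm.1, by rw [hm.2.2, hz]; omega⟩
    have hA := rA_case2 hm.1
    rw [hm.2.1] at hA
    unfold actF at hA
    have hA' := hA.symm
    rw [Bool.or_eq_true] at hA'
    rcases hA' with hA' | hA'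
    · rw [decide_eq_true_eq] at hA'
      have := hR.2
      omega
    · rw [Bool.and_eq_true, decide_eq_true_eq] at hA'
      have hall : (prior (blk s) (dE (rZ (recS s))) (hist s)).all (okB (Bv e)) = true := by
        have h2 := hA'.2
        have h3 : dE (rZ (recS s)) = e := by rw [hm.2.2, hz]
        rw [h3] at h2 ⊢
        exact h2
      have h4 := gain hR hall hA'.1
      refine ⟨qq s, ?_⟩
      have h5 : (2 : ℚ) ^ r ≤ 2 ^ blk s := pow_le_pow_right₀ (by norm_num) (by omega)
      linarith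

end Pool.Agent.H583R2
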