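import Pool.Agent.H583R2.Base

/-!
Trees serialised on stacks; moving, duplicating, dropping the top tree.
-/

namespace Pool.Agent.H583R2

/-- `p` runs from `S` to `S'` in at most `n` steps -/
def EvL (p : Prog) (S S' : St) (n : ℕ) : Prop := ∃ i ≤ n, Ev p S S' i

theorem EvL.mono {p : Prog} {S S' : St} {n n' : ℕ} (h : EvL p S S' n) (hn : n ≤ n') :
    EvL p S S' n' := by
  obtain ⟨i, hi, h⟩ := h
  exact ⟨i, hi.trans hn, h⟩

theorem EvL.skip (S : St) : EvL .skip S S 1 := ⟨1, le_refl _, .skip S⟩

theorem EvL.push (k : Sk) (x : Bool) (S : St) : EvL (.push k x) S (S.set k (x :: S.get k)) 1 :=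
  ⟨1, le_refl _, .push k x S⟩

theorem EvL.seq {p q : Prog} {S S' S'' : St} {i j : ℕ} (h1 : EvL p S S' i)
    (h2 : EvL q S' S'' j) : EvL (.seq p q) S S'' (i + j) := by
  obtain ⟨i', hi, h1⟩ := h1
  obtain ⟨j', hj, h2⟩ := h2
  exact ⟨i' + j', by omega, h1.seq h2⟩

theorem EvL.pop {k : Sk} {pn pf pt : Prog} {S S' : St} {i : ℕ}
    (h : EvL (sel (S.get k).head? pn pf pt) (S.set k (S.get k).tail) S' i) :
    EvL (.pop k pn pf pt) S S' (i + 1) := by
  obtain ⟨i', hi, h⟩ := h
  exact ⟨i' + 1, by omega, .pop h⟩

theorem EvL.whilDone {k : Sk} {cd : Option Bool → Bool} {p : Prog} {S : St}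
    (h : cd (S.get k).head? = false) : EvL (.whil k cd p) S S 1 :=
  ⟨1, le_refl _, .whilDone h⟩

theorem EvL.whilStep {k : Sk} {cd : Option Bool → Bool} {p : Prog} {S S' S'' : St} {i j : ℕ}
    (hc : cd (S.get k).head? = true) (h1 : EvL p S S' i) (h2 : EvL (.whil k cd p) S' S'' j) :
    EvL (.whil k cd p) S S'' (i + j + 1) := by
  obtain ⟨i', hi, h1⟩ := h1
  obtain ⟨j', hj, h2⟩ := h2
  exact ⟨i' + j' + 1, by omega, .whilStep hc h1 h2⟩

/-- total content -/
def St.tot (S : St) : ℕ :=
  S.m.length + S.a.length + S.b.length + S.t.length + S.c.length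

theorem St.tot_set (S : St) (k : Sk) (l : List Bool) :
    (S.set k l).tot + (S.get k).length = S.tot + l.length := by
  cases k <;> simp only [St.tot, St.set, St.get] <;> omega

theorem Ev.tot_le {p : Prog} {S S' : St} {n : ℕ} (h : Ev p S S' n) : S'.tot ≤ S.tot + n := by
  induction h with
  | skip S => omega
  | push k y S =>
    have := St.tot_set S k (y :: S.get k)
    simp only [List.length_cons] at this
    omega
  | seq _ _ h1 h2 => omega
  | @pop k pn pf pt S S' i _ h1 =>
    have := St.tot_set S k (S.get k).tail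
    simp only [List.length_tail] at this
    omega
  | whilDone _ => omega
  | whilStep _ _ _ h1 h2 => omega

theorem EvL.tot_le {p : Prog} {S S' : St} {n : ℕ} (h : EvL p S S' n) : S'.tot ≤ S.tot + n := by
  obtain ⟨i, hi, h⟩ := h
  have := h.tot_le
  omega

/-- binary trees -/
inductive Tr
  | leaf : Tr
  | node (x y : Tr) : Tr

/-- serialisation -/
def ser : Tr → List Bool
  | .leaf => [false]
  | .node x y => true :: (ser x ++ ser y)

def tsz (x : Tr) : ℕ := (ser x).length

theorem tsz_leaf : tsz .leaf = 1 := rfl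

theorem tsz_node (x y : Tr) : tsz (.node x y) = 1 + tsz x + tsz y := by
  simp only [tsz, ser, List.length_cons, List.length_append]; omega

theorem tsz_pos (x : Tr) : 1 ≤ tsz x := by
  cases x <;> simp [tsz, ser]

def kp (keep : Bool) (y : Bool) : Prog := if keep then .push .t y else .skip

/-- loop reading trees off stack `k` -/
def scanLoop (k : Sk) (keep : Bool) : Prog :=
  .whil .c (fun o => o == some true)
    (.seq (.pop .c .skip .skip .skip)
      (.pop k .skip (kp keep false) (.seq (kp keep true) (.seq (.push .c true) (.push .c true)))))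

/-- state with distinguished stack `k` among `m, a, b` -/
def view (k : Sk) (l x y t c : List Bool) : St :=
  match k with
  | .m => ⟨l, x, y, t, c⟩
  | .a => ⟨x, l, y, t, c⟩
  | .b => ⟨x, y, l, t, c⟩
  | .t => ⟨l, x, y, t, c⟩
  | .c => ⟨l, x, y, t, c⟩

def main3 (k : Sk) : Prop := k = .m ∨ k = .a ∨ k = .b

def kept (keep : Bool) (l T : List Bool) : List Bool := if keep then l.reverse ++ T else T

theorem scanLoop_leaf (k : Sk) (hk : main3 k) (keep : Bool) (rest x y T C : List Bool) :
    EvL (.seq (.pop .c .skip .skip .skip)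
      (.pop k .skip (kp keep false) (.seq (kp keep true) (.seq (.push .c true) (.push .c true)))))
      (view k (false :: rest) x y T (true :: C)) (view k rest x y (kept keep [false] T) C) 4 := by
  rcases hk with rfl | rfl | rfl <;> cases keep <;>
  exact EvL.seq (i := 2) (j := 2) (EvL.pop (EvL.skip _)) (EvL.pop (by
    first
      | exact EvL.skip _
      | exact EvL.push _ _ _))

theorem scanLoop_node (k : Sk) (hk : main3 k) (keep : Bool) (rest x y T C : List Bool) :
    EvL (.seq (.pop .c .skip .skip .skip)
      (.pop k .skip (kp keep false) (.seq (kp keep true) (.seq (.push .c true) (.push .c true)))))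
      (view k (true :: rest) x y T (true :: C))
      (view k rest x y (kept keep [true] T) (true :: true :: C)) 6 := by
  rcases hk with rfl | rfl | rfl <;> cases keep <;>
  exact EvL.seq (i := 2) (j := 4) (EvL.pop (EvL.skip _)) (EvL.pop (EvL.seq (i := 1) (j := 2) (by
    first
      | exact EvL.skip _
      | exact EvL.push _ _ _) (EvL.seq (EvL.push _ _ _) (EvL.push _ _ _))))

theorem view_c (k : Sk) (l x y t c : List Bool) : (view k l x y t c).get .c = c := by
  cases k <;> rfl

theorem kept_append (keep : Bool) (l l' T : List Bool) :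
    kept keep (l ++ l') T = kept keep l' (kept keep l T) := by
  cases keep <;> simp [kept]

theorem scan_aux (k : Sk) (hk : main3 k) (keep : Bool) (τ : Tr) :
    ∀ (rest x y T C : List Bool) (S' : St) (n : ℕ),
    EvL (scanLoop k keep) (view k rest x y (kept keep (ser τ) T) C) S' n →
    EvL (scanLoop k keep) (view k (ser τ ++ rest) x y T (true :: C)) S' (n + 7 * tsz τ) := by
  induction τ with
  | leaf =>
    intro rest x y T C S' n h
    refine (EvL.whilStep (i := 4) ?_ (scanLoop_leaf k hk keep rest x y T C) h).mono ?_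
    · rw [view_c]; rfl
    · rw [tsz_leaf]; omega
  | node u v ihu ihv =>
    intro rest x y T C S' n h
    have e : kept keep (ser (.node u v)) T =
        kept keep (ser v) (kept keep (ser u) (kept keep [true] T)) := by
      rw [← kept_append, ← kept_append]; rfl
    rw [e] at h
    have h1 := ihv _ _ _ _ _ _ _ h
    have h2 := ihu _ _ _ _ _ _ _ h1
    have e2 : ser (.node u v) ++ rest = true :: (ser u ++ (ser v ++ rest)) := by
      simp [ser]
    rw [e2]
    refine (EvL.whilStep (i := 6) ?_ (scanLoop_node k hk keep _ x y T C) h2).mono ?_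
    · rw [view_c]; rfl
    · rw [tsz_node]; omega

/-- read one tree off stack `k`; keep it (reversed) on `t` if `keep` -/
def scan (k : Sk) (keep : Bool) : Prog := .seq (.push .c true) (scanLoop k keep)

theorem scan_spec (k : Sk) (hk : main3 k) (keep : Bool) (τ : Tr) (rest x y : List Bool) :
    EvL (scan k keep) (view k (ser τ ++ rest) x y [] [])
      (view k rest x y (kept keep (ser τ) []) []) (7 * tsz τ + 2) := by
  have h := scan_aux k hk keep τ rest x y [] [] _ 1 (EvL.whilDone (by rw [view_c]; rfl))
  have h0 : EvL (.push .c true) (view k (ser τ ++ rest) x y [] [])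
      (view k (ser τ ++ rest) x y [] [true]) 1 := by
    rcases hk with rfl | rfl | rfl <;> exact EvL.push _ _ _
  exact (EvL.seq h0 h).mono (by omega)

/-- pour stack `t` onto stack `k` -/
def flush (k : Sk) : Prog :=
  .whil .t (fun o => o.isSome) (.pop .t .skip (.push k false) (.push k true))

theorem flush_spec (k : Sk) (hk : main3 k) (l : List Bool) : ∀ (D x y : List Bool),
    EvL (flush k) (view k D x y l []) (view k (l.reverse ++ D) x y [] []) (3 * l.length + 1) := by
  induction l with
  | nil =>
    intro D x y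
    exact EvL.whilDone (by rcases hk with rfl | rfl | rfl <;> rfl)
  | cons z l ih =>
    intro D x y
    have h := ih (z :: D) x y
    have e : (z :: l).reverse ++ D = l.reverse ++ (z :: D) := by simp
    rw [e]
    refine (EvL.whilStep (i := 2) (S' := view k (z :: D) x y l []) ?_ ?_ h).mono ?_
    · rcases hk with rfl | rfl | rfl <;> rfl
    · rcases hk with rfl | rfl | rfl <;> cases z <;>
        exact EvL.pop (EvL.push _ _ _)
    · simp only [List.length_cons]; omega

/-- pour stack `t` onto both `m` and `a` -/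
def flush2 : Prog :=
  .whil .t (fun o => o.isSome) (.pop .t .skip (.seq (.push .m false) (.push .a false))
    (.seq (.push .m true) (.push .a true)))

theorem flush2_spec (l : List Bool) : ∀ (D E B : List Bool),
    EvL flush2 ⟨D, E, B, l, []⟩ ⟨l.reverse ++ D, l.reverse ++ E, B, [], []⟩
      (4 * l.length + 1) := by
  induction l with
  | nil =>
    intro D E B
    exact EvL.whilDone rfl
  | cons z l ih =>
    intro D E B
    have h := ih (z :: D) (z :: E) B
    have e : ∀ D : List Bool, (z :: l).reverse ++ D = l.reverse ++ (z :: D) := by simp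
    rw [e, e]
    refine (EvL.whilStep (i := 3) (S' := ⟨z :: D, z :: E, B, l, []⟩) rfl ?_ h).mono ?_
    · cases z <;> exact EvL.pop (EvL.seq (EvL.push _ _ _) (EvL.push _ _ _))
    · simp only [List.length_cons]; omega

/-- drop the top tree of `m` -/
def dropP : Prog := scan .m false

theorem dropP_spec (τ : Tr) (rest A B : List Bool) :
    EvL dropP ⟨ser τ ++ rest, A, B, [], []⟩ ⟨rest, A, B, [], []⟩ (7 * tsz τ + 2) :=
  scan_spec .m (Or.inl rfl) false τ rest A B

def m2a : Prog := .seq (scan .m true) (flush .a)
def a2m : Prog := .seq (scan .a true) (flush .m)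
def m2b : Prog := .seq (scan .m true) (flush .b)
def b2m : Prog := .seq (scan .b true) (flush .m)

theorem m2a_spec (τ : Tr) (rest A B : List Bool) :
    EvL m2a ⟨ser τ ++ rest, A, B, [], []⟩ ⟨rest, ser τ ++ A, B, [], []⟩ (10 * tsz τ + 3) := by
  have h1 := scan_spec .m (Or.inl rfl) true τ rest A B
  have h2 := flush_spec .a (Or.inr (Or.inl rfl)) (kept true (ser τ) []) A rest B
  have e : (kept true (ser τ) []).reverse = ser τ := by simp [kept]
  have e' : (kept true (ser τ) []).length = tsz τ := by simp [kept, tsz]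
  rw [e, e'] at h2
  exact (EvL.seq h1 h2).mono (by omega)

theorem a2m_spec (τ : Tr) (rest A B : List Bool) :
    EvL a2m ⟨rest, ser τ ++ A, B, [], []⟩ ⟨ser τ ++ rest, A, B, [], []⟩ (10 * tsz τ + 3) := by
  have h1 := scan_spec .a (Or.inr (Or.inl rfl)) true τ A rest B
  have h2 := flush_spec .m (Or.inl rfl) (kept true (ser τ) []) rest A B
  have e : (kept true (ser τ) []).reverse = ser τ := by simp [kept]
  have e' : (kept true (ser τ) []).length = tsz τ := by simp [kept, tsz]
  rw [e, e'] at h2
  exact (EvL.seq h1 h2).mono (by omega)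

theorem m2b_spec (τ : Tr) (rest A B : List Bool) :
    EvL m2b ⟨ser τ ++ rest, A, B, [], []⟩ ⟨rest, A, ser τ ++ B, [], []⟩ (10 * tsz τ + 3) := by
  have h1 := scan_spec .m (Or.inl rfl) true τ rest A B
  have h2 := flush_spec .b (Or.inr (Or.inr rfl)) (kept true (ser τ) []) B rest A
  have e : (kept true (ser τ) []).reverse = ser τ := by simp [kept]
  have e' : (kept true (ser τ) []).length = tsz τ := by simp [kept, tsz]
  rw [e, e'] at h2
  exact (EvL.seq h1 h2).mono (by omega)

theorem b2m_spec (τ : Tr) (rest A B : List Bool) :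
    EvL b2m ⟨rest, A, ser τ ++ B, [], []⟩ ⟨ser τ ++ rest, A, B, [], []⟩ (10 * tsz τ + 3) := by
  have h1 := scan_spec .b (Or.inr (Or.inr rfl)) true τ B rest A
  have h2 := flush_spec .m (Or.inl rfl) (kept true (ser τ) []) rest A B
  have e : (kept true (ser τ) []).reverse = ser τ := by simp [kept]
  have e' : (kept true (ser τ) []).length = tsz τ := by simp [kept, tsz]
  rw [e, e'] at h2
  exact (EvL.seq h1 h2).mono (by omega)

/-- duplicate the top tree -/
def dupP : Prog := .seq (.seq (scan .m true) flush2) a2m

theorem dupP_spec (τ : Tr) (rest A B : List Bool) :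
    EvL dupP ⟨ser τ ++ rest, A, B, [], []⟩ ⟨ser τ ++ (ser τ ++ rest), A, B, [], []⟩
      (21 * tsz τ + 6) := by
  have h1 := scan_spec .m (Or.inl rfl) true τ rest A B
  have h2 := flush2_spec (kept true (ser τ) []) rest A B
  have e : (kept true (ser τ) []).reverse = ser τ := by simp [kept]
  have e' : (kept true (ser τ) []).length = tsz τ := by simp [kept, tsz]
  rw [e, e'] at h2
  exact (EvL.seq (EvL.seq h1 h2) (a2m_spec τ (ser τ ++ rest) A B)).mono (by omega)

/-- swap the two top trees -/
def swapP : Prog := .seq (.seq m2a m2b) (.seq a2m b2m)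

theorem swapP_spec (τ υ : Tr) (rest A B : List Bool) :
    EvL swapP ⟨ser τ ++ (ser υ ++ rest), A, B, [], []⟩
      ⟨ser υ ++ (ser τ ++ rest), A, B, [], []⟩ (20 * tsz τ + 20 * tsz υ + 12) := by
  refine (EvL.seq (EvL.seq (m2a_spec τ _ A B) (m2b_spec υ rest _ B))
    (EvL.seq (a2m_spec τ rest A _) (b2m_spec υ _ A B))).mono ?_
  omega

/-- push a constant tree -/
def pushList : List Bool → Prog
  | [] => .skip
  | x :: l => .seq (pushList l) (.push .m x)

theorem pushList_spec (l rest A B : List Bool) :
    EvL (pushList l) ⟨rest, A, B, [], []⟩ ⟨l ++ rest, A, B, [], []⟩ (l.length + 1) := by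
  induction l with
  | nil => exact EvL.skip _
  | cons x l ih =>
    exact (EvL.seq ih (EvL.push _ _ _)).mono (by simp)

end Pool.Agent.H583R2
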