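import Pool.Agent.H583R2.TreeM

/-!
Typed functions computed by stack programs, with cost bounds; polynomial-time closure lemmas.
-/

namespace Pool.Agent.H583R2

/-- encoding of data by trees -/
class TEnc (α : Type) where
  enc : α → Tr

export TEnc (enc)

def sz {α : Type} [TEnc α] (a : α) : ℕ := tsz (enc a)

instance : TEnc Tr := ⟨fun x => x⟩
instance : TEnc Unit := ⟨fun _ => .leaf⟩
instance : TEnc Bool := ⟨fun b => match b with | true => .node .leaf .leaf | false => .leaf⟩
instance {α β : Type} [TEnc α] [TEnc β] : TEnc (α × β) := ⟨fun p => .node (enc p.1) (enc p.2)⟩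

def encList {α : Type} [TEnc α] : List α → Tr
  | [] => .leaf
  | x :: l => .node (enc x) (encList l)

instance {α : Type} [TEnc α] : TEnc (List α) := ⟨encList⟩

def encNat : ℕ → Tr
  | 0 => .leaf
  | n + 1 => .node .leaf (encNat n)

instance : TEnc ℕ := ⟨encNat⟩

instance {α : Type} [TEnc α] : TEnc (Option α) :=
  ⟨fun o => match o with | none => .leaf | some x => .node .leaf (enc x)⟩

section sizes
variable {α β : Type} [TEnc α] [TEnc β]

theorem sz_pos (a : α) : 1 ≤ sz a := tsz_pos _

theorem sz_pair (a : α) (b : β) : sz (a, b) = 1 + sz a + sz b := tsz_node _ _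

theorem sz_prod (p : α × β) : sz p = 1 + sz p.1 + sz p.2 := tsz_node _ _

theorem sz_nil : sz ([] : List α) = 1 := rfl

theorem sz_cons (x : α) (l : List α) : sz (x :: l) = 1 + sz x + sz l := tsz_node _ _

theorem sz_true : sz true = 3 := rfl
theorem sz_false : sz false = 1 := rfl
theorem sz_bool (b : Bool) : sz b ≤ 3 := by cases b <;> simp [sz_true, sz_false]
theorem sz_unit (b : Unit) : sz b = 1 := rfl

theorem sz_zero : sz (0 : ℕ) = 1 := rfl

theorem sz_succ (n : ℕ) : sz (n + 1) = 2 + sz n := by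
  have : sz (n + 1) = 1 + tsz .leaf + sz n := tsz_node _ _
  rw [this, tsz_leaf]

theorem sz_nat (n : ℕ) : sz n = 2 * n + 1 := by
  induction n with
  | zero => rfl
  | succ n ih => rw [sz_succ, ih]; omega

theorem sz_none : sz (none : Option α) = 1 := rfl

theorem sz_some (x : α) : sz (some x) = 2 + sz x := by
  have : sz (some x) = 1 + tsz .leaf + sz x := tsz_node _ _
  rw [this, tsz_leaf]

theorem sz_append (l l' : List α) : sz (l ++ l') + 1 = sz l + sz l' := by
  induction l with
  | nil => simp [sz_nil]; omega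
  | cons x l ih => simp only [List.cons_append, sz_cons]; omega

theorem length_lt_sz (l : List α) : l.length < sz l := by
  induction l with
  | nil => simp [sz_nil]
  | cons x l ih =>
    have := sz_pos x
    simp only [List.length_cons, sz_cons]; omega

theorem sz_mem {x : α} {l : List α} (h : x ∈ l) : sz x < sz l := by
  induction l with
  | nil => simp at h
  | cons y l ih =>
    rw [sz_cons]
    rcases List.mem_cons.1 h with rfl | h
    · omega
    · have := ih h; omega

theorem sz_list_le (l : List α) (b : ℕ) (h : ∀ x ∈ l, sz x ≤ b) :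
    sz l ≤ l.length * (b + 1) + 1 := by
  induction l with
  | nil => simp [sz_nil]
  | cons x l ih =>
    have h1 := ih (fun y hy => h y (List.mem_cons_of_mem _ hy))
    have h2 := h x (List.mem_cons_self)
    rw [sz_cons, List.length_cons, Nat.add_mul]
    omega

end sizes

/-- program `p` computes `f` with cost at most `c` -/
def Cmp {α β : Type} [TEnc α] [TEnc β] (p : Prog) (f : α → β) (c : α → ℕ) : Prop :=
  ∀ (a : α) (rest A B : List Bool),
    EvL p ⟨ser (enc a) ++ rest, A, B, [], []⟩ ⟨ser (enc (f a)) ++ rest, A, B, [], []⟩ (c a)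

/-- `f` is computed with cost at most `c` -/
def Has {α β : Type} [TEnc α] [TEnc β] (f : α → β) (c : α → ℕ) : Prop := ∃ p, Cmp p f c

section has
variable {α β γ δ σ : Type} [TEnc α] [TEnc β] [TEnc γ] [TEnc δ] [TEnc σ]

theorem Has.mono {f : α → β} {c c' : α → ℕ} (h : Has f c) (hc : ∀ a, c a ≤ c' a) : Has f c' := by
  obtain ⟨p, h⟩ := h
  exact ⟨p, fun a rest A B => (h a rest A B).mono (hc a)⟩

theorem Has.size {f : α → β} {c : α → ℕ} (h : Has f c) (a : α) : sz (f a) ≤ sz a + c a := by
  obtain ⟨p, h⟩ := h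
  have := (h a [] [] []).tot_le
  simp only [St.tot, List.append_nil, List.length_nil, Nat.add_zero] at this
  exact this

theorem Has.id : Has (fun a : α => a) (fun _ => 1) := ⟨.skip, fun _ _ _ _ => EvL.skip _⟩

/-- change of type without change of encoding -/
theorem Has.cast (f : α → β) (h : ∀ a, enc (f a) = enc a) : Has f (fun _ => 1) :=
  ⟨.skip, fun a _ _ _ => by rw [h]; exact EvL.skip _⟩

theorem Has.comp {f : α → β} {g : β → γ} {c : α → ℕ} {d : β → ℕ} (hg : Has g d) (hf : Has f c) :
    Has (fun a => g (f a)) (fun a => c a + d (f a)) := by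
  obtain ⟨p, hf⟩ := hf
  obtain ⟨q, hg⟩ := hg
  exact ⟨.seq p q, fun a rest A B => (hf a rest A B).seq (hg (f a) rest A B)⟩

theorem Has.const (b : β) : Has (fun _ : α => b) (fun a => 7 * sz a + sz b + 3) := by
  refine ⟨.seq dropP (pushList (ser (enc b))), fun a rest A B => ?_⟩
  refine ((dropP_spec _ _ _ _).seq (pushList_spec _ _ _ _)).mono ?_
  simp only [sz, tsz]; omega

/-- remove the pairing token -/
def unpairP : Prog := .pop .m .skip .skip .skip

theorem unpairP_spec (x y : Tr) (rest A B : List Bool) :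
    EvL unpairP ⟨ser (.node x y) ++ rest, A, B, [], []⟩ ⟨ser x ++ (ser y ++ rest), A, B, [], []⟩
      2 := by
  have e : ser (.node x y) ++ rest = true :: (ser x ++ (ser y ++ rest)) := by simp [ser]
  rw [e]
  exact EvL.pop (EvL.skip _)

theorem pairP_spec (x y : Tr) (rest A B : List Bool) :
    EvL (.push .m true) ⟨ser x ++ (ser y ++ rest), A, B, [], []⟩
      ⟨ser (.node x y) ++ rest, A, B, [], []⟩ 1 := by
  have e : ser (.node x y) ++ rest = true :: (ser x ++ (ser y ++ rest)) := by simp [ser]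
  rw [e]
  exact EvL.push _ _ _

theorem Has.fst : Has (fun p : α × β => p.1) (fun p => 20 * sz p + 20) := by
  refine ⟨.seq unpairP (.seq m2a (.seq dropP a2m)), fun p rest A B => ?_⟩
  refine ((unpairP_spec _ _ _ _ _).seq ((m2a_spec _ _ _ _).seq
    ((dropP_spec _ _ _ _).seq (a2m_spec _ _ _ _)))).mono ?_
  beta_reduce
  rw [sz_prod]
  simp only [sz]; omega

theorem Has.snd : Has (fun p : α × β => p.2) (fun p => 7 * sz p + 4) := by
  refine ⟨.seq unpairP dropP, fun p rest A B => ?_⟩
  refine ((unpairP_spec _ _ _ _ _).seq (dropP_spec _ _ _ _)).mono ?_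
  beta_reduce
  rw [sz_prod]
  simp only [sz]; omega

theorem Has.pair {f : α → β} {g : α → γ} {c d : α → ℕ} (hf : Has f c) (hg : Has g d) :
    Has (fun a => (f a, g a))
      (fun a => c a + d a + 41 * sz a + 40 * sz (f a) + 20 * sz (g a) + 40) := by
  obtain ⟨p, hf⟩ := hf
  obtain ⟨q, hg⟩ := hg
  refine ⟨.seq dupP (.seq p (.seq swapP (.seq q (.seq swapP (.push .m true))))),
    fun a rest A B => ?_⟩
  refine ((dupP_spec _ _ _ _).seq ((hf a _ A B).seq ((swapP_spec _ _ _ _ _).seq
    ((hg a _ A B).seq ((swapP_spec _ _ _ _ _).seq (pairP_spec _ _ _ _ _)))))).mono ?_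
  simp only [sz]; omega

theorem Has.boolCase {f g : α → β} {c d : α → ℕ} (hf : Has f c) (hg : Has g d) :
    Has (fun p : Bool × α => if p.1 then f p.2 else g p.2) (fun p => c p.2 + d p.2 + 8) := by
  obtain ⟨p, hf⟩ := hf
  obtain ⟨q, hg⟩ := hg
  refine ⟨.seq unpairP (.pop .m .skip q (.seq (.pop .m .skip .skip .skip)
    (.seq (.pop .m .skip .skip .skip) p))), ?_⟩
  rintro ⟨b, a⟩ rest A B
  cases b with
  | false =>
    have h1 := unpairP_spec (enc false) (enc a) rest A B
    refine EvL.mono (h1.seq (EvL.pop (hg a rest A B))) ?_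
    beta_reduce; simp only []; omega
  | true =>
    have h1 := unpairP_spec (enc true) (enc a) rest A B
    refine EvL.mono (h1.seq (EvL.pop (EvL.seq (EvL.pop (EvL.skip _)) (EvL.seq (EvL.pop (EvL.skip _))
      (hf a rest A B))))) ?_
    beta_reduce; simp only []; omega

theorem Has.listCase {g : α → γ} {h : (β × List β) × α → γ} {c : α → ℕ}
    {d : (β × List β) × α → ℕ} (hg : Has g c) (hh : Has h d) :
    Has (fun p : List β × α => match p.1 with | [] => g p.2 | x :: l => h ((x, l), p.2))
      (fun p => (match p.1 with | [] => c p.2 | x :: l => d ((x, l), p.2)) + 5) := by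
  obtain ⟨p, hg⟩ := hg
  obtain ⟨q, hh⟩ := hh
  refine ⟨.seq unpairP (.pop .m .skip p (.seq (.push .m true) (.seq (.push .m true) q))), ?_⟩
  rintro ⟨l, a⟩ rest A B
  cases l with
  | nil =>
    have h1 := unpairP_spec (enc ([] : List β)) (enc a) rest A B
    refine EvL.mono (h1.seq (EvL.pop (hg a rest A B))) ?_
    beta_reduce; simp only []; omega
  | cons x l =>
    have h1 := unpairP_spec (enc (x :: l)) (enc a) rest A B
    have h2 := hh ((x, l), a) rest A B
    have e1 : ser (enc (x :: l)) ++ (ser (enc a) ++ rest) =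
        true :: (ser (enc x) ++ (ser (enc l) ++ (ser (enc a) ++ rest))) := by
      change ser (.node (enc x) (enc l)) ++ _ = _
      simp [ser]
    have e2 : ser (enc ((x, l), a)) ++ rest =
        true :: true :: (ser (enc x) ++ (ser (enc l) ++ (ser (enc a) ++ rest))) := by
      change ser (.node (.node (enc x) (enc l)) (enc a)) ++ _ = _
      simp [ser]
    rw [e1] at h1
    rw [e2] at h2
    refine EvL.mono (h1.seq (EvL.pop (EvL.seq (EvL.push _ _ _) (EvL.seq (EvL.push _ _ _) h2)))) ?_
    beta_reduce; simp only []; omega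

theorem Has.natCase {g : α → γ} {h : ℕ × α → γ} {c : α → ℕ}
    {d : ℕ × α → ℕ} (hg : Has g c) (hh : Has h d) :
    Has (fun p : ℕ × α => match p.1 with | 0 => g p.2 | n + 1 => h (n, p.2))
      (fun p => (match p.1 with | 0 => c p.2 | n + 1 => d (n, p.2)) + 6) := by
  obtain ⟨p, hg⟩ := hg
  obtain ⟨q, hh⟩ := hh
  refine ⟨.seq unpairP (.pop .m .skip p (.seq (.pop .m .skip .skip .skip)
    (.seq (.push .m true) q))), ?_⟩
  rintro ⟨l, a⟩ rest A B
  cases l with
  | zero =>
    have h1 := unpairP_spec (enc (0 : ℕ)) (enc a) rest A B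
    refine EvL.mono (h1.seq (EvL.pop (hg a rest A B))) ?_
    beta_reduce; simp only []; omega
  | succ n =>
    have h1 := unpairP_spec (enc (n + 1)) (enc a) rest A B
    have h2 := hh (n, a) rest A B
    have e1 : ser (enc (n + 1)) ++ (ser (enc a) ++ rest) =
        true :: false :: (ser (enc n) ++ (ser (enc a) ++ rest)) := by
      change ser (.node .leaf (enc n)) ++ _ = _
      simp [ser]
    have e2 : ser (enc (n, a)) ++ rest = true :: (ser (enc n) ++ (ser (enc a) ++ rest)) := by
      change ser (.node (enc n) (enc a)) ++ _ = _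
      simp [ser]
    rw [e1] at h1
    rw [e2] at h2
    refine EvL.mono (h1.seq (EvL.pop (EvL.seq (EvL.pop (EvL.skip _)) (EvL.seq (EvL.push _ _ _) h2)))) ?_
    beta_reduce; simp only []; omega

theorem Has.optCase {g : α → γ} {h : β × α → γ} {c : α → ℕ}
    {d : β × α → ℕ} (hg : Has g c) (hh : Has h d) :
    Has (fun p : Option β × α => match p.1 with | none => g p.2 | some x => h (x, p.2))
      (fun p => (match p.1 with | none => c p.2 | some x => d (x, p.2)) + 6) := by
  obtain ⟨p, hg⟩ := hg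
  obtain ⟨q, hh⟩ := hh
  refine ⟨.seq unpairP (.pop .m .skip p (.seq (.pop .m .skip .skip .skip)
    (.seq (.push .m true) q))), ?_⟩
  rintro ⟨l, a⟩ rest A B
  cases l with
  | none =>
    have h1 := unpairP_spec (enc (none : Option β)) (enc a) rest A B
    refine EvL.mono (h1.seq (EvL.pop (hg a rest A B))) ?_
    beta_reduce; simp only []; omega
  | some n =>
    have h1 := unpairP_spec (enc (some n)) (enc a) rest A B
    have h2 := hh (n, a) rest A B
    have e1 : ser (enc (some n)) ++ (ser (enc a) ++ rest) =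
        true :: false :: (ser (enc n) ++ (ser (enc a) ++ rest)) := by
      change ser (.node .leaf (enc n)) ++ _ = _
      simp [ser]
    have e2 : ser (enc (n, a)) ++ rest = true :: (ser (enc n) ++ (ser (enc a) ++ rest)) := by
      change ser (.node (enc n) (enc a)) ++ _ = _
      simp [ser]
    rw [e1] at h1
    rw [e2] at h2
    refine EvL.mono (h1.seq (EvL.pop (EvL.seq (EvL.pop (EvL.skip _)) (EvL.seq (EvL.push _ _ _) h2)))) ?_
    beta_reduce; simp only []; omega

/-- tree case: same input, two programs -/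
theorem Has.treeCase {g : Unit → γ} {h : Tr × Tr → γ} {c : Unit → ℕ}
    {d : Tr × Tr → ℕ} (hg : Has g c) (hh : Has h d) :
    Has (fun p : Tr => match p with | .leaf => g () | .node x y => h (x, y))
      (fun p => (match p with | .leaf => c () | .node x y => d (x, y)) + 6) := by
  obtain ⟨p, hg⟩ := hg
  obtain ⟨q, hh⟩ := hh
  refine ⟨.pop .m .skip (.seq (.push .m false) p) (.seq (.push .m true) q), ?_⟩
  rintro (_ | ⟨x, y⟩) rest A B
  · refine EvL.mono (EvL.pop (EvL.seq (EvL.push _ _ _) (hg () rest A B))) ?_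
    beta_reduce; simp only []; omega
  · have h2 := hh (x, y) rest A B
    have e : ser (enc (x, y)) ++ rest = true :: (ser x ++ ser y ++ rest) := by
      change ser (.node x y) ++ _ = _
      simp [ser]
    rw [e] at h2
    refine EvL.mono (EvL.pop (EvL.seq (EvL.push _ _ _) h2)) ?_
    beta_reduce; simp only []; omega

/-- cost of a fold -/
def foldCost (F : β × σ → σ) (c : β × σ → ℕ) : List β → σ → ℕ
  | [], _ => 0
  | x :: l, s => (10 * sz x + 10 + c (x, s)) + foldCost F c l (F (x, s))

def foldLoop (p : Prog) : Prog :=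
  .whil .a (fun o => o == some true) (.seq (.pop .a .skip .skip .skip)
    (.seq a2m (.seq (.push .m true) p)))

theorem foldLoop_spec (p : Prog) (F : β × σ → σ) (c : β × σ → ℕ) (hp : Cmp p F c) (l : List β) :
    ∀ (s : σ) (rest A B : List Bool),
    EvL (foldLoop p) ⟨ser (enc s) ++ rest, ser (enc l) ++ A, B, [], []⟩
      ⟨ser (enc (l.foldl (fun s b => F (b, s)) s)) ++ rest, false :: A, B, [], []⟩
      (foldCost F c l s + 1) := by
  induction l with
  | nil =>
    intro s rest A B
    exact EvL.whilDone rfl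
  | cons x l ih =>
    intro s rest A B
    have e1 : ser (enc (x :: l)) ++ A = true :: (ser (enc x) ++ (ser (enc l) ++ A)) := by
      change ser (.node (enc x) (enc l)) ++ _ = _
      simp [ser]
    rw [e1]
    have h1 : EvL (.pop .a .skip .skip .skip)
      ⟨ser (enc s) ++ rest, true :: (ser (enc x) ++ (ser (enc l) ++ A)), B, [], []⟩
      ⟨ser (enc s) ++ rest, ser (enc x) ++ (ser (enc l) ++ A), B, [], []⟩ 2 :=
      EvL.pop (EvL.skip _)
    have h2 := a2m_spec (enc x) (ser (enc s) ++ rest) (ser (enc l) ++ A) B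
    have h3 := pairP_spec (enc x) (enc s) rest (ser (enc l) ++ A) B
    have h4 := hp (x, s) rest (ser (enc l) ++ A) B
    have h5 := ih (F (x, s)) rest A B
    refine (EvL.whilStep ?_ (h1.seq (h2.seq (h3.seq h4))) h5).mono ?_
    · rfl
    · simp only [foldCost, sz]; omega

theorem Has.fold {F : β × σ → σ} {c : β × σ → ℕ} (hF : Has F c) :
    Has (fun p : List β × σ => p.1.foldl (fun s b => F (b, s)) p.2)
      (fun p => 10 * sz p + 12 + foldCost F c p.1 p.2) := by
  obtain ⟨p, hF⟩ := hF
  refine ⟨.seq unpairP (.seq m2a (.seq (foldLoop p) (.pop .a .skip .skip .skip))),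
    fun q rest A B => ?_⟩
  refine EvL.mono ((unpairP_spec _ _ _ _ _).seq ((m2a_spec _ _ _ _).seq
    ((foldLoop_spec p F c hF q.1 q.2 rest A B).seq (EvL.pop (EvL.skip _))))) ?_
  beta_reduce
  rw [sz_prod]
  simp only [sz]; omega

end has

/-! ### polynomial bounds -/

/-- polynomially bounded (in the size of the argument) -/
def PB {α : Type} [TEnc α] (c : α → ℕ) : Prop := ∃ k, ∀ a, c a ≤ (sz a + 2) ^ k

section pb
variable {α β γ δ σ : Type} [TEnc α] [TEnc β] [TEnc γ] [TEnc δ] [TEnc σ]

theorem PB.mono {c c' : α → ℕ} (h : PB c') (hc : ∀ a, c a ≤ c' a) : PB c := by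
  obtain ⟨k, h⟩ := h
  exact ⟨k, fun a => (hc a).trans (h a)⟩

theorem PB.const (n : ℕ) : PB (fun _ : α => n) := by
  refine ⟨n, fun a => ?_⟩
  have h1 : n < 2 ^ n := Nat.lt_two_pow_self
  have h2 : 2 ^ n ≤ (sz a + 2) ^ n := Nat.pow_le_pow_left (by omega) n
  exact h1.le.trans h2

theorem PB.szId : PB (fun a : α => sz a) := ⟨1, fun a => by simp⟩

theorem PB.add {c d : α → ℕ} (hc : PB c) (hd : PB d) : PB (fun a => c a + d a) := by
  obtain ⟨k, hc⟩ := hc
  obtain ⟨l, hd⟩ := hd
  refine ⟨max k l + 1, fun a => ?_⟩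
  have h1 : (sz a + 2) ^ k ≤ (sz a + 2) ^ (max k l) :=
    Nat.pow_le_pow_right (by omega) (le_max_left _ _)
  have h2 : (sz a + 2) ^ l ≤ (sz a + 2) ^ (max k l) :=
    Nat.pow_le_pow_right (by omega) (le_max_right _ _)
  have h3 : (sz a + 2) ^ (max k l + 1) =
      (sz a + 2) ^ (max k l) * (sz a + 2) := pow_succ _ _
  have h4 : (sz a + 2) ^ (max k l) * 2 ≤
      (sz a + 2) ^ (max k l) * (sz a + 2) := Nat.mul_le_mul_left _ (by omega)
  have := hc a
  have := hd a
  beta_reduce
  omega

theorem PB.mul {c d : α → ℕ} (hc : PB c) (hd : PB d) : PB (fun a => c a * d a) := by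
  obtain ⟨k, hc⟩ := hc
  obtain ⟨l, hd⟩ := hd
  refine ⟨k + l, fun a => ?_⟩
  rw [pow_add]
  exact Nat.mul_le_mul (hc a) (hd a)

theorem PB.pow {c : α → ℕ} (hc : PB c) (n : ℕ) : PB (fun a => c a ^ n) := by
  obtain ⟨k, hc⟩ := hc
  refine ⟨k * n, fun a => ?_⟩
  rw [pow_mul]
  exact Nat.pow_le_pow_left (hc a) n

theorem PB.comp {c : β → ℕ} {f : α → β} (hc : PB c) (hf : PB (fun a => sz (f a))) :
    PB (fun a => c (f a)) := by
  obtain ⟨k, hc⟩ := hc
  have h : PB (fun a => (sz (f a) + 2) ^ k) := (hf.add (PB.const 2)).pow k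
  exact h.mono (fun a => hc (f a))

/-- polynomial-time computable -/
def PF (f : α → β) : Prop := ∃ c, PB c ∧ Has f c

theorem PF.size {f : α → β} (h : PF f) : PB (fun a => sz (f a)) := by
  obtain ⟨c, hc, hf⟩ := h
  exact (PB.szId.add hc).mono (fun a => hf.size a)

theorem PF.congr {f g : α → β} (h : PF f) (e : ∀ a, f a = g a) : PF g := by
  have : f = g := funext e
  rw [← this]; exact h

theorem PF.id : PF (fun a : α => a) := ⟨_, PB.const 1, Has.id⟩

theorem PF.cast (f : α → β) (h : ∀ a, enc (f a) = enc a) : PF f := ⟨_, PB.const 1, Has.cast f h⟩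

theorem PF.comp {f : α → β} {g : β → γ} (hg : PF g) (hf : PF f) : PF (fun a => g (f a)) := by
  have hs := hf.size
  obtain ⟨c, hc, hf⟩ := hf
  obtain ⟨d, hd, hg⟩ := hg
  exact ⟨_, hc.add (hd.comp hs), hg.comp hf⟩

theorem PF.const (b : β) : PF (fun _ : α => b) :=
  ⟨_, (((PB.const 7).mul PB.szId).add (PB.const (sz b))).add (PB.const 3), Has.const b⟩

theorem PF.fst : PF (fun p : α × β => p.1) :=
  ⟨_, ((PB.const 20).mul PB.szId).add (PB.const 20), Has.fst⟩

theorem PF.snd : PF (fun p : α × β => p.2) :=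
  ⟨_, ((PB.const 7).mul PB.szId).add (PB.const 4), Has.snd⟩

theorem PF.pair {f : α → β} {g : α → γ} (hf : PF f) (hg : PF g) : PF (fun a => (f a, g a)) := by
  have hs := hf.size
  have ht := hg.size
  obtain ⟨c, hc, hf⟩ := hf
  obtain ⟨d, hd, hg⟩ := hg
  exact ⟨_, ((((hc.add hd).add ((PB.const 41).mul PB.szId)).add ((PB.const 40).mul hs)).add
    ((PB.const 20).mul ht)).add (PB.const 40), hf.pair hg⟩

/-- composition with a binary function -/
theorem PF.comp₂ {h : β → γ → δ} {f : α → β} {g : α → γ} (hh : PF (fun p : β × γ => h p.1 p.2))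
    (hf : PF f) (hg : PF g) : PF (fun a => h (f a) (g a)) :=
  hh.comp (hf.pair hg)

theorem PF.comp₃ {ε : Type} [TEnc ε] {h : β → γ → δ → ε} {f : α → β} {g : α → γ} {k : α → δ}
    (hh : PF (fun p : β × γ × δ => h p.1 p.2.1 p.2.2))
    (hf : PF f) (hg : PF g) (hk : PF k) : PF (fun a => h (f a) (g a) (k a)) :=
  hh.comp (hf.pair (hg.pair hk))

theorem PB.fst {c : α → ℕ} (hc : PB c) : PB (fun p : α × β => c p.1) :=
  hc.comp (PF.fst (α := α) (β := β)).size

theorem PB.snd {c : β → ℕ} (hc : PB c) : PB (fun p : α × β => c p.2) :=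
  hc.comp (PF.snd (α := α) (β := β)).size

theorem PF.ite {b : α → Bool} {f g : α → β} (hb : PF b) (hf : PF f) (hg : PF g) :
    PF (fun a => if b a then f a else g a) := by
  obtain ⟨c, hc, hf⟩ := hf
  obtain ⟨d, hd, hg⟩ := hg
  have h : PF (fun p : Bool × α => if p.1 then f p.2 else g p.2) :=
    ⟨_, ((hc.snd).add hd.snd).add (PB.const 8), Has.boolCase hf hg⟩
  exact h.comp (hb.pair PF.id)

theorem PF.listCase {l : α → List β} {g : α → γ} {h : α → β → List β → γ} (hl : PF l)
    (hg : PF g) (hh : PF (fun p : α × β × List β => h p.1 p.2.1 p.2.2)) :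
    PF (fun a => match l a with | [] => g a | x :: t => h a x t) := by
  have h2 : PF (fun p : (β × List β) × α => h p.2 p.1.1 p.1.2) :=
    hh.comp (PF.snd.pair PF.fst)
  obtain ⟨c, hc, hg⟩ := hg
  obtain ⟨d, hd, hh⟩ := h2
  have h : PF (fun p : List β × α => match p.1 with | [] => g p.2 | x :: t => h p.2 x t) := by
    refine ⟨_, ?_, Has.listCase (h := fun p => h p.2 p.1.1 p.1.2) hg hh⟩
    obtain ⟨k1, hc⟩ := hc
    obtain ⟨k2, hd⟩ := hd
    have hb : PB (fun p : List β × α => (sz p + 2) ^ k1 + (sz p + 2) ^ k2 + 5) :=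
      (((PB.szId.add (PB.const 2)).pow k1).add ((PB.szId.add (PB.const 2)).pow k2)).add (PB.const 5)
    refine hb.mono ?_
    rintro ⟨l, a⟩
    cases l with
    | nil =>
      have h1 := hc a
      have h2 : (sz a + 2) ^ k1 ≤ (sz (([] : List β), a) + 2) ^ k1 :=
        Nat.pow_le_pow_left (by rw [sz_pair]; omega) _
      simp only []; omega
    | cons x t =>
      have h1 := hd ((x, t), a)
      have h2 : (sz ((x, t), a) + 2) ^ k2 ≤ (sz (x :: t, a) + 2) ^ k2 :=
        Nat.pow_le_pow_left (by rw [sz_pair, sz_pair, sz_pair, sz_cons]) _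
      simp only []; omega
  exact h.comp (hl.pair PF.id)

theorem PF.natCase {l : α → ℕ} {g : α → γ} {h : α → ℕ → γ} (hl : PF l)
    (hg : PF g) (hh : PF (fun p : α × ℕ => h p.1 p.2)) :
    PF (fun a => match l a with | 0 => g a | n + 1 => h a n) := by
  have h2 : PF (fun p : ℕ × α => h p.2 p.1) := hh.comp (PF.snd.pair PF.fst)
  obtain ⟨c, hc, hg⟩ := hg
  obtain ⟨d, hd, hh⟩ := h2
  have h : PF (fun p : ℕ × α => match p.1 with | 0 => g p.2 | n + 1 => h p.2 n) := by
    refine ⟨_, ?_, Has.natCase (h := fun p => h p.2 p.1) hg hh⟩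
    obtain ⟨k1, hc⟩ := hc
    obtain ⟨k2, hd⟩ := hd
    have hb : PB (fun p : ℕ × α => (sz p + 2) ^ k1 + (sz p + 2) ^ k2 + 6) :=
      (((PB.szId.add (PB.const 2)).pow k1).add ((PB.szId.add (PB.const 2)).pow k2)).add (PB.const 6)
    refine hb.mono ?_
    rintro ⟨l, a⟩
    cases l with
    | zero =>
      have h1 := hc a
      have h2 : (sz a + 2) ^ k1 ≤ (sz ((0 : ℕ), a) + 2) ^ k1 :=
        Nat.pow_le_pow_left (by rw [sz_pair]; omega) _
      simp only []; omega
    | succ x =>
      have h1 := hd (x, a)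
      have h2 : (sz (x, a) + 2) ^ k2 ≤ (sz (x + 1, a) + 2) ^ k2 :=
        Nat.pow_le_pow_left (by rw [sz_pair, sz_pair, sz_succ]; omega) _
      simp only []; omega
  exact h.comp (hl.pair PF.id)

theorem PF.optCase {l : α → Option β} {g : α → γ} {h : α → β → γ} (hl : PF l)
    (hg : PF g) (hh : PF (fun p : α × β => h p.1 p.2)) :
    PF (fun a => match l a with | none => g a | some x => h a x) := by
  have h2 : PF (fun p : β × α => h p.2 p.1) := hh.comp (PF.snd.pair PF.fst)
  obtain ⟨c, hc, hg⟩ := hg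
  obtain ⟨d, hd, hh⟩ := h2
  have h : PF (fun p : Option β × α => match p.1 with | none => g p.2 | some x => h p.2 x) := by
    refine ⟨_, ?_, Has.optCase (h := fun p => h p.2 p.1) hg hh⟩
    obtain ⟨k1, hc⟩ := hc
    obtain ⟨k2, hd⟩ := hd
    have hb : PB (fun p : Option β × α => (sz p + 2) ^ k1 + (sz p + 2) ^ k2 + 6) :=
      (((PB.szId.add (PB.const 2)).pow k1).add ((PB.szId.add (PB.const 2)).pow k2)).add (PB.const 6)
    refine hb.mono ?_
    rintro ⟨l, a⟩
    cases l with
    | none =>
      have h1 := hc a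
      have h2 : (sz a + 2) ^ k1 ≤ (sz ((none : Option β), a) + 2) ^ k1 :=
        Nat.pow_le_pow_left (by rw [sz_pair]; omega) _
      simp only []; omega
    | some x =>
      have h1 := hd (x, a)
      have h2 : (sz (x, a) + 2) ^ k2 ≤ (sz (some x, a) + 2) ^ k2 :=
        Nat.pow_le_pow_left (by rw [sz_pair, sz_pair, sz_some]; omega) _
      simp only []; omega
  exact h.comp (hl.pair PF.id)

theorem foldCost_le (F : β × σ → σ) (c : β × σ → ℕ) (k b : ℕ) (hc : ∀ a, c a ≤ (sz a + 2) ^ k)
    (l : List β) : ∀ s : σ, (∀ j ≤ l.length, sz ((l.take j).foldl (fun s b => F (b, s)) s) ≤ b) →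
    (∀ x ∈ l, sz x ≤ b) →
    foldCost F c l s ≤ l.length * (10 * b + 10 + (2 * b + 3) ^ k) := by
  induction l with
  | nil => intro s _ _; simp [foldCost]
  | cons x l ih =>
    intro s h1 h2
    have h3 := ih (F (x, s)) (fun j hj => by
      have := h1 (j + 1) (by simp only [List.length_cons]; omega)
      simpa using this) (fun y hy => h2 y (List.mem_cons_of_mem _ hy))
    have h4 := h2 x List.mem_cons_self
    have h5 : sz s ≤ b := by simpa using h1 0 (by omega)
    have h6 := hc (x, s)
    have h7 : (sz (x, s) + 2) ^ k ≤ (2 * b + 3) ^ k :=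
      Nat.pow_le_pow_left (by rw [sz_pair]; omega) _
    rw [foldCost, List.length_cons, Nat.add_mul, Nat.one_mul]
    omega

/-- fold with a polynomial bound on all intermediate states -/
theorem PF.fold0 {F : β × σ → σ} (hF : PF F) {g : α → List β × σ} (hg : PF g) {b : α → ℕ}
    (hb : PB b)
    (h : ∀ a, ∀ j ≤ (g a).1.length,
      sz (((g a).1.take j).foldl (fun s b => F (b, s)) (g a).2) ≤ b a) :
    PF (fun a => (g a).1.foldl (fun s b => F (b, s)) (g a).2) := by
  have hgs := hg.size
  obtain ⟨c, ⟨k, hc⟩, hF⟩ := hF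
  obtain ⟨cg, hcg, hg⟩ := hg
  refine ⟨_, ?_, Has.comp (Has.fold hF) hg⟩
  have hB : PB (fun a : α => b a + sz (g a)) := hb.add hgs
  have hB2 : PB (fun a : α => cg a + (10 * sz (g a) + 12 +
      sz (g a) * (10 * (b a + sz (g a)) + 10 +
        (2 * (b a + sz (g a)) + 3) ^ k))) :=
    hcg.add ((((PB.const 10).mul hgs).add (PB.const 12)).add
      (hgs.mul ((((PB.const 10).mul hB).add (PB.const 10)).add
        ((((PB.const 2).mul hB).add (PB.const 3)).pow k))))
  refine hB2.mono ?_
  intro a
  have h1 := foldCost_le F c k (b a + sz (g a)) hc (g a).1 (g a).2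
    (fun j hj => (h a j hj).trans (by omega))
    (fun x hx => by have := sz_mem hx; rw [sz_prod (g a)]; omega)
  have h2 : (g a).1.length ≤ sz (g a) := by
    have := length_lt_sz (g a).1
    rw [sz_prod]; omega
  have h3 := Nat.mul_le_mul_right (10 * (b a + sz (g a)) + 10 +
    (2 * (b a + sz (g a)) + 3) ^ k) h2
  beta_reduce
  omega

/-- fold with context -/
theorem PF.foldl {l : α → List β} {s : α → σ} {f : α → σ → β → σ} (hl : PF l) (hs : PF s)
    (hf : PF (fun p : α × σ × β => f p.1 p.2.1 p.2.2)) {b : α → ℕ} (hb : PB b)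
    (h : ∀ a, ∀ j ≤ (l a).length, sz (((l a).take j).foldl (f a) (s a)) ≤ b a) :
    PF (fun a => (l a).foldl (f a) (s a)) := by
  have hF : PF (fun q : β × (α × σ) => (q.2.1, f q.2.1 q.2.2 q.1)) :=
    (PF.fst.comp PF.snd).pair (hf.comp ((PF.fst.comp PF.snd).pair
      ((PF.snd.comp PF.snd).pair PF.fst)))
  have hg : PF (fun a => (l a, (a, s a))) := hl.pair (PF.id.pair hs)
  have key : ∀ (a : α) (l : List β) (s : σ),
      l.foldl (fun (s : α × σ) b => (s.1, f s.1 s.2 b)) (a, s) = (a, l.foldl (f a) s) := by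
    intro a l
    induction l with
    | nil => intro s; rfl
    | cons x l ih => intro s; simp only [List.foldl_cons, ih]
  have h1 := PF.fold0 hF hg (b := fun a => 1 + sz a + b a)
    (((PB.const 1).add PB.szId).add hb) (by
      intro a j hj
      beta_reduce
      simp only [key]
      rw [sz_pair]
      have := h a j hj
      omega)
  refine (PF.snd.comp h1).congr ?_
  intro a
  simp only [key]

end pb

end Pool.Agent.H583R2
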