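import Pool.Agent.H583R2.Final

/-!
A universal step-bounded simulation, and the simulation of Mathlib's `FinTM2` machines by it.
-/

namespace Pool.Agent.H583R2

open Turing

/-- table entry: push symbol `e.2.1` on stack `e.1`, go to state `e.2.2` -/
abbrev Ent := ℕ × ℕ × ℕ
/-- instruction: pop stack, look up the table -/
abbrev Ins := ℕ × List Ent
/-- machine code: instructions, start state, number of stacks, input stack,
symbols for `false`, `true`, output stack, output table -/
abbrev Code := List Ins × ℕ × ℕ × ℕ × (ℕ × ℕ) × ℕ × List Bool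

abbrev UCfg := ℕ × List (List ℕ)

def symIx (o : Option ℕ) : ℕ := match o with | none => 0 | some a => a + 1

def stepI (ins : Ins) (s : List (List ℕ)) : UCfg :=
  ((ins.2.getD (symIx (s.getD ins.1 []).head?) (0, 0, 0)).2.2,
    (s.set ins.1 (s.getD ins.1 []).tail).set
      (ins.2.getD (symIx (s.getD ins.1 []).head?) (0, 0, 0)).1
      ((ins.2.getD (symIx (s.getD ins.1 []).head?) (0, 0, 0)).2.1 ::
        (s.set ins.1 (s.getD ins.1 []).tail).getD
          (ins.2.getD (symIx (s.getD ins.1 []).head?) (0, 0, 0)).1 []))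

def stepU (I : List Ins) (c : UCfg) : UCfg :=
  match I[c.1]? with
  | none => c
  | some ins => stepI ins c.2

def initU (cd : Code) (x : List Bool) : UCfg :=
  (cd.2.1, (List.replicate cd.2.2.1 []).set cd.2.2.2.1
    (x.map (fun b => if b then cd.2.2.2.2.1.2 else cd.2.2.2.2.1.1)))

def runU (cd : Code) (x : List Bool) (t : ℕ) : UCfg := (stepU cd.1)^[t] (initU cd x)

def U (cd : Code) (x : List Bool) (t : ℕ) : Option (List Bool) :=
  if decide ((runU cd x t).1 < cd.1.length) then none
  else some (((runU cd x t).2.getD cd.2.2.2.2.2.1 []).map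
    (fun a => cd.2.2.2.2.2.2.getD a false))

section
variable {α β γ δ σ : Type} [TEnc α] [TEnc β] [TEnc γ] [TEnc δ] [TEnc σ]

theorem PF.take {n : α → ℕ} {l : α → List β} (hn : PF n) (hl : PF l) :
    PF (fun a => (l a).take (n a)) := by
  refine (PF.reverse (PF.drop (PF.sub (PF.length hl) hn) (PF.reverse hl))).congr ?_
  intro a
  rw [List.drop_reverse, List.reverse_reverse]
  rcases le_or_gt (n a) (l a).length with h | h
  · congr 1; omega
  · rw [List.take_of_length_le h.le, List.take_of_length_le (by omega)]

theorem PF.set {n : α → ℕ} {l : α → List β} {x : α → β} (hn : PF n) (hl : PF l) (hx : PF x) :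
    PF (fun a => (l a).set (n a) (x a)) := by
  refine (PF.ite (PF.lt hn (PF.length hl)) (PF.append (PF.take hn hl)
    (PF.cons hx (PF.drop (PF.succ hn) hl))) hl).congr ?_
  intro a
  by_cases h : n a < (l a).length
  · simp only [h, decide_true, if_true]
    rw [List.set_eq_take_append_cons_drop, if_pos h]
  · simp only [h, decide_false]
    rw [List.set_eq_of_length_le (by omega)]
    simp

theorem sz_set_getD (l : List β) (n : ℕ) (x d : β) (h : n < l.length) :
    sz (l.set n x) + sz (l.getD n d) = sz l + sz x := by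
  induction l generalizing n with
  | nil => simp at h
  | cons y l ih =>
    cases n with
    | zero => simp only [List.set_cons_zero, List.getD_cons_zero, sz_cons]; omega
    | succ n =>
      have := ih n (by simpa using h)
      simp only [List.set_cons_succ, List.getD_cons_succ, sz_cons]; omega

theorem sz_getD_le (l : List β) (n : ℕ) (d : β) : sz (l.getD n d) ≤ sz l + sz d := by
  induction l generalizing n with
  | nil => simp
  | cons y l ih =>
    cases n with
    | zero => simp only [List.getD_cons_zero, sz_cons]; omega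
    | succ n =>
      have := ih n
      simp only [List.getD_cons_succ, sz_cons]; omega

theorem sz_push_le (l : List (List ℕ)) (n a : ℕ) :
    sz (l.set n (a :: l.getD n [])) ≤ sz l + 1 + sz a := by
  rcases lt_or_ge n l.length with h | h
  · have := sz_set_getD l n (a :: l.getD n []) [] h
    rw [sz_cons] at this
    omega
  · rw [List.set_eq_of_length_le h]; omega

theorem sz_popset_le (l : List (List ℕ)) (n : ℕ) :
    sz (l.set n (l.getD n []).tail) ≤ sz l := by
  rcases lt_or_ge n l.length with h | h
  · have := sz_set_getD l n (l.getD n []).tail [] h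
    have := sz_tail (l.getD n [])
    omega
  · rw [List.set_eq_of_length_le h]

theorem PF.symIx {o : α → Option ℕ} (ho : PF o) : PF (fun a => symIx (o a)) :=
  (ho.optCase (g := fun _ => 0) (h := fun _ x => x + 1) (PF.const 0) (PF.succ PF.snd)).congr
    (fun a => by cases o a <;> rfl)

theorem PF.stepI : PF (fun p : Ins × List (List ℕ) => stepI p.1 p.2) := by
  have hs : PF (fun p : Ins × List (List ℕ) => p.2) := PF.snd
  have hi : PF (fun p : Ins × List (List ℕ) => p.1.1) := PF.fst.comp PF.fst
  have ht : PF (fun p : Ins × List (List ℕ) => p.1.2) := PF.snd.comp PF.fst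
  have h0 : PF (fun p : Ins × List (List ℕ) => p.2.getD p.1.1 []) :=
    PF.listGetD hi hs (PF.const [])
  have he : PF (fun p : Ins × List (List ℕ) =>
      p.1.2.getD (H583R2.symIx (p.2.getD p.1.1 []).head?) (0, 0, 0)) :=
    PF.listGetD (PF.symIx (PF.head? h0)) ht (PF.const _)
  have h1 : PF (fun p : Ins × List (List ℕ) => p.2.set p.1.1 (p.2.getD p.1.1 []).tail) :=
    PF.set hi hs (PF.tail h0)
  exact PF.pair (PF.snd' (PF.snd' he)) (PF.set (PF.fst' he) h1
    (PF.cons (PF.fst' (PF.snd' he)) (PF.listGetD (PF.fst' he) h1 (PF.const []))))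

theorem sz_stepU_le (I : List Ins) (c : UCfg) : sz (stepU I c) ≤ sz c + (3 * sz I + 30) := by
  unfold stepU
  rcases h : I[c.1]? with _ | ins
  · simp
  · have hm : ins ∈ I := List.mem_of_getElem? h
    have h1 := sz_mem hm
    simp only [stepI]
    have h2 := sz_push_le (c.2.set ins.1 (c.2.getD ins.1 []).tail)
      (ins.2.getD (symIx (c.2.getD ins.1 []).head?) (0, 0, 0)).1
      (ins.2.getD (symIx (c.2.getD ins.1 []).head?) (0, 0, 0)).2.1
    have h3 := sz_popset_le c.2 ins.1
    have h4 := sz_getD_le ins.2 (symIx (c.2.getD ins.1 []).head?) (0, 0, 0)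
    generalize ins.2.getD (symIx (c.2.getD ins.1 []).head?) (0, 0, 0) = e at *
    have h5 : sz (0, 0, 0) ≤ 5 := by decide
    rw [sz_prod e, sz_prod e.2] at h4
    rw [sz_prod ins] at h1
    rw [sz_pair, sz_prod c]
    omega

theorem PF.stepU : PF (fun p : List Ins × UCfg => stepU p.1 p.2) := by
  have h := PF.optCase (l := fun p : List Ins × UCfg => p.1[p.2.1]?)
    (g := fun p => p.2) (h := fun p ins => H583R2.stepI ins p.2.2)
    (PF.listGet? (PF.fst' PF.snd) PF.fst) PF.snd
    (PF.stepI.comp (PF.snd.pair (PF.snd' (PF.snd' PF.fst))))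
  refine h.congr ?_
  intro p
  unfold H583R2.stepU
  rcases p.1[p.2.1]? with _ | _ <;> rfl

theorem PF.initU : PF (fun p : Code × List Bool => initU p.1 p.2) := by
  have hc : PF (fun p : Code × List Bool => p.1) := PF.fst
  have hx : PF (fun p : Code × List Bool => p.2) := PF.snd
  refine PF.pair (PF.fst' (PF.snd' hc)) (PF.set (PF.fst' (PF.snd' (PF.snd' (PF.snd' hc))))
    (PF.replicate (PF.fst' (PF.snd' (PF.snd' hc))) (PF.const []))
    (PF.map (f := fun (p : Code × List Bool) b =>
      if b then p.1.2.2.2.2.1.2 else p.1.2.2.2.2.1.1) hx ?_))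
  have hc' : PF (fun p : (Code × List Bool) × Bool => p.1.1) := PF.fst' PF.fst
  exact PF.ite PF.snd (PF.snd' (PF.fst' (PF.snd' (PF.snd' (PF.snd' (PF.snd' hc'))))))
    (PF.fst' (PF.fst' (PF.snd' (PF.snd' (PF.snd' (PF.snd' hc'))))))

theorem PF.runU : PF (fun p : Code × List Bool × ℕ => runU p.1 p.2.1 p.2.2) := by
  refine PF.iterateAdd (n := fun p : Code × List Bool × ℕ => p.2.2)
    (s := fun p => H583R2.initU p.1 p.2.1) (f := fun p c => H583R2.stepU p.1.1 c)
    (PF.snd' PF.snd) (PF.initU.comp (PF.pair PF.fst (PF.fst' PF.snd)))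
    (PF.stepU.comp (PF.pair (PF.fst' (PF.fst' PF.fst)) PF.snd))
    (inc := fun p => 3 * sz p.1.1 + 30) (bnd := fun _ => 0)
    (((PB.const 3).mul (PF.size (PF.fst' PF.fst))).add (PB.const 30)) (PB.const 0) ?_
  intro p st
  exact (sz_stepU_le _ _).trans (le_max_left _ _)

theorem PF.U : PF (fun p : Code × List Bool × ℕ => U p.1 p.2.1 p.2.2) := by
  have hc : PF (fun p : Code × List Bool × ℕ => p.1) := PF.fst
  have hr := PF.runU
  refine PF.ite (PF.lt (PF.fst' hr) (PF.length (PF.fst' hc))) (PF.const none) (PF.mkSome ?_)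
  refine PF.map (l := fun p : Code × List Bool × ℕ =>
    (H583R2.runU p.1 p.2.1 p.2.2).2.getD p.1.2.2.2.2.2.1 [])
    (f := fun p a => p.1.2.2.2.2.2.2.getD a false)
    (PF.listGetD (PF.fst' (PF.snd' (PF.snd' (PF.snd' (PF.snd' (PF.snd' hc)))))) (PF.snd' hr)
      (PF.const [])) ?_
  have hc' : PF (fun p : (Code × List Bool × ℕ) × ℕ => p.1.1) := PF.fst' PF.fst
  exact PF.listGetD PF.snd (PF.snd' (PF.snd' (PF.snd' (PF.snd' (PF.snd' (PF.snd' hc'))))))
    (PF.const false)

end

theorem getD_set (l : List (List ℕ)) (n k : ℕ) (x : List ℕ) :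
    (l.set n x).getD k [] = if n = k ∧ k < l.length then x else l.getD k [] := by
  simp only [List.getD_eq_getElem?_getD, List.getElem?_set]
  by_cases h : n = k
  · subst h
    by_cases h2 : n < l.length
    · simp [h2]
    · simp [h2]
  · simp [h]

theorem stepU_len (I : List Ins) (c : UCfg) (k : ℕ) :
    ((stepU I c).2.getD k []).length ≤ (c.2.getD k []).length + 1 := by
  unfold stepU
  rcases h : I[c.1]? with _ | ins
  · simp
  · simp only [stepI]
    generalize (ins.2.getD (symIx (c.2.getD ins.1 []).head?) (0, 0, 0)) = e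
    have h1 : ∀ j, ((c.2.set ins.1 (c.2.getD ins.1 []).tail).getD j []).length ≤
        (c.2.getD j []).length := by
      intro j
      rw [getD_set]
      split
      · rename_i h2
        rw [h2.1, List.length_tail]; omega
      · exact le_refl _
    rw [getD_set]
    split
    · rename_i h2
      rw [List.length_cons, h2.1]
      exact Nat.succ_le_succ (h1 k)
    · exact (h1 k).trans (Nat.le_succ _)

theorem runU_len (cd : Code) (x : List Bool) (t k : ℕ) :
    ((runU cd x t).2.getD k []).length ≤ x.length + t := by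
  unfold runU
  induction t with
  | zero =>
    simp only [Function.iterate_zero, id, initU, Nat.add_zero]
    rw [getD_set]
    split
    · simp
    · rw [List.getD_eq_getElem?_getD, List.getElem?_replicate]
      split <;> simp
  | succ t ih =>
    rw [Function.iterate_succ_apply']
    have := stepU_len cd.1 ((stepU cd.1)^[t] (initU cd x)) k
    omega

/-- output length bound -/
theorem U_length_le (cd : Code) (x : List Bool) (t : ℕ) :
    ((U cd x t).getD []).length ≤ x.length + t := by
  unfold U
  split
  · simp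
  · rw [Option.getD_some, List.length_map]
    exact runU_len cd x t _

end Pool.Agent.H583R2
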